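import Pool.Agent.R356.Joint

/-!
# Affine relations with `e`: joint measures with an explicit exponent
-/

set_option autoImplicit false

namespace Pool.Agent.R356

open Polynomial Finset
open Pool.Agent.TH456.TM

/-- a relation `γ(e) + u α(e) + v β(e) = 0` which is not identically satisfied -/
def AffRel (u v : ℝ) : Prop :=
  ∃ α β γ : ℤ[X], α.natDegree ≤ 2 ∧ β.natDegree ≤ 2 ∧ γ.natDegree ≤ 2 ∧
    aeval (Real.exp 1) γ + u * aeval (Real.exp 1) α + v * aeval (Real.exp 1) β = 0 ∧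
    ∃ t : ℝ, aeval t γ + u * aeval t α + v * aeval t β ≠ 0

/-- rational approximations of two numbers -/
theorem rational (u v : ℝ) (h : AffRel u v) (ε : ℝ) (hε : 0 < ε) :
    ∃ C : ℝ, 0 < C ∧ ∀ (p r : ℤ) (q s : ℕ), 0 < q → 0 < s →
      C * ((q : ℝ) * s) ^ (-(3 + ε)) ≤ max |u - p / q| |v - r / s| := by
  obtain ⟨α, β, γ, hα, hβ, hγ, h0, t, hne⟩ := h
  obtain ⟨c, hc, hm⟩ := Pool.Agent.W472.AC.e_measP 2 ε hε
  obtain ⟨E, hE⟩ : ∃ E : ℝ, E = Real.exp 1 := ⟨_, rfl⟩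
  rw [← hE] at h0 hm
  obtain ⟨L, hL⟩ : ∃ L : ℝ, L = |aeval E α| + |aeval E β| + |aeval t α| + |aeval t β| + 1 := ⟨_, rfl⟩
  have n1 := abs_nonneg (aeval E α)
  have n2 := abs_nonneg (aeval E β)
  have n3 := abs_nonneg (aeval t α)
  have n4 := abs_nonneg (aeval t β)
  have hL1 : 1 ≤ L := by rw [hL]; linarith
  obtain ⟨ρ₀, hρ₀⟩ : ∃ ρ₀ : ℝ, ρ₀ = aeval t γ + u * aeval t α + v * aeval t β := ⟨_, rfl⟩
  rw [← hρ₀] at hne
  have hρpos : 0 < |ρ₀| := abs_pos.2 hne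
  obtain ⟨A, hA⟩ : ∃ A : ℝ, A = (ht α : ℝ) + ht β + ht γ + 1 := ⟨_, rfl⟩
  have hA1 : 1 ≤ A := by
    rw [hA]
    have h1 : (0 : ℝ) ≤ ht α := by positivity
    have h2 : (0 : ℝ) ≤ ht β := by positivity
    have h3 : (0 : ℝ) ≤ ht γ := by positivity
    linarith
  have hAc : ∀ k, |((α.coeff k : ℤ) : ℝ)| ≤ A ∧ |((β.coeff k : ℤ) : ℝ)| ≤ A ∧
      |((γ.coeff k : ℤ) : ℝ)| ≤ A := by
    intro k
    have h1 : (0 : ℝ) ≤ ht α := by positivity
    have h2 : (0 : ℝ) ≤ ht β := by positivity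
    have h3 : (0 : ℝ) ≤ ht γ := by positivity
    have g1 := le_ht α k
    have g2 := le_ht β k
    have g3 := le_ht γ k
    rw [hA]
    exact ⟨by linarith, by linarith, by linarith⟩
  obtain ⟨M, hM⟩ : ∃ M : ℝ, M = A * (3 + |u| + |v|) := ⟨_, rfl⟩
  have hu0 := abs_nonneg u
  have hv0 := abs_nonneg v
  have hM1 : 1 ≤ M := by rw [hM]; nlinarith
  have hMpos : 0 < M := by linarith
  refine ⟨min 1 (min (|ρ₀| / L) (c / (M ^ (2 + ε) * L))), by positivity, ?_⟩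
  intro p r q s hq hs
  have hqR : (1 : ℝ) ≤ q := by exact_mod_cast hq
  have hsR : (1 : ℝ) ≤ s := by exact_mod_cast hs
  obtain ⟨a, ha⟩ : ∃ a : ℝ, a = p / q := ⟨_, rfl⟩
  obtain ⟨b, hb⟩ : ∃ b : ℝ, b = r / s := ⟨_, rfl⟩
  rw [← ha, ← hb]
  have hp : (p : ℝ) = a * q := by rw [ha]; field_simp
  have hr : (r : ℝ) = b * s := by rw [hb]; field_simp
  obtain ⟨δ, hδ⟩ : ∃ δ : ℝ, δ = max |u - a| |v - b| := ⟨_, rfl⟩
  rw [← hδ]
  have hδu : |u - a| ≤ δ := by rw [hδ]; exact le_max_left _ _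
  have hδv : |v - b| ≤ δ := by rw [hδ]; exact le_max_right _ _
  have hδ0 : 0 ≤ δ := (abs_nonneg _).trans hδu
  obtain ⟨N, hN⟩ : ∃ N : ℝ, N = (q : ℝ) * s := ⟨_, rfl⟩
  have hN1 : 1 ≤ N := by rw [hN]; nlinarith
  have hN0 : 0 < N := by linarith
  rw [← hN]
  have hNe : N ^ (-(3 + ε)) ≤ 1 := Real.rpow_le_one_of_one_le_of_nonpos hN1 (by linarith)
  have hNe0 : 0 < N ^ (-(3 + ε)) := by positivity
  -- the polynomial
  obtain ⟨P, hP⟩ : ∃ P : ℤ[X], P = C ((q : ℤ) * s) * γ + C (p * s) * α + C (r * q) * β := ⟨_, rfl⟩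
  have hPx : ∀ x : ℝ, aeval x P = N * (aeval x γ + a * aeval x α + b * aeval x β) := by
    intro x
    have hz : ∀ (z : ℤ) (f : ℤ[X]), aeval x (C z * f) = (z : ℝ) * aeval x f := fun z f => by
      rw [map_mul, aeval_C]
      rfl
    rw [hP, hN, map_add, map_add, hz, hz, hz]
    push_cast
    rw [hp, hr]
    ring
  by_cases hδ1 : 1 ≤ δ
  · calc min 1 (min (|ρ₀| / L) (c / (M ^ (2 + ε) * L))) * N ^ (-(3 + ε)) ≤ 1 * 1 := by
          gcongr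
          exact min_le_left _ _
      _ ≤ δ := by linarith
  push Not at hδ1
  by_cases hP0 : P = 0
  · have h1 := hPx t
    rw [hP0, map_zero] at h1
    have h2 : aeval t γ + a * aeval t α + b * aeval t β = 0 :=
      (mul_eq_zero.1 h1.symm).resolve_left hN0.ne'
    have h3 : ρ₀ = (u - a) * aeval t α + (v - b) * aeval t β := by rw [hρ₀]; linear_combination h2
    have h4 : |ρ₀| ≤ L * δ := by
      rw [h3]
      refine (abs_add_le _ _).trans ?_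
      rw [abs_mul, abs_mul, hL]
      nlinarith
    have h5 : |ρ₀| / L ≤ δ := by
      rw [div_le_iff₀ (by linarith)]
      linarith
    calc min 1 (min (|ρ₀| / L) (c / (M ^ (2 + ε) * L))) * N ^ (-(3 + ε)) ≤ (|ρ₀| / L) * 1 := by
          gcongr
          exact (min_le_right _ _).trans (min_le_left _ _)
      _ ≤ δ := by linarith
  · have hdeg : P.natDegree ≤ 2 := by
      rw [hP]
      refine (natDegree_add_le _ _).trans (max_le ((natDegree_add_le _ _).trans (max_le ?_ ?_)) ?_)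
      · exact (natDegree_C_mul_le _ _).trans hγ
      · exact (natDegree_C_mul_le _ _).trans hα
      · exact (natDegree_C_mul_le _ _).trans hβ
    have ha1 : |a| ≤ |u| + 1 := by
      have : |a| ≤ |u| + |u - a| := by
        have h1 := abs_sub_abs_le_abs_sub a u
        rw [abs_sub_comm a u] at h1
        linarith
      linarith
    have hb1 : |b| ≤ |v| + 1 := by
      have : |b| ≤ |v| + |v - b| := by
        have h1 := abs_sub_abs_le_abs_sub b v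
        rw [abs_sub_comm b v] at h1
        linarith
      linarith
    have hcoef : ∀ k, |((P.coeff k : ℤ) : ℝ)| ≤ M * N := by
      intro k
      obtain ⟨g1, g2, g3⟩ := hAc k
      have e1 : ((P.coeff k : ℤ) : ℝ) =
          N * (γ.coeff k + a * α.coeff k + b * β.coeff k) := by
        rw [hP, coeff_add, coeff_add, coeff_C_mul, coeff_C_mul, coeff_C_mul, hN]
        push_cast
        rw [hp, hr]
        ring
      rw [e1, abs_mul, abs_of_pos hN0, mul_comm M N]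
      gcongr
      have m1 : |a| * |((α.coeff k : ℤ) : ℝ)| ≤ (|u| + 1) * A := by
        have := abs_nonneg ((α.coeff k : ℤ) : ℝ)
        gcongr
      have m2 : |b| * |((β.coeff k : ℤ) : ℝ)| ≤ (|v| + 1) * A := by
        have := abs_nonneg ((β.coeff k : ℤ) : ℝ)
        gcongr
      calc |((γ.coeff k : ℤ) : ℝ) + a * α.coeff k + b * β.coeff k|
          ≤ |((γ.coeff k : ℤ) : ℝ)| + |a * α.coeff k| + |b * β.coeff k| := abs_add_three _ _ _
        _ ≤ A + (|u| + 1) * A + (|v| + 1) * A := by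
            rw [abs_mul, abs_mul]
            linarith
        _ = M := by rw [hM]; ring
    have hMN : 1 ≤ M * N := by nlinarith
    have h1 := hm P hP0 hdeg (M * N) hMN hcoef
    have h2 : |aeval E P| ≤ N * (L * δ) := by
      rw [hPx E, abs_mul, abs_of_pos hN0]
      gcongr
      have e1 : aeval E γ + a * aeval E α + b * aeval E β =
          -((u - a) * aeval E α + (v - b) * aeval E β) := by linear_combination h0
      rw [e1, abs_neg]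
      refine (abs_add_le _ _).trans ?_
      rw [abs_mul, abs_mul, hL]
      nlinarith
    have h3 : c ≤ (M ^ (2 + ε) * L) * (N ^ (3 + ε) * δ) := by
      calc c ≤ (M * N) ^ (((2 : ℕ) : ℝ) + ε) * |aeval E P| := h1
        _ ≤ (M * N) ^ (((2 : ℕ) : ℝ) + ε) * (N * (L * δ)) := by gcongr
        _ = (M ^ (2 + ε) * L) * ((N ^ (2 + ε) * N) * δ) := by
            rw [Nat.cast_ofNat, Real.mul_rpow hMpos.le hN0.le]
            ring
        _ = _ := by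
            congr 2
            rw [← Real.rpow_add_one hN0.ne']
            congr 1
            ring
    have h4 : c / (M ^ (2 + ε) * L) ≤ N ^ (3 + ε) * δ := by
      rw [div_le_iff₀ (by positivity)]
      linarith
    have h5 : N ^ (3 + ε) * N ^ (-(3 + ε)) = 1 := by rw [← Real.rpow_add hN0]; simp
    calc min 1 (min (|ρ₀| / L) (c / (M ^ (2 + ε) * L))) * N ^ (-(3 + ε))
        ≤ (c / (M ^ (2 + ε) * L)) * N ^ (-(3 + ε)) := by
          gcongr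
          exact (min_le_right _ _).trans (min_le_right _ _)
      _ ≤ (N ^ (3 + ε) * δ) * N ^ (-(3 + ε)) := by gcongr
      _ = (N ^ (3 + ε) * N ^ (-(3 + ε))) * δ := by ring
      _ = δ := by rw [h5, one_mul]

/-- an affine relation gives an algebraic relation -/
theorem AffRel.rel {u v : ℝ} (h : AffRel u v) :
    ∃ R : ℤ[X][X][X], ev3 u v (Real.exp 1 : ℝ) R = 0 ∧ ∃ x₀, ev3 u v x₀ R ≠ 0 := by
  obtain ⟨α, β, γ, hα, hβ, hγ, h0, t, hne⟩ := h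
  have hcc : ∀ (x : ℝ) (f : ℤ[X]), aeval ((x : ℝ) : ℂ) f = ((aeval x f : ℝ) : ℂ) := fun x f =>
    aeval_algebraMap_apply ℂ x f
  have hev : ∀ x : ℝ, ev3 u v x (γ.map ((C : ℤ[X] →+* ℤ[X][X]).comp C) +
      C (C X) * α.map ((C : ℤ[X] →+* ℤ[X][X]).comp C) + C X * β.map ((C : ℤ[X] →+* ℤ[X][X]).comp C)) =
      ((aeval x γ + u * aeval x α + v * aeval x β : ℝ) : ℂ) := by
    intro x
    have h1 : ∀ f : ℤ[X], ev3 u v x (f.map ((C : ℤ[X] →+* ℤ[X][X]).comp C)) =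
        ((aeval x f : ℝ) : ℂ) := by
      intro f
      rw [← hcc, ev3_eq, Polynomial.map_map, eval_map, aeval_def]
      congr 1
      exact RingHom.ext_int _ _
    have h2 : ev3 u v x (C (C X)) = (u : ℂ) := by simp [ev3, evR, σx]
    have h3 : ev3 u v x (C X) = (v : ℂ) := by simp [ev3, evR]
    rw [map_add, map_add, map_mul, map_mul, h1, h1, h1, h2, h3]
    push_cast
    ring
  refine ⟨γ.map ((C : ℤ[X] →+* ℤ[X][X]).comp C) +
      C (C X) * α.map ((C : ℤ[X] →+* ℤ[X][X]).comp C) +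
      C X * β.map ((C : ℤ[X] →+* ℤ[X][X]).comp C), ?_, (t : ℂ), ?_⟩
  · rw [hev (Real.exp 1), h0]
    simp
  · rw [hev t]
    exact_mod_cast hne

/-- the joint measure of real numbers -/
def JointR (u v : ℝ) : Prop :=
  ∀ D : ℕ, ∃ κ C : ℝ, 0 < κ ∧ 0 < C ∧ ∀ P Q : ℤ[X], P ≠ 0 → Q ≠ 0 → P.natDegree ≤ D →
      Q.natDegree ≤ D → ∀ H : ℝ, (∀ k, |((P.coeff k : ℤ) : ℝ)| ≤ H) →
      (∀ k, |((Q.coeff k : ℤ) : ℝ)| ≤ H) → C * H ^ (-κ) ≤ max |aeval u P| |aeval v Q|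

lemma one_le_of_coeff (P : ℤ[X]) (hP : P ≠ 0) (H : ℝ) (h : ∀ k, |((P.coeff k : ℤ) : ℝ)| ≤ H) :
    1 ≤ H := by
  have h1 : P.coeff P.natDegree ≠ 0 := leadingCoeff_ne_zero.2 hP
  refine le_trans ?_ (h P.natDegree)
  rw [← Int.cast_abs]
  exact_mod_cast Int.one_le_abs h1

theorem jointR_of_rel (x : ℂ) (hx : MeasT x) (u v : ℝ)
    (h : ∃ R : ℤ[X][X][X], ev3 u v x R = 0 ∧ ∃ x₀, ev3 u v x₀ R ≠ 0) : JointR u v := by
  obtain ⟨R, hR, hne⟩ := h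
  obtain ⟨F, hF, hF0, hFne⟩ := exists_irr_factor3 u v x R hR hne
  intro D
  obtain ⟨κ, C, hκ, hC, hj⟩ := joint_of_irr x hx u v F hF hF0 hFne D
  refine ⟨κ, C, hκ, hC, fun P Q hP hQ hPD hQD H hPH hQH => ?_⟩
  rw [abs_aeval, abs_aeval]
  exact hj P Q hP hQ hPD hQD H (one_le_of_coeff P hP H hPH) hPH hQH

theorem AffRel.joint {u v : ℝ} (h : AffRel u v) : JointR u v :=
  jointR_of_rel _ measT_e u v h.rel

theorem JointR.symm {u v : ℝ} (h : JointR u v) : JointR v u := by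
  intro D
  obtain ⟨κ, C, hκ, hC, hj⟩ := h D
  refine ⟨κ, C, hκ, hC, fun P Q hP hQ hPD hQD H hPH hQH => ?_⟩
  rw [max_comm]
  exact hj Q P hQ hP hQD hPD H hQH hPH

/-- **Sparse near relations** of a finite family of numbers. -/
theorem sparse_joint {ι : Type*} (S : Finset ι) (v : ι → ℝ)
    (h : ∀ i ∈ S, ∀ j ∈ S, i ≠ j → JointR (v i) (v j)) (D : ℕ) :
    ∃ κ : ℝ, 0 < κ ∧ ∀ w ρ : ℝ, 1 < ρ → ρ < w / κ → ∃ C : ℝ, ∀ X : ℝ, 3 ≤ X →
      {p : ι × ℤ[X] | p.1 ∈ S ∧ Irreducible p.2 ∧ p.2.natDegree ≤ D ∧ 0 < p.2.leadingCoeff ∧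
        |aeval (v p.1) p.2| ≤ (ht p.2 : ℝ) ^ (-w) ∧ (ht p.2 : ℝ) ≤ X}.Finite ∧
      ({p : ι × ℤ[X] | p.1 ∈ S ∧ Irreducible p.2 ∧ p.2.natDegree ≤ D ∧ 0 < p.2.leadingCoeff ∧
        |aeval (v p.1) p.2| ≤ (ht p.2 : ℝ) ^ (-w) ∧ (ht p.2 : ℝ) ≤ X}.ncard : ℝ) ≤
        Real.log (Real.log X) / Real.log ρ + C := by
  classical
  obtain ⟨κ₀, hκ₀, hsame⟩ := same_core _ measT_e D
  have h1 : ∀ p : ι × ι, ∃ κ C : ℝ, 0 < κ ∧ 0 < C ∧ (p.1 ∈ S → p.2 ∈ S → p.1 ≠ p.2 →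
      ∀ P Q : ℤ[X], P ≠ 0 → Q ≠ 0 → P.natDegree ≤ D → Q.natDegree ≤ D → ∀ H : ℝ,
      (∀ k, |((P.coeff k : ℤ) : ℝ)| ≤ H) → (∀ k, |((Q.coeff k : ℤ) : ℝ)| ≤ H) →
      C * H ^ (-κ) ≤ max |aeval (v p.1) P| |aeval (v p.2) Q|) := by
    intro p
    by_cases hp : p.1 ∈ S ∧ p.2 ∈ S ∧ p.1 ≠ p.2
    · obtain ⟨κ, C, hκ, hC, hj⟩ := h p.1 hp.1 p.2 hp.2.1 hp.2.2 D
      exact ⟨κ, C, hκ, hC, fun _ _ _ => hj⟩
    · exact ⟨1, 1, one_pos, one_pos, fun a b c => absurd ⟨a, b, c⟩ hp⟩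
  choose κ' C' hκ' hC' h1 using h1
  obtain ⟨κ₁, hκ₁, hκle⟩ := exists_le_ge (S ×ˢ S) κ'
  obtain ⟨C₁, hC₁, hCle⟩ := exists_pos_le (S ×ˢ S) C' (fun b _ => hC' b)
  obtain ⟨B, hB, hBle⟩ := exists_le_ge S fun i => ‖((v i : ℝ) : ℂ)‖
  obtain ⟨C₀, hC₀, hsame⟩ := hsame B
  refine ⟨max κ₀ κ₁, lt_max_of_lt_left hκ₀, fun w ρ hρ hρw => ?_⟩
  have hmono : ∀ (κ C c H : ℝ), 1 ≤ H → 0 < c → c ≤ C → κ ≤ max κ₀ κ₁ →
      c * H ^ (-(max κ₀ κ₁)) ≤ C * H ^ (-κ) := by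
    intro κ C c H hH hc hcC hκ
    have h3 : H ^ (-(max κ₀ κ₁)) ≤ H ^ (-κ) :=
      Real.rpow_le_rpow_of_exponent_le hH (by linarith)
    have h4 : 0 < H ^ (-(max κ₀ κ₁)) := by positivity
    have h5 : 0 ≤ C := hc.le.trans hcC
    gcongr
  obtain ⟨Cf, hCf⟩ := sparse_fam S (fun i => ((v i : ℝ) : ℂ)) D (max κ₀ κ₁) (lt_max_of_lt_left hκ₀)
    ⟨min C₀ C₁, lt_min hC₀ hC₁, fun i hi j hj P hP Q hQ hne H hPH hQH => by
      have hH : 1 ≤ H := (ht_pos P hP.1.ne_zero).trans hPH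
      by_cases hij : i = j
      · subst hij
        have hPQ : P ≠ Q := fun h => hne (by rw [h])
        refine le_trans ?_ (hsame ((v i : ℝ) : ℂ) (hBle i hi) P hP Q hQ hPQ H hPH hQH)
        exact hmono _ _ _ _ hH (lt_min hC₀ hC₁) (min_le_left _ _) (le_max_left _ _)
      · have h2 := h1 (i, j) hi hj hij P Q hP.1.ne_zero hQ.1.ne_zero hP.2.1 hQ.2.1 H
          (fun k => (le_ht P k).trans hPH) (fun k => (le_ht Q k).trans hQH)
        rw [abs_aeval, abs_aeval] at h2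
        refine le_trans ?_ h2
        refine hmono _ _ _ _ hH (lt_min hC₀ hC₁) ?_ ?_
        · exact (min_le_right _ _).trans (hCle (i, j) (Finset.mem_product.2 ⟨hi, hj⟩))
        · exact (hκle (i, j) (Finset.mem_product.2 ⟨hi, hj⟩)).trans (le_max_right _ _)⟩ w ρ hρ hρw
  refine ⟨Cf, fun X hX => ?_⟩
  have hset : {p : ι × ℤ[X] | p.1 ∈ S ∧ Irreducible p.2 ∧ p.2.natDegree ≤ D ∧
      0 < p.2.leadingCoeff ∧ |aeval (v p.1) p.2| ≤ (ht p.2 : ℝ) ^ (-w) ∧ (ht p.2 : ℝ) ≤ X} =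
      {p ∈ NearF S (fun i => ((v i : ℝ) : ℂ)) D w | (ht p.2 : ℝ) ≤ X} := by
    ext p
    constructor
    · rintro ⟨a1, a2, a3, a4, a5, a6⟩
      exact ⟨⟨a1, ⟨a2, a3, a4⟩, by rw [← abs_aeval]; exact a5⟩, a6⟩
    · rintro ⟨⟨a1, ⟨a2, a3, a4⟩, a5⟩, a6⟩
      exact ⟨a1, a2, a3, a4, by rw [abs_aeval]; exact a5, a6⟩
  rw [hset]
  exact hCf X hX

end Pool.Agent.R356
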