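import Pool.Agent.R356.Elim

/-!
# Common zeros of the coefficients of an irreducible polynomial
-/

set_option autoImplicit false

namespace Pool.Agent.R356

open Polynomial Finset
open Pool.Agent.TH456.TM

/-- an ideal of `ℤ[X][X]` without a common factor contains a nonzero polynomial in the first
variable -/
lemma bezout (I : Ideal ℤ[X][X]) (hI : ∀ r : ℤ[X][X], (∀ a ∈ I, r ∣ a) → IsUnit r) :
    ∃ B : ℤ[X], B ≠ 0 ∧ C B ∈ I := by
  classical
  set K := FractionRing ℤ[X] with hK
  have hinj : Function.Injective (algebraMap ℤ[X] K) := IsFractionRing.injective _ _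
  let alg : Algebra ℤ[X][X] K[X] := (mapRingHom (algebraMap ℤ[X] K)).toAlgebra
  have hloc := Polynomial.isLocalization (nonZeroDivisors ℤ[X]) K
  have halg : ∀ a : ℤ[X][X], algebraMap ℤ[X][X] K[X] a = a.map (algebraMap ℤ[X] K) := fun _ => rfl
  by_cases htop : I.map (algebraMap ℤ[X][X] K[X]) = ⊤
  · have h1 := (IsLocalization.map_algebraMap_ne_top_iff_disjoint
      ((nonZeroDivisors ℤ[X]).map (C : ℤ[X] →+* ℤ[X][X])) K[X] I).not.1 (not_not.2 htop)
    rw [Set.not_disjoint_iff] at h1
    obtain ⟨z, ⟨B, hB, rfl⟩, hz⟩ := h1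
    exact ⟨B, nonZeroDivisors.ne_zero hB, hz⟩
  · exfalso
    obtain ⟨g, hg⟩ := (inferInstance : (I.map (algebraMap ℤ[X][X] K[X])).IsPrincipal)
    have hg' : I.map (algebraMap ℤ[X][X] K[X]) = Ideal.span {g} := hg
    have hdiv : ∀ a ∈ I, g ∣ a.map (algebraMap ℤ[X] K) := by
      intro a ha
      rw [← Ideal.mem_span_singleton, ← hg', ← halg]
      exact Ideal.mem_map_of_mem _ ha
    by_cases hg0 : g = 0
    · have h0 : IsUnit (0 : ℤ[X][X]) := hI 0 fun a ha => by
        have h1 := hdiv a ha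
        rw [hg0, zero_dvd_iff] at h1
        rw [(Polynomial.map_eq_zero_iff hinj).1 h1]
      exact not_isUnit_zero h0
    · have hgu : ¬ IsUnit g := by
        intro hu
        apply htop
        rw [hg', Ideal.span_singleton_eq_top]
        exact hu
      obtain ⟨p, hp, hpg⟩ := WfDvdMonoid.exists_irreducible_factor hgu hg0
      obtain ⟨b, hb, hb2⟩ := IsLocalization.integerNormalization_spec (nonZeroDivisors ℤ[X]) p
      set p' := IsLocalization.integerNormalization (nonZeroDivisors ℤ[X]) p with hp'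
      have hb0 : b ≠ 0 := nonZeroDivisors.ne_zero hb
      have hbK : algebraMap ℤ[X] K b ≠ 0 := by
        rw [Ne, map_eq_zero_iff _ hinj]; exact hb0
      have hb3 : p'.map (algebraMap ℤ[X] K) = C (algebraMap ℤ[X] K b) * p := by
        rw [hb2, Algebra.smul_def]
        rfl
      have hbu : IsUnit (C (algebraMap ℤ[X] K b)) := isUnit_C.2 (IsUnit.mk0 _ hbK)
      have hp'0 : p' ≠ 0 := by
        intro h0
        rw [h0, Polynomial.map_zero] at hb3
        rcases mul_eq_zero.1 hb3.symm with h | h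
        · exact hbu.ne_zero h
        · exact hp.ne_zero h
      obtain ⟨f, hf, w, hw⟩ := UniqueFactorizationMonoid.exists_prime_factors p' hp'0
      have h2 : p ∣ (f.map (mapRingHom (algebraMap ℤ[X] K))).prod := by
        have h3 : (f.map (mapRingHom (algebraMap ℤ[X] K))).prod =
            mapRingHom (algebraMap ℤ[X] K) f.prod := (map_multiset_prod _ _).symm
        rw [h3]
        have h4 : IsUnit (mapRingHom (algebraMap ℤ[X] K) (w : ℤ[X][X])) := w.isUnit.map _
        rw [← h4.dvd_mul_right, ← map_mul, hw]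
        show p ∣ p'.map (algebraMap ℤ[X] K)
        rw [hb3]
        exact dvd_mul_left _ _
      obtain ⟨q', hq', hpq⟩ := hp.prime.exists_mem_multiset_dvd h2
      rw [Multiset.mem_map] at hq'
      obtain ⟨q, hq, rfl⟩ := hq'
      have hqp : Prime q := hf q hq
      have hpq' : p ∣ q.map (algebraMap ℤ[X] K) := hpq
      have hqd : q.natDegree ≠ 0 := by
        intro h0
        rw [eq_C_of_natDegree_eq_zero h0, Polynomial.map_C] at hpq'
        have h5 : q.coeff 0 ≠ 0 := by
          intro h6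
          apply hqp.ne_zero
          rw [eq_C_of_natDegree_eq_zero h0, h6, C_0]
        have h6 : IsUnit (C (algebraMap ℤ[X] K (q.coeff 0))) :=
          isUnit_C.2 (IsUnit.mk0 _ (by rw [Ne, map_eq_zero_iff _ hinj]; exact h5))
        exact hp.not_isUnit (isUnit_of_dvd_unit hpq' h6)
      have hqprim : q.IsPrimitive := hqp.irreducible.isPrimitive hqd
      have hqdvd : q ∣ p' := by
        rw [← hw]
        exact (Multiset.dvd_prod hq).mul_right _
      have h7 : q.map (algebraMap ℤ[X] K) ∣ p := by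
        have h8 : q.map (algebraMap ℤ[X] K) ∣ p'.map (algebraMap ℤ[X] K) :=
          Polynomial.map_dvd _ hqdvd
        rw [hb3] at h8
        exact (hbu.dvd_mul_left).1 h8
      refine hqp.not_isUnit (hI q fun a ha => ?_)
      exact hqprim.dvd_of_fraction_map_dvd_fraction_map (K := K)
        (h7.trans (hpg.trans (hdiv a ha)))

/-- the points where an irreducible polynomial vanishes identically have algebraic coordinates -/
lemma bad_points (F : ℤ[X][X][X]) (hF : Irreducible F) (hd : F.natDegree ≠ 0) :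
    ∃ B₁ B₂ : ℤ[X], B₁ ≠ 0 ∧ B₂ ≠ 0 ∧ ∀ α β : ℂ, (∀ x₀ : ℂ, ev3 α β x₀ F = 0) →
      aeval α B₁ = 0 ∧ aeval β B₂ = 0 := by
  have hprim : F.IsPrimitive := hF.isPrimitive hd
  set I : Ideal ℤ[X][X] := Ideal.span (Set.range F.coeff) with hI
  have hmem : ∀ i, F.coeff i ∈ I := fun i => Ideal.subset_span ⟨i, rfl⟩
  have h1 : ∀ r : ℤ[X][X], (∀ a ∈ I, r ∣ a) → IsUnit r := by
    intro r hr
    refine isPrimitive_iff_isUnit_of_C_dvd.1 hprim r ?_
    rw [C_dvd_iff_dvd_coeff]
    exact fun i => hr _ (hmem i)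
  obtain ⟨B₁, hB₁, hB₁I⟩ := bezout I h1
  have h2 : ∀ r : ℤ[X][X], (∀ a ∈ I.map (Bivariate.swap (R := ℤ)), r ∣ a) → IsUnit r := by
    intro r hr
    have h3 : IsUnit ((Bivariate.swap (R := ℤ)) r) := h1 _ fun a ha => by
      have h4 := hr _ (Ideal.mem_map_of_mem (Bivariate.swap (R := ℤ)) ha)
      have h5 := map_dvd (Bivariate.swap (R := ℤ)) h4
      rwa [Bivariate.swap_swap_apply] at h5
    have h6 := h3.map (Bivariate.swap (R := ℤ))
    rwa [Bivariate.swap_swap_apply] at h6
  obtain ⟨B₂, hB₂, hB₂I⟩ := bezout _ h2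
  obtain ⟨a, haI, ha⟩ := (Ideal.mem_map_iff_of_surjective (Bivariate.swap (R := ℤ))
    (Bivariate.swap (R := ℤ)).surjective).1 hB₂I
  refine ⟨B₁, B₂, hB₁, hB₂, fun α β h => ?_⟩
  have h3 : F.map (evR α β) = 0 := by
    refine Polynomial.funext fun x₀ => ?_
    rw [eval_zero, ← ev3_eq]
    exact h x₀
  have h4 : I ≤ RingHom.ker (evR α β) := by
    rw [hI, Ideal.span_le]
    rintro _ ⟨i, rfl⟩
    show evR α β (F.coeff i) = 0
    rw [← coeff_map, h3, coeff_zero]
  have hC : ∀ (x y : ℂ) (B : ℤ[X]), evR x y (C B) = aeval x B := by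
    intro x y B
    unfold evR
    rw [coe_eval₂RingHom, eval₂_C]
    rfl
  constructor
  · rw [← hC α β]
    exact h4 hB₁I
  · rw [← hC β α, ← ha]
    show evR β α (Bivariate.swap a) = 0
    rw [evR_apply, vl_swap, ← evR_apply]
    exact h4 haI

end Pool.Agent.R356
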