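import Pool.Agent.R356.Len
import Pool.Agent.TH456.TM.AlgDep

/-!
# Elimination of two variables
-/

set_option autoImplicit false

namespace Pool.Agent.R356

open Polynomial Finset
open Pool.Agent.TH456.TM
open Pool.Agent.TH647.NR (norm_resultant_le)

/-- evaluation of polynomials in three variables, the inner variable at `x`, the middle one at `u`
and the outer one at `v` -/
noncomputable def ev3 (x u v : ℂ) : ℤ[X][X][X] →+* ℂ := eval₂RingHom (evR x u) v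

lemma ev3_eq (x u v : ℂ) (G : ℤ[X][X][X]) : ev3 x u v G = (G.map (evR x u)).eval v := by
  unfold ev3
  rw [eval_map]
  rfl

/-- the polynomial `G(X, α, β)` -/
noncomputable def spec3 (α β : ℂ) : ℤ[X][X][X] →+* ℂ[X] :=
  eval₂RingHom (eval₂RingHom (mapRingHom (Int.castRingHom ℂ)) (C α)) (C β)

lemma spec3_eval (α β x₀ : ℂ) (G : ℤ[X][X][X]) : (spec3 α β G).eval x₀ = ev3 x₀ α β G := by
  have h : (evalRingHom x₀).comp (spec3 α β) = ev3 x₀ α β := by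
    unfold spec3 ev3 evR
    ext z
    · simp [σx]
    · simp [σx]
    · simp [σx]
    · simp [σx]
  rw [← h]
  rfl

lemma bdd_of_support (S : Finset ℕ) (g : ℕ → ℕ) (h : ∀ i ∉ S, g i = 0) : ∃ E, ∀ i, g i ≤ E :=
  ⟨S.sup g, fun i => by
    by_cases hi : i ∈ S
    · exact Finset.le_sup hi
    · rw [h i hi]; omega⟩

lemma bdd_of_support' (S : Finset ℕ) (g : ℕ → ℝ) (h : ∀ i ∉ S, g i = 0) :
    ∃ E : ℝ, 1 ≤ E ∧ ∀ i, g i ≤ E := by
  obtain ⟨c, hc, hcS⟩ := exists_le_ge S g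
  refine ⟨max 1 c, le_max_left _ _, fun i => ?_⟩
  by_cases hi : i ∈ S
  · exact (hcS i hi).trans (le_max_right _ _)
  · rw [h i hi]
    exact zero_le_one.trans (le_max_left _ _)

lemma exists_bounds (x u : ℂ) (G : ℤ[X][X][X]) : ∃ (E₁ E₂ : ℕ) (A : ℝ), 1 ≤ A ∧
    (∀ i, (G.coeff i).natDegree ≤ E₁) ∧ (∀ i j, ((G.coeff i).coeff j).natDegree ≤ E₂) ∧
    (∀ i, len2 (G.coeff i) ≤ A) ∧ (∀ i, ‖evR x u (G.coeff i)‖ ≤ A) := by
  have h0 : ∀ i, i ∉ G.support → G.coeff i = 0 := fun i hi => notMem_support_iff.1 hi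
  obtain ⟨E₁, hE₁⟩ := bdd_of_support G.support (fun i => (G.coeff i).natDegree)
    (fun i hi => by rw [h0 i hi]; simp)
  choose e he using fun i => bdd_of_support (G.coeff i).support
    (fun j => ((G.coeff i).coeff j).natDegree) (fun j hj => by rw [notMem_support_iff.1 hj]; simp)
  obtain ⟨E₂, hE₂⟩ := bdd_of_support G.support (fun i => if i ∈ G.support then e i else 0)
    (fun i hi => by simp only [if_neg hi])
  obtain ⟨A₁, hA₁, hA₁'⟩ := bdd_of_support' G.support (fun i => len2 (G.coeff i))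
    (fun i hi => by
      show len2 (G.coeff i) = 0
      rw [h0 i hi]; exact isLen2.zero)
  obtain ⟨A₂, hA₂, hA₂'⟩ := bdd_of_support' G.support (fun i => ‖evR x u (G.coeff i)‖)
    (fun i hi => by
      show ‖evR x u (G.coeff i)‖ = 0
      rw [h0 i hi, map_zero, norm_zero])
  refine ⟨E₁, E₂, max A₁ A₂, le_max_of_le_left hA₁, hE₁, fun i j => ?_,
    fun i => (hA₁' i).trans (le_max_left _ _), fun i => (hA₂' i).trans (le_max_right _ _)⟩
  by_cases hi : i ∈ G.support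
  · have h1 := hE₂ i
    simp only [if_pos hi] at h1
    exact (he i j).trans h1
  · rw [h0 i hi]; simp

/-- the resultant of `Q(V)` and `G(·, ·, V)` -/
noncomputable def NN (Q : ℤ[X]) (G : ℤ[X][X][X]) : ℤ[X][X] :=
  resultant (Q.map ((C : ℤ[X] →+* ℤ[X][X]).comp (C : ℤ →+* ℤ[X]))) G Q.natDegree G.natDegree

lemma ev_NN (x₀ α : ℂ) (Q : ℤ[X]) (G : ℤ[X][X][X]) : vl x₀ α (NN Q G) =
    resultant (Q.map (Int.castRingHom ℂ)) (G.map (evR x₀ α)) Q.natDegree G.natDegree := by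
  rw [← evR_apply, NN, ← resultant_map_map, Polynomial.map_map]
  congr 2
  exact RingHom.ext_int _ _

lemma NN_ne (x₀ α : ℂ) (Q : ℤ[X]) (hQ : Q ≠ 0) (G : ℤ[X][X][X])
    (h : ∀ β : ℂ, aeval β Q = 0 → ev3 x₀ α β G ≠ 0) : vl x₀ α (NN Q G) ≠ 0 := by
  have hinj : Function.Injective (Int.castRingHom ℂ) := Int.cast_injective
  have hQ' : Q.map (Int.castRingHom ℂ) ≠ 0 := (Polynomial.map_ne_zero_iff hinj).2 hQ
  rw [ev_NN]
  intro h1
  have h3 : Q.natDegree = (Q.map (Int.castRingHom ℂ)).natDegree := by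
    rw [natDegree_map_eq_of_injective hinj]
  rw [h3, resultant_eq_prod_eval _ _ _ natDegree_map_le (IsAlgClosed.splits _)] at h1
  rcases mul_eq_zero.1 h1 with h2 | h2
  · exact hQ' (leadingCoeff_eq_zero.1 (eq_zero_of_pow_eq_zero h2))
  · rw [Multiset.prod_eq_zero_iff, Multiset.mem_map] at h2
    obtain ⟨β, hβ, hβ0⟩ := h2
    have h4 : aeval β Q = 0 := by
      rw [mem_roots hQ', IsRoot.def, eval_map] at hβ
      rw [aeval_def]
      exact hβ
    exact h β h4 (by rw [ev3_eq]; exact hβ0)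

lemma exists_generic (α : ℂ) (Q : ℤ[X]) (hQ : Q ≠ 0) (G : ℤ[X][X][X])
    (h : ∀ β : ℂ, aeval β Q = 0 → ∃ x₀ : ℂ, ev3 x₀ α β G ≠ 0) : ∃ x₀ : ℂ, vl x₀ α (NN Q G) ≠ 0 := by
  classical
  have hinj : Function.Injective (Int.castRingHom ℂ) := Int.cast_injective
  have hQ' : Q.map (Int.castRingHom ℂ) ≠ 0 := (Polynomial.map_ne_zero_iff hinj).2 hQ
  set B : Set ℂ := ⋃ β ∈ (Q.map (Int.castRingHom ℂ)).roots.toFinset,
    ((spec3 α β G).roots.toFinset : Set ℂ) with hB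
  have hBfin : B.Finite := by
    rw [hB]
    exact Set.Finite.biUnion (Finset.finite_toSet _) fun _ _ => Finset.finite_toSet _
  obtain ⟨x₀, hx₀⟩ := hBfin.exists_notMem
  refine ⟨x₀, NN_ne x₀ α Q hQ G fun β hβ h0 => ?_⟩
  obtain ⟨x₁, hx₁⟩ := h β hβ
  have h2 : spec3 α β G ≠ 0 := by
    intro h
    rw [← spec3_eval, h, eval_zero] at hx₁
    exact hx₁ rfl
  have h3 : β ∈ (Q.map (Int.castRingHom ℂ)).roots := by
    rw [mem_roots hQ', IsRoot.def, eval_map]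
    rw [aeval_def] at hβ
    exact hβ
  apply hx₀
  rw [hB]
  refine Set.mem_biUnion (show β ∈ (Q.map (Int.castRingHom ℂ)).roots.toFinset from
    Multiset.mem_toFinset.2 h3) ?_
  rw [Finset.mem_coe, Multiset.mem_toFinset, mem_roots h2, IsRoot.def, spec3_eval]
  exact h0

/-- entries of the matrix -/
lemma sylv_entry {R : Type*} [CommRing R] (p : R → Prop) (h0 : p 0) (f g : R[X]) (m n : ℕ)
    (hf : ∀ i, p (f.coeff i)) (hg : ∀ i, p (g.coeff i)) (i j : Fin (m + n)) :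
    p (sylvester f g m n i j) := by
  rw [sylvester, Matrix.of_apply]
  refine Fin.addCases (fun j₁ => ?_) (fun j₁ => ?_) j
  · rw [Fin.addCases_left]
    split_ifs
    · exact hg _
    · exact h0
  · rw [Fin.addCases_right]
    split_ifs
    · exact hf _
    · exact h0

lemma len2_CC (z : ℤ) : len2 (C (C z)) = |(z : ℝ)| := by
  show len (len fun z : ℤ => |(z : ℝ)|) (C (C z)) = _
  rw [len_C isLen_int.poly, len_C isLen_int]

/-- degrees and coefficients of `NN` -/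
lemma NN_bounds (Q : ℤ[X]) (G : ℤ[X][X][X]) (E₁ E₂ : ℕ) (A H : ℝ) (hA : 1 ≤ A) (hH : 1 ≤ H)
    (h1 : ∀ i, (G.coeff i).natDegree ≤ E₁) (h2 : ∀ i j, ((G.coeff i).coeff j).natDegree ≤ E₂)
    (h3 : ∀ i, len2 (G.coeff i) ≤ A) (hQ : ∀ k, |((Q.coeff k : ℤ) : ℝ)| ≤ H) :
    (NN Q G).natDegree ≤ (Q.natDegree + G.natDegree) * E₁ ∧
    (∀ j, ((NN Q G).coeff j).natDegree ≤ (Q.natDegree + G.natDegree) * E₂) ∧
    (∀ j k, |((((NN Q G).coeff j).coeff k : ℤ) : ℝ)| ≤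
      (Q.natDegree + G.natDegree).factorial * (A * H) ^ (Q.natDegree + G.natDegree)) := by
  have hQc : ∀ i, (Q.map ((C : ℤ[X] →+* ℤ[X][X]).comp (C : ℤ →+* ℤ[X]))).coeff i = C (C (Q.coeff i)) :=
    fun i => by rw [coeff_map]; rfl
  refine ⟨natDegree_det_le _ _ _ fun i j => ?_, natDegree_coeff_det_le _ _ _ fun i j => ?_,
    fun j k => (le_len2 _ j k).trans (isLen2.det _ _ _ fun i j => ?_)⟩
  · refine sylv_entry (fun a : ℤ[X][X] => a.natDegree ≤ E₁) (by simp) _ _ _ _ (fun i => ?_) h1 i j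
    rw [hQc]; simp
  · refine sylv_entry (fun a : ℤ[X][X] => ∀ k, (a.coeff k).natDegree ≤ E₂) (by simp) _ _ _ _ (fun i k => ?_) h2 i j
    rw [hQc, coeff_C]
    split_ifs <;> simp
  · refine sylv_entry (fun a : ℤ[X][X] => len2 a ≤ A * H) ?_ _ _ _ _ (fun i => ?_) (fun i => ?_) i j
    · show len2 0 ≤ _
      rw [isLen2.zero]; positivity
    · show len2 _ ≤ _
      rw [hQc, len2_CC]
      exact (hQ i).trans (by nlinarith)
    · exact (h3 i).trans (by nlinarith)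

/-- size of the value of `NN` -/
lemma NN_value (x u v : ℂ) (Q : ℤ[X]) (G : ℤ[X][X][X]) (hG : ev3 x u v G = 0) (A H T : ℝ)
    (hA : 1 ≤ A) (hH : 1 ≤ H) (hT : 1 ≤ T) (hv : ‖v‖ ≤ T) (hm : 0 < Q.natDegree)
    (h4 : ∀ i, ‖evR x u (G.coeff i)‖ ≤ A) (hQ : ∀ k, |((Q.coeff k : ℤ) : ℝ)| ≤ H) :
    ‖vl x u (NN Q G)‖ ≤ (Q.natDegree + G.natDegree) *
      (T ^ (Q.natDegree + G.natDegree) * ‖aeval v Q‖) *
      ((Q.natDegree + G.natDegree).factorial * (A * H) ^ (Q.natDegree + G.natDegree)) := by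
  rw [ev_NN]
  refine norm_resultant_le _ _ _ _ natDegree_map_le natDegree_map_le (by omega) (A * H) T _
    (by nlinarith) (fun i => ?_) (fun i => ?_) v hT hv ?_ ?_
  · rw [coeff_map, eq_intCast, Complex.norm_intCast]
    exact (hQ i).trans (by nlinarith)
  · rw [coeff_map]
    exact (h4 i).trans (by nlinarith)
  · rw [eval_map, aeval_def]
    rfl
  · rw [← ev3_eq, hG, norm_zero]
    exact norm_nonneg _

/-- **Elimination.** -/
theorem elim (x : ℂ) (hx : MeasT x) (u v : ℂ) (G : ℤ[X][X][X]) (hG : ev3 x u v G = 0) (D : ℕ) :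
    ∃ κ C : ℝ, 0 < κ ∧ 0 < C ∧ ∀ P Q : ℤ[X], P ≠ 0 → Q ≠ 0 → P.natDegree ≤ D → Q.natDegree ≤ D →
      (∀ α β : ℂ, aeval α P = 0 → aeval β Q = 0 → ∃ x₀ : ℂ, ev3 x₀ α β G ≠ 0) →
      ∀ H : ℝ, 1 ≤ H → (∀ k, |((P.coeff k : ℤ) : ℝ)| ≤ H) → (∀ k, |((Q.coeff k : ℤ) : ℝ)| ≤ H) →
      C * H ^ (-κ) ≤ max ‖aeval u P‖ ‖aeval v Q‖ := by
  obtain ⟨E₁, E₂, A, hA, h1, h2, h3, h4⟩ := exists_bounds x u G
  obtain ⟨s, hs⟩ : ∃ s, s = D + G.natDegree := ⟨_, rfl⟩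
  obtain ⟨κ₀, hκ₀, hcore⟩ := core_res x hx (D + s * E₁ + 1) (s * E₂) (by omega)
  obtain ⟨C₀, hC₀, hcore⟩ := hcore (max 1 ‖u‖) (le_max_left _ _)
  obtain ⟨T, hT⟩ : ∃ T : ℝ, T = max 1 ‖v‖ := ⟨_, rfl⟩
  have hT1 : 1 ≤ T := by rw [hT]; exact le_max_left _ _
  have hTv : ‖v‖ ≤ T := by rw [hT]; exact le_max_right _ _
  obtain ⟨B, hB⟩ : ∃ B : ℝ, B = s.factorial * A ^ s := ⟨_, rfl⟩
  have hfac : (1 : ℝ) ≤ s.factorial := by exact_mod_cast Nat.factorial_pos _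
  have hAs : 1 ≤ A ^ s := one_le_pow₀ hA
  have hB1 : 1 ≤ B := by rw [hB]; nlinarith
  obtain ⟨K, hK⟩ : ∃ K : ℝ, K = (s + 1) * T ^ s * B := ⟨_, rfl⟩
  have hTs : 1 ≤ T ^ s := one_le_pow₀ hT1
  have hsR : (0 : ℝ) ≤ s := by positivity
  have hK1 : 1 ≤ K := by
    rw [hK]
    have : 1 ≤ (s + 1 : ℝ) * T ^ s := by nlinarith
    nlinarith
  refine ⟨s * κ₀ + s + 1, min 1 (C₀ * B ^ (-κ₀) / K), by positivity, by positivity, ?_⟩
  intro P Q hP hQ hPD hQD hbad H hH hPH hQH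
  have hH0 : 0 < H := by linarith
  have hκpos : 0 < (s * κ₀ + s + 1 : ℝ) := by positivity
  have hsmall : H ^ (-(s * κ₀ + s + 1 : ℝ)) ≤ 1 :=
    Real.rpow_le_one_of_one_le_of_nonpos hH (by linarith)
  have hconst : ∀ (R : ℤ[X]) (t : ℂ), R ≠ 0 → R.natDegree = 0 → (1 : ℝ) ≤ ‖aeval t R‖ := by
    intro R t hR hR0
    have h1 : R = C (R.coeff 0) := eq_C_of_natDegree_eq_zero hR0
    have h2 : R.coeff 0 ≠ 0 := fun h => hR (by rw [h1, h, C_0])
    rw [h1, aeval_C, eq_intCast, Complex.norm_intCast, ← Int.cast_abs]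
    exact_mod_cast Int.one_le_abs h2
  have htriv : min 1 (C₀ * B ^ (-κ₀) / K) * H ^ (-(s * κ₀ + s + 1 : ℝ)) ≤ 1 := by
    have h5 : min 1 (C₀ * B ^ (-κ₀) / K) ≤ 1 := min_le_left _ _
    have h6 : 0 ≤ H ^ (-(s * κ₀ + s + 1 : ℝ)) := by positivity
    nlinarith
  by_cases hP0 : P.natDegree = 0
  · exact htriv.trans ((hconst P u hP hP0).trans (le_max_left _ _))
  by_cases hQ0 : Q.natDegree = 0
  · exact htriv.trans ((hconst Q v hQ hQ0).trans (le_max_right _ _))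
  obtain ⟨b1, b2, b3⟩ := NN_bounds Q G E₁ E₂ A H hA hH h1 h2 h3 hQH
  have b4 := NN_value x u v Q G hG A H T hA hH hT1 hTv (by omega) h4 hQH
  obtain ⟨r, hr⟩ : ∃ r, r = Q.natDegree + G.natDegree := ⟨_, rfl⟩
  have hrs : r ≤ s := by omega
  have hcast : ((Q.natDegree : ℝ) + G.natDegree) = r := by rw [hr]; push_cast; ring
  rw [hcast] at b4
  rw [← hr] at b1 b2 b3 b4
  have hAH : 1 ≤ A * H := by nlinarith
  have hpow : (A * H) ^ r ≤ A ^ s * H ^ s := by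
    rw [← mul_pow]; exact pow_le_pow_right₀ hAH hrs
  have hfr : ((r.factorial : ℕ) : ℝ) ≤ s.factorial := by exact_mod_cast Nat.factorial_le hrs
  have b5 : (r.factorial : ℝ) * (A * H) ^ r ≤ B * H ^ s := by
    rw [hB]
    calc (r.factorial : ℝ) * (A * H) ^ r ≤ s.factorial * (A ^ s * H ^ s) := by gcongr
      _ = _ := by ring
  have hHs : 1 ≤ H ^ s := one_le_pow₀ hH
  -- application of the one variable result
  have hdeg : (P.map (C : ℤ →+* ℤ[X])).natDegree = P.natDegree :=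
    natDegree_map_eq_of_injective C_injective _
  have hE₁' : r * E₁ ≤ s * E₁ := Nat.mul_le_mul_right _ hrs
  have hE₂' : r * E₂ ≤ s * E₂ := Nat.mul_le_mul_right _ hrs
  have key := hcore u (le_max_right _ _) (P.map C) (NN Q G) (by rw [hdeg]; omega) (by omega)
    (fun j => by rw [coeff_map, natDegree_C]; omega) (fun j => (b2 j).trans hE₂')
    (by rw [hdeg]; omega)
    (res_ne P hP (NN Q G) fun α hα => exists_generic α Q hQ G fun β hβ => hbad α β hα hβ)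
    (B * H ^ s) (by nlinarith)
    (fun j k => by
      rw [coeff_map, coeff_C]
      split_ifs
      · refine (hPH j).trans ?_
        have h7 : H ≤ H ^ s := le_self_pow₀ hH (by omega)
        nlinarith
      · simp only [Int.cast_zero, abs_zero]; positivity)
    (fun j k => (b3 j k).trans b5)
  rw [vl_map_C] at key
  -- conclusion
  obtain ⟨ε, hε⟩ : ∃ ε : ℝ, ε = max ‖aeval u P‖ ‖aeval v Q‖ := ⟨_, rfl⟩
  rw [← hε]
  have hε1 : ‖aeval u P‖ ≤ ε := by rw [hε]; exact le_max_left _ _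
  have hε2 : ‖aeval v Q‖ ≤ ε := by rw [hε]; exact le_max_right _ _
  have hε0 : 0 ≤ ε := (norm_nonneg _).trans hε1
  have b6 : ‖vl x u (NN Q G)‖ ≤ K * H ^ s * ε := by
    refine b4.trans ?_
    have hrR : (r : ℝ) ≤ s + 1 := by
      have : (r : ℝ) ≤ s := by exact_mod_cast hrs
      linarith
    have hTr : T ^ r ≤ T ^ s := pow_le_pow_right₀ hT1 hrs
    calc (r : ℝ) * (T ^ r * ‖aeval v Q‖) * ((r.factorial : ℝ) * (A * H) ^ r)
        ≤ (s + 1) * (T ^ s * ε) * (B * H ^ s) := by gcongr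
      _ = _ := by rw [hK]; ring
  have b7 : max ‖aeval u P‖ ‖vl x u (NN Q G)‖ ≤ K * H ^ s * ε := by
    refine max_le (hε1.trans ?_) b6
    have : 1 ≤ K * H ^ s := by nlinarith
    nlinarith
  have b8 : C₀ * (B * H ^ s) ^ (-κ₀) ≤ K * H ^ s * ε := key.trans b7
  have e1 : (B * H ^ s) ^ (-κ₀) = B ^ (-κ₀) * H ^ (-(s * κ₀ : ℝ)) := by
    rw [Real.mul_rpow (by linarith) (by positivity), ← Real.rpow_natCast H s,
      ← Real.rpow_mul hH0.le]
    congr 2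
    ring
  have e2 : H ^ (-(s * κ₀ : ℝ)) = H ^ s * H ^ (-(s * κ₀ + s : ℝ)) := by
    rw [← Real.rpow_natCast H s, ← Real.rpow_add hH0]
    congr 1
    ring
  have b9 : C₀ * B ^ (-κ₀) / K * H ^ (-(s * κ₀ + s : ℝ)) ≤ ε := by
    rw [e1, e2] at b8
    have h8 : 0 < K * H ^ s := by positivity
    have h9 : (K * H ^ s) * (C₀ * B ^ (-κ₀) / K * H ^ (-(s * κ₀ + s : ℝ))) ≤ (K * H ^ s) * ε := by
      calc (K * H ^ s) * (C₀ * B ^ (-κ₀) / K * H ^ (-(s * κ₀ + s : ℝ)))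
          = C₀ * (B ^ (-κ₀) * (H ^ s * H ^ (-(s * κ₀ + s : ℝ)))) := by
            field_simp
        _ ≤ _ := b8
    exact le_of_mul_le_mul_left h9 h8
  have e3 : H ^ (-(s * κ₀ + s + 1 : ℝ)) ≤ H ^ (-(s * κ₀ + s : ℝ)) :=
    Real.rpow_le_rpow_of_exponent_le hH (by linarith)
  calc min 1 (C₀ * B ^ (-κ₀) / K) * H ^ (-(s * κ₀ + s + 1 : ℝ))
      ≤ C₀ * B ^ (-κ₀) / K * H ^ (-(s * κ₀ + s : ℝ)) := by
        gcongr
        exact min_le_right _ _
    _ ≤ ε := b9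

end Pool.Agent.R356
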