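import Pool.Agent.R356.Aff

/-!
# The numbers `π + e`, `π - e`, `π e`, `π / e`
-/

set_option autoImplicit false

namespace Pool.Agent.R356

open Polynomial Finset
open Pool.Agent.TH456.TM

theorem aff_add_sub : AffRel (Real.pi + Real.exp 1) (Real.pi - Real.exp 1) := by
  refine ⟨-1, 1, X + X, by simp, by simp, ?_, ?_, (0 : ℝ), ?_⟩
  · exact (natDegree_add_le _ _).trans (by simp)
  · simp only [map_neg, map_one, map_add, aeval_X]
    ring
  · simp only [map_neg, map_one, map_add, aeval_X]
    have := Real.exp_pos 1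
    intro h
    linarith

theorem aff_add_mul : AffRel (Real.pi + Real.exp 1) (Real.pi * Real.exp 1) := by
  refine ⟨-X, 1, X ^ 2, by simp, by simp, by simp, ?_, (0 : ℝ), ?_⟩
  · simp only [map_neg, map_one, map_pow, aeval_X]
    ring
  · simp only [map_neg, map_one, map_pow, aeval_X]
    have h1 := Real.exp_pos 1
    have h2 := Real.pi_pos
    have h3 : 0 < Real.pi * Real.exp 1 := by positivity
    intro h
    linarith

theorem aff_add_div : AffRel (Real.pi + Real.exp 1) (Real.pi / Real.exp 1) := by
  refine ⟨-1, X, X, by simp, by simp, by simp, ?_, (0 : ℝ), ?_⟩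
  · simp only [map_neg, map_one, aeval_X]
    have := Real.exp_pos 1
    field_simp
    ring
  · simp only [map_neg, map_one, aeval_X]
    have := Real.exp_pos 1
    have := Real.pi_pos
    intro h
    linarith

theorem aff_sub_mul : AffRel (Real.pi - Real.exp 1) (Real.pi * Real.exp 1) := by
  refine ⟨X, -1, X ^ 2, by simp, by simp, by simp, ?_, (0 : ℝ), ?_⟩
  · simp only [map_neg, map_one, map_pow, aeval_X]
    ring
  · simp only [map_neg, map_one, map_pow, aeval_X]
    have h1 := Real.exp_pos 1
    have h2 := Real.pi_pos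
    have h3 : 0 < Real.pi * Real.exp 1 := by positivity
    intro h
    linarith

theorem aff_sub_div : AffRel (Real.pi - Real.exp 1) (Real.pi / Real.exp 1) := by
  refine ⟨-1, X, -X, by simp, by simp, by simp, ?_, (0 : ℝ), ?_⟩
  · simp only [map_neg, map_one, aeval_X]
    have := Real.exp_pos 1
    field_simp
    ring
  · simp only [map_neg, map_one, aeval_X]
    have := Real.exp_one_lt_d9
    have := Real.pi_gt_three
    intro h
    linarith

theorem aff_mul_div : AffRel (Real.pi * Real.exp 1) (Real.pi / Real.exp 1) := by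
  refine ⟨-1, X ^ 2, 0, by simp, by simp, by simp, ?_, (0 : ℝ), ?_⟩
  · simp only [map_neg, map_one, map_pow, map_zero, aeval_X]
    have := Real.exp_pos 1
    field_simp
    ring
  · simp only [map_neg, map_one, map_pow, map_zero, aeval_X]
    have h1 := Real.exp_pos 1
    have h2 := Real.pi_pos
    have h3 : 0 < Real.pi * Real.exp 1 := by positivity
    intro h
    linarith

/-- the rational approximations, in both orders -/
def RatR (u v : ℝ) : Prop :=
  ∀ ε : ℝ, 0 < ε → ∃ C : ℝ, 0 < C ∧ ∀ (p r : ℤ) (q s : ℕ), 0 < q → 0 < s →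
      C * ((q : ℝ) * s) ^ (-(3 + ε)) ≤ max |u - p / q| |v - r / s|

theorem RatR.symm {u v : ℝ} (h : RatR u v) : RatR v u := by
  intro ε hε
  obtain ⟨C, hC, h⟩ := h ε hε
  refine ⟨C, hC, fun p r q s hq hs => ?_⟩
  rw [max_comm, mul_comm (q : ℝ)]
  exact h r p s q hs hq

/-- the four numbers -/
noncomputable def num : Fin 4 → ℝ :=
  ![Real.pi + Real.exp 1, Real.pi - Real.exp 1, Real.pi * Real.exp 1, Real.pi / Real.exp 1]

theorem four (i j : Fin 4) (hij : i ≠ j) : JointR (num i) (num j) ∧ RatR (num i) (num j) := by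
  have h : ∀ i j : Fin 4, i < j → AffRel (num i) (num j) := by
    intro i j hij
    fin_cases i <;> fin_cases j <;> first | (exact absurd hij (by decide)) | skip
    · exact aff_add_sub
    · exact aff_add_mul
    · exact aff_add_div
    · exact aff_sub_mul
    · exact aff_sub_div
    · exact aff_mul_div
  rcases lt_or_gt_of_ne hij with h1 | h1
  · exact ⟨(h i j h1).joint, rational _ _ (h i j h1)⟩
  · exact ⟨((h j i h1).joint).symm, RatR.symm (rational _ _ (h j i h1))⟩

end Pool.Agent.R356
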