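import Pool.Agent.R356.Bezout
import Pool.Agent.TH456.TM.E

/-!
# Joint transcendence measures

If `x` has a transcendence measure of polynomial type in every degree and `x` is algebraic over
`ℤ[u, v]`, then for all nonzero integer polynomials `P`, `Q` of bounded degree the values `P(u)` and
`Q(v)` are not both small in terms of the coefficients of `P` and `Q`.
-/

set_option autoImplicit false

namespace Pool.Agent.R356

open Polynomial Finset
open Pool.Agent.TH456.TM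

/-- coefficients of a factor -/
lemma height_factor (D : ℕ) (A B : ℤ[X]) (hA : A ≠ 0) (hB : B ≠ 0) (hD : (A * B).natDegree ≤ D)
    (H : ℝ) (hH : ∀ k, |(((A * B).coeff k : ℤ) : ℝ)| ≤ H) (k : ℕ) :
    |((A.coeff k : ℤ) : ℝ)| ≤ 2 ^ D * (D + 1) * H := by
  have hH0 : 0 ≤ H := (abs_nonneg _).trans (hH 0)
  have hAB := natDegree_mul hA hB
  have h1 : |((A.coeff k : ℤ) : ℝ)| = ‖(A.map (Int.castRingHom ℂ)).coeff k‖ := by
    rw [coeff_map, eq_intCast, Complex.norm_intCast]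
  have h2 := norm_coeff_le_choose_mul_mahlerMeasure_of_one_le_mahlerMeasure k
    (A.map (Int.castRingHom ℂ)) (B.map (Int.castRingHom ℂ)) (one_le_mahlerMeasure_of_ne_zero hB)
  rw [← Polynomial.map_mul] at h2
  have h3 : ((A * B).map (Int.castRingHom ℂ)).mahlerMeasure ≤ (D + 1) * H := by
    refine (mahlerMeasure_le_sum_norm_coeff _).trans ?_
    rw [sum_def]
    have h4 : ((A * B).map (Int.castRingHom ℂ)).support ⊆ range (D + 1) := by
      intro i hi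
      rw [Finset.mem_range]
      have h5 := le_natDegree_of_mem_supp i hi
      have h6 : ((A * B).map (Int.castRingHom ℂ)).natDegree ≤ (A * B).natDegree := natDegree_map_le
      omega
    calc ∑ n ∈ ((A * B).map (Int.castRingHom ℂ)).support, ‖((A * B).map (Int.castRingHom ℂ)).coeff n‖
        ≤ ∑ n ∈ range (D + 1), ‖((A * B).map (Int.castRingHom ℂ)).coeff n‖ :=
          Finset.sum_le_sum_of_subset_of_nonneg h4 fun _ _ _ => norm_nonneg _
      _ ≤ ∑ _n ∈ range (D + 1), H := Finset.sum_le_sum fun i _ => by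
          rw [coeff_map, eq_intCast, Complex.norm_intCast]
          exact hH i
      _ = _ := by
          rw [Finset.sum_const, Finset.card_range, nsmul_eq_mul]
          push_cast
          ring
  have h4 : (((A.map (Int.castRingHom ℂ)).natDegree.choose k : ℕ) : ℝ) ≤ 2 ^ D := by
    have h5 : (A.map (Int.castRingHom ℂ)).natDegree ≤ D := natDegree_map_le.trans (by omega)
    have h6 : (A.map (Int.castRingHom ℂ)).natDegree.choose k ≤ 2 ^ D :=
      (Nat.choose_le_two_pow _ _).trans (Nat.pow_le_pow_right (by norm_num) h5)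
    exact_mod_cast h6
  rw [h1]
  refine h2.trans ?_
  calc _ ≤ (2 : ℝ) ^ D * ((D + 1) * H) := mul_le_mul h4 h3 (mahlerMeasure_nonneg _) (by positivity)
    _ = _ := by ring

lemma fin_divisors (B : ℤ[X]) (hB : B ≠ 0) : {P : ℤ[X] | P ∣ B}.Finite := by
  refine (fin_set1 B.natDegree (2 ^ B.natDegree * (B.natDegree + 1) * ht B)).subset ?_
  rintro P ⟨Q, hPQ⟩
  have hP : P ≠ 0 := by
    rintro rfl
    rw [zero_mul] at hPQ
    exact hB hPQ
  have hQ : Q ≠ 0 := by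
    rintro rfl
    rw [mul_zero] at hPQ
    exact hB hPQ
  have h1 := natDegree_mul hP hQ
  refine ⟨by rw [hPQ, h1]; omega, ?_⟩
  have h2 := height_factor B.natDegree P Q hP hQ (by rw [← hPQ]) (ht B)
    (fun k => by rw [← hPQ]; exact le_ht B k)
  -- the height is attained
  obtain ⟨i, hi⟩ : ∃ i, (ht P : ℝ) = |((P.coeff i : ℤ) : ℝ)| := by
    have hne : P.support.Nonempty := nonempty_support_iff.2 hP
    obtain ⟨i, _, hi⟩ := Finset.exists_mem_eq_sup P.support hne (fun i => (P.coeff i).natAbs)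
    refine ⟨i, ?_⟩
    unfold ht
    rw [hi, ← Int.cast_abs, Int.abs_eq_natAbs, Int.cast_natCast]
  rw [hi]
  exact h2 i

/-- roots of polynomials with algebraic coefficients -/
lemma isAlgebraic_of_root (u v x : ℂ) (hu : IsAlgebraic ℤ u) (hv : IsAlgebraic ℤ v)
    (F : ℤ[X][X][X]) (hF : ev3 u v x F = 0) (hne : ∃ x₀, ev3 u v x₀ F ≠ 0) : IsAlgebraic ℤ x := by
  have hu' : u ∈ algebraicClosure ℚ ℂ :=
    (mem_algebraicClosure_iff).2 ((IsFractionRing.isAlgebraic_iff ℤ ℚ ℂ).1 hu)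
  have hv' : v ∈ algebraicClosure ℚ ℂ :=
    (mem_algebraicClosure_iff).2 ((IsFractionRing.isAlgebraic_iff ℤ ℚ ℂ).1 hv)
  obtain ⟨φ, hφ⟩ : ∃ φ : ℤ[X][X] →+* algebraicClosure ℚ ℂ,
      (algebraMap (algebraicClosure ℚ ℂ) ℂ).comp φ = evR u v := by
    refine ⟨eval₂RingHom (eval₂RingHom (Int.castRingHom _) ⟨u, hu'⟩) ⟨v, hv'⟩, ?_⟩
    unfold evR
    ext z
    · simp [σx]
    · simp [σx]
    · simp
  have h1 : IsAlgebraic (algebraicClosure ℚ ℂ) x := by
    refine ⟨F.map φ, ?_, ?_⟩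
    · intro h0
      obtain ⟨x₀, hx₀⟩ := hne
      apply hx₀
      rw [ev3_eq, ← hφ, ← Polynomial.map_map, h0, Polynomial.map_zero, eval_zero]
    · rw [aeval_def, ← eval_map, Polynomial.map_map, hφ, ← ev3_eq]
      exact hF
  have hinst : Algebra.IsAlgebraic ℚ (algebraicClosure ℚ ℂ) := algebraicClosure.isAlgebraic ℚ ℂ
  have h2 : IsAlgebraic ℚ x := h1.restrictScalars ℚ
  exact (IsFractionRing.isAlgebraic_iff ℤ ℚ ℂ).2 h2

/-- change of the order of the variables -/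
noncomputable def tau : ℤ[X][X][X] →+* ℤ[X][X][X] :=
  eval₂RingHom (eval₂RingHom (eval₂RingHom (Int.castRingHom ℤ[X][X][X]) (C X : ℤ[X][X][X]))
    (X : ℤ[X][X][X])) (C (C X) : ℤ[X][X][X])

lemma ev3_tau (u v x : ℂ) (F : ℤ[X][X][X]) : ev3 x u v (tau F) = ev3 u v x F := by
  have h : (ev3 x u v).comp tau = ev3 u v x := by
    unfold ev3 evR tau
    ext z
    · simp [σx]
    · simp [σx]
    · simp [σx]
    · simp [σx]
  rw [← h]
  rfl

/-- the joint measure for irreducible polynomials -/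
theorem joint_irr (x : ℂ) (hx : MeasT x) (u v : ℂ) (F : ℤ[X][X][X]) (hF : Irreducible F)
    (hFx : ev3 u v x F = 0) (hFne : ∃ x₀, ev3 u v x₀ F ≠ 0) (D : ℕ) :
    ∃ κ C : ℝ, 0 < κ ∧ 0 < C ∧ ∀ P Q : ℤ[X], Irreducible P → Irreducible Q → P.natDegree ≤ D →
      Q.natDegree ≤ D → ∀ H : ℝ, 1 ≤ H → (∀ k, |((P.coeff k : ℤ) : ℝ)| ≤ H) →
      (∀ k, |((Q.coeff k : ℤ) : ℝ)| ≤ H) → C * H ^ (-κ) ≤ max ‖aeval u P‖ ‖aeval v Q‖ := by
  classical
  have hd : F.natDegree ≠ 0 := by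
    intro h0
    obtain ⟨x₀, hx₀⟩ := hFne
    apply hx₀
    rw [eq_C_of_natDegree_eq_zero h0] at hFx ⊢
    rw [ev3_eq, Polynomial.map_C, eval_C] at hFx ⊢
    exact hFx
  obtain ⟨B₁, B₂, hB₁, hB₂, hB⟩ := bad_points F hF hd
  obtain ⟨κ, C₁, hκ, hC₁, hel⟩ := elim x hx u v (tau F) (by rw [ev3_tau]; exact hFx) D
  have hS := (fin_divisors B₁ hB₁).prod (fin_divisors B₂ hB₂)
  obtain ⟨C₂, hC₂, hmin⟩ := exists_pos_le
    (hS.toFinset.filter fun p => 0 < max ‖aeval u p.1‖ ‖aeval v p.2‖)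
    (fun p : ℤ[X] × ℤ[X] => max ‖aeval u p.1‖ ‖aeval v p.2‖)
    (fun p hp => (Finset.mem_filter.1 hp).2)
  refine ⟨κ, min C₁ C₂, hκ, lt_min hC₁ hC₂, ?_⟩
  intro P Q hP hQ hPD hQD H hH hPH hQH
  have hH0 : 0 < H := by linarith
  have hpos : 0 ≤ H ^ (-κ) := by positivity
  by_cases hbad : P ∣ B₁ ∧ Q ∣ B₂
  · have h1 : 0 < max ‖aeval u P‖ ‖aeval v Q‖ := by
      rw [lt_max_iff, norm_pos_iff, norm_pos_iff]
      by_contra hcon
      push Not at hcon
      exact transcendental_of_measT hx (isAlgebraic_of_root u v x ⟨P, hP.ne_zero, hcon.1⟩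
        ⟨Q, hQ.ne_zero, hcon.2⟩ F hFx hFne)
    have h2 := hmin (P, Q) (Finset.mem_filter.2 ⟨(Set.Finite.mem_toFinset _).2 ⟨hbad.1, hbad.2⟩, h1⟩)
    have h3 : H ^ (-κ) ≤ 1 := Real.rpow_le_one_of_one_le_of_nonpos hH (by linarith)
    calc min C₁ C₂ * H ^ (-κ) ≤ C₂ * 1 := by
          gcongr
          exact min_le_right _ _
      _ ≤ _ := by rw [mul_one]; exact h2
  · have h1 := hel P Q hP.ne_zero hQ.ne_zero hPD hQD (by
      intro α β hα hβ
      by_contra hcon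
      push Not at hcon
      obtain ⟨h2, h3⟩ := hB α β fun x₀ => by
        have := hcon x₀
        rwa [ev3_tau] at this
      exact hbad ⟨dvd_of_root P B₁ hP α hα h2, dvd_of_root Q B₂ hQ β hβ h3⟩) H hH hPH hQH
    refine le_trans ?_ h1
    gcongr
    exact min_le_left _ _

/-- values of a polynomial whose irreducible factors have large values -/
lemma value_of_factors (t : ℂ) (δ : ℝ) (hδ : 0 < δ) (hδ1 : δ ≤ 1) (P : ℤ[X]) (hP : P ≠ 0)
    (h : ∀ q : ℤ[X], Irreducible q → q ∣ P → δ ≤ ‖aeval t q‖) :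
    δ ^ P.natDegree ≤ ‖aeval t P‖ := by
  induction P using UniqueFactorizationMonoid.induction_on_prime with
  | h₁ => exact absurd rfl hP
  | h₂ a ha =>
    obtain ⟨r, hr, rfl⟩ := Polynomial.isUnit_iff.1 ha
    rw [natDegree_C, pow_zero, aeval_C, eq_intCast, Complex.norm_intCast]
    rcases Int.isUnit_iff.1 hr with h | h <;> rw [h] <;> simp
  | h₃ a p ha hp ih =>
    have h1 := ih ha fun q hq hqa => h q hq (hqa.mul_left p)
    rw [natDegree_mul hp.ne_zero ha, map_mul, norm_mul, pow_add]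
    refine mul_le_mul ?_ h1 (by positivity) (norm_nonneg _)
    by_cases hd : p.natDegree = 0
    · rw [hd, pow_zero]
      have h2 : p = C (p.coeff 0) := eq_C_of_natDegree_eq_zero hd
      have h3 : p.coeff 0 ≠ 0 := fun h => hp.ne_zero (by rw [h2, h, C_0])
      rw [h2, aeval_C, eq_intCast, Complex.norm_intCast, ← Int.cast_abs]
      exact_mod_cast Int.one_le_abs h3
    · refine le_trans ?_ (h p hp.irreducible (dvd_mul_right p a))
      exact pow_le_of_le_one hδ.le hδ1 hd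

/-- **Joint transcendence measure**, for a relation given by an irreducible polynomial. -/
theorem joint_of_irr (x : ℂ) (hx : MeasT x) (u v : ℂ) (F : ℤ[X][X][X]) (hF : Irreducible F)
    (hFx : ev3 u v x F = 0) (hFne : ∃ x₀, ev3 u v x₀ F ≠ 0) (D : ℕ) :
    ∃ κ C : ℝ, 0 < κ ∧ 0 < C ∧ ∀ P Q : ℤ[X], P ≠ 0 → Q ≠ 0 → P.natDegree ≤ D →
      Q.natDegree ≤ D → ∀ H : ℝ, 1 ≤ H → (∀ k, |((P.coeff k : ℤ) : ℝ)| ≤ H) →
      (∀ k, |((Q.coeff k : ℤ) : ℝ)| ≤ H) → C * H ^ (-κ) ≤ max ‖aeval u P‖ ‖aeval v Q‖ := by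
  obtain ⟨κ, C₁, hκ, hC₁, hj⟩ := joint_irr x hx u v F hF hFx hFne D
  obtain ⟨K, hK⟩ : ∃ K : ℝ, K = 2 ^ D * (D + 1) := ⟨_, rfl⟩
  have hK1 : 1 ≤ K := by
    rw [hK]
    have h1 : (1 : ℝ) ≤ 2 ^ D := one_le_pow₀ (by norm_num)
    have h2 : (0 : ℝ) ≤ D := by positivity
    nlinarith
  obtain ⟨c, hc⟩ : ∃ c : ℝ, c = min 1 C₁ * K ^ (-κ) := ⟨_, rfl⟩
  have hc0 : 0 < c := by rw [hc]; positivity
  refine ⟨κ * (D + 1), c ^ D, by positivity, by positivity, ?_⟩
  intro P Q hP hQ hPD hQD H hH hPH hQH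
  have hH0 : 0 < H := by linarith
  obtain ⟨δ, hδ⟩ : ∃ δ : ℝ, δ = c * H ^ (-κ) := ⟨_, rfl⟩
  have hδ0 : 0 < δ := by rw [hδ]; positivity
  have hHκ : H ^ (-κ) ≤ 1 := Real.rpow_le_one_of_one_le_of_nonpos hH (by linarith)
  have hKκ : K ^ (-κ) ≤ 1 := Real.rpow_le_one_of_one_le_of_nonpos hK1 (by linarith)
  have hc1 : c ≤ 1 := by
    rw [hc]
    calc min 1 C₁ * K ^ (-κ) ≤ 1 * 1 := by
          gcongr
          exact min_le_left _ _
      _ = 1 := by ring
  have hδ1 : δ ≤ 1 := by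
    rw [hδ]
    calc c * H ^ (-κ) ≤ 1 * 1 := by gcongr
      _ = 1 := by ring
  -- heights of factors
  have hfac : ∀ R : ℤ[X], R ≠ 0 → R.natDegree ≤ D → (∀ k, |((R.coeff k : ℤ) : ℝ)| ≤ H) →
      ∀ q : ℤ[X], q ∣ R → q.natDegree ≤ D ∧ ∀ k, |((q.coeff k : ℤ) : ℝ)| ≤ K * H := by
    rintro R hR hRD hRH q ⟨r, hr⟩
    have hq0 : q ≠ 0 := by
      rintro rfl
      rw [zero_mul] at hr
      exact hR hr
    have hr0 : r ≠ 0 := by
      rintro rfl
      rw [mul_zero] at hr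
      exact hR hr
    have h1 := natDegree_mul hq0 hr0
    rw [← hr] at h1
    refine ⟨by omega, fun k => ?_⟩
    rw [hK]
    exact height_factor D q r hq0 hr0 (by rw [← hr]; exact hRD) H
      (fun k => by rw [← hr]; exact hRH k) k
  have hKH : 1 ≤ K * H := by nlinarith
  have hδle : δ ≤ C₁ * (K * H) ^ (-κ) := by
    rw [hδ, hc, Real.mul_rpow (by linarith) hH0.le, mul_assoc]
    gcongr
    exact min_le_right _ _
  have hfinal : c ^ D * H ^ (-(κ * (D + 1))) ≤ δ ^ D := by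
    rw [hδ, mul_pow]
    have h1 : H ^ (-(κ * (D + 1))) ≤ (H ^ (-κ)) ^ D := by
      rw [← Real.rpow_natCast, ← Real.rpow_mul hH0.le]
      refine Real.rpow_le_rpow_of_exponent_le hH ?_
      nlinarith
    gcongr
  by_cases hcase : ∀ q : ℤ[X], Irreducible q → q ∣ P → δ ≤ ‖aeval u q‖
  · have h1 := value_of_factors u δ hδ0 hδ1 P hP hcase
    calc _ ≤ δ ^ D := hfinal
      _ ≤ δ ^ P.natDegree := pow_le_pow_of_le_one hδ0.le hδ1 hPD
      _ ≤ ‖aeval u P‖ := h1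
      _ ≤ _ := le_max_left _ _
  · push Not at hcase
    obtain ⟨p, hp, hpP, hpδ⟩ := hcase
    obtain ⟨hpD, hpH⟩ := hfac P hP hPD hPH p hpP
    have h1 := value_of_factors v δ hδ0 hδ1 Q hQ fun q hq hqQ => by
      obtain ⟨hqD, hqH⟩ := hfac Q hQ hQD hQH q hqQ
      have h2 := hj p q hp hq hpD hqD (K * H) hKH hpH hqH
      rcases le_max_iff.1 (hδle.trans h2) with h3 | h3
      · exact absurd hpδ (not_lt.2 h3)
      · exact h3
    calc _ ≤ δ ^ D := hfinal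
      _ ≤ δ ^ Q.natDegree := pow_le_pow_of_le_one hδ0.le hδ1 hQD
      _ ≤ ‖aeval v Q‖ := h1
      _ ≤ _ := le_max_right _ _

/-- an irreducible factor of a relation -/
lemma exists_irr_factor3 (u v x : ℂ) (R : ℤ[X][X][X]) (hR : ev3 u v x R = 0)
    (hne : ∃ x₀, ev3 u v x₀ R ≠ 0) :
    ∃ F : ℤ[X][X][X], Irreducible F ∧ ev3 u v x F = 0 ∧ ∃ x₀, ev3 u v x₀ F ≠ 0 := by
  have hR0 : R ≠ 0 := by
    rintro rfl
    obtain ⟨x₀, hx₀⟩ := hne
    exact hx₀ (map_zero _)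
  obtain ⟨f, hf, w, hw⟩ := UniqueFactorizationMonoid.exists_prime_factors R hR0
  have h1 : ev3 u v x f.prod = 0 := by
    rw [← hw, map_mul] at hR
    refine (mul_eq_zero.1 hR).resolve_right fun h => ?_
    have h2 : IsUnit (ev3 u v x (w : ℤ[X][X][X])) := w.isUnit.map (ev3 u v x)
    exact h2.ne_zero h
  rw [map_multiset_prod, Multiset.prod_eq_zero_iff, Multiset.mem_map] at h1
  obtain ⟨F, hFf, hF0⟩ := h1
  refine ⟨F, (hf F hFf).irreducible, hF0, ?_⟩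
  obtain ⟨x₀, hx₀⟩ := hne
  refine ⟨x₀, fun h0 => hx₀ ?_⟩
  have hdvd : F ∣ R := by
    rw [← hw]
    exact (Multiset.dvd_prod hFf).mul_right _
  obtain ⟨G, hG⟩ := hdvd
  rw [hG, map_mul, h0, zero_mul]

/-- the relation of an algebraic number -/
lemma exists_rel3 (u v x : ℂ) (h : IsAlgebraic (Algebra.adjoin ℤ ({u, v} : Set ℂ)) x) :
    ∃ R : ℤ[X][X][X], ev3 u v x R = 0 ∧ ∃ x₀, ev3 u v x₀ R ≠ 0 := by
  have hu : u ∈ Algebra.adjoin ℤ ({u, v} : Set ℂ) := Algebra.subset_adjoin (by simp)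
  have hv : v ∈ Algebra.adjoin ℤ ({u, v} : Set ℂ) := Algebra.subset_adjoin (by simp)
  obtain ⟨φ, hφ⟩ : ∃ φ : ℤ[X][X] →+* Algebra.adjoin ℤ ({u, v} : Set ℂ),
      (algebraMap (Algebra.adjoin ℤ ({u, v} : Set ℂ)) ℂ).comp φ = evR u v := by
    refine ⟨eval₂RingHom (eval₂RingHom (Int.castRingHom _) ⟨u, hu⟩) ⟨v, hv⟩, ?_⟩
    unfold evR
    ext z
    · simp [σx]
    · simp [σx]
    · simp
  have hinjA : Function.Injective (algebraMap (Algebra.adjoin ℤ ({u, v} : Set ℂ)) ℂ) :=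
    Subtype.val_injective
  have hex : ∀ z ∈ Algebra.adjoin ℤ ({u, v} : Set ℂ), ∃ r : ℤ[X][X], evR u v r = z := by
    intro z hz
    induction hz using Algebra.adjoin_induction with
    | mem z hz =>
      rcases hz with rfl | hz
      · exact ⟨C X, by simp [evR, σx]⟩
      · rw [Set.mem_singleton_iff] at hz
        subst hz
        exact ⟨X, by simp [evR]⟩
    | algebraMap r => exact ⟨C (C r), by simp [evR, σx]⟩
    | add a b _ _ ha hb =>
      obtain ⟨r, rfl⟩ := ha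
      obtain ⟨s, rfl⟩ := hb
      exact ⟨r + s, map_add _ _ _⟩
    | mul a b _ _ ha hb =>
      obtain ⟨r, rfl⟩ := ha
      obtain ⟨s, rfl⟩ := hb
      exact ⟨r * s, map_mul _ _ _⟩
  have hsurj : Function.Surjective φ := by
    rintro ⟨z, hz⟩
    obtain ⟨r, hr⟩ := hex z hz
    refine ⟨r, hinjA ?_⟩
    rw [← hφ] at hr
    exact hr
  obtain ⟨p, hp, hpx⟩ := h
  obtain ⟨R, hR⟩ := Polynomial.map_surjective φ hsurj p
  have hev : ∀ x₀, ev3 u v x₀ R = aeval x₀ p := by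
    intro x₀
    rw [ev3_eq, ← hφ, ← Polynomial.map_map, hR, aeval_def, ← eval_map]
  refine ⟨R, by rw [hev]; exact hpx, ?_⟩
  by_contra hcon
  push Not at hcon
  apply hp
  have h1 : p.map (algebraMap (Algebra.adjoin ℤ ({u, v} : Set ℂ)) ℂ) = 0 := by
    refine Polynomial.funext fun x₀ => ?_
    rw [eval_zero, eval_map, ← aeval_def, ← hev]
    exact hcon x₀
  exact (Polynomial.map_eq_zero_iff hinjA).1 h1

/-- **Joint transcendence measure.** -/
theorem joint (x : ℂ) (hx : MeasT x) (u v : ℂ)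
    (h : IsAlgebraic (Algebra.adjoin ℤ ({u, v} : Set ℂ)) x) (D : ℕ) :
    ∃ κ C : ℝ, 0 < κ ∧ 0 < C ∧ ∀ P Q : ℤ[X], P ≠ 0 → Q ≠ 0 → P.natDegree ≤ D →
      Q.natDegree ≤ D → ∀ H : ℝ, 1 ≤ H → (∀ k, |((P.coeff k : ℤ) : ℝ)| ≤ H) →
      (∀ k, |((Q.coeff k : ℤ) : ℝ)| ≤ H) → C * H ^ (-κ) ≤ max ‖aeval u P‖ ‖aeval v Q‖ := by
  obtain ⟨R, hR, hne⟩ := exists_rel3 u v x h
  obtain ⟨F, hF, hF0, hFne⟩ := exists_irr_factor3 u v x R hR hne
  exact joint_of_irr x hx u v F hF hF0 hFne D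

end Pool.Agent.R356
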