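import Mathlib

/-!
# Lengths of polynomials and of determinants
-/

set_option autoImplicit false

namespace Pool.Agent.R356

open Polynomial Finset

/-- a submultiplicative and subadditive size -/
structure IsLen {R : Type*} [CommRing R] (f : R → ℝ) : Prop where
  nonneg : ∀ a, 0 ≤ f a
  zero : f 0 = 0
  one : f 1 ≤ 1
  neg : ∀ a, f (-a) = f a
  add : ∀ a b, f (a + b) ≤ f a + f b
  mul : ∀ a b, f (a * b) ≤ f a * f b

/-- the length of a polynomial -/
noncomputable def len {R : Type*} [CommRing R] (f : R → ℝ) (P : R[X]) : ℝ :=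
  ∑ i ∈ P.support, f (P.coeff i)

variable {R : Type*} [CommRing R] {f : R → ℝ}

lemma IsLen.sum (h : IsLen f) {ι : Type*} (s : Finset ι) (a : ι → R) :
    f (∑ i ∈ s, a i) ≤ ∑ i ∈ s, f (a i) := by
  classical
  induction s using Finset.induction_on with
  | empty => simp [h.zero]
  | insert i s hi ih =>
    rw [Finset.sum_insert hi, Finset.sum_insert hi]
    exact (h.add _ _).trans (by linarith)

lemma IsLen.prod (h : IsLen f) {ι : Type*} (s : Finset ι) (a : ι → R) :
    f (∏ i ∈ s, a i) ≤ ∏ i ∈ s, f (a i) := by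
  classical
  induction s using Finset.induction_on with
  | empty => simpa using h.one
  | insert i s hi ih =>
    rw [Finset.prod_insert hi, Finset.prod_insert hi]
    exact (h.mul _ _).trans (mul_le_mul_of_nonneg_left ih (h.nonneg _))

lemma IsLen.det (h : IsLen f) (N : ℕ) (M : Matrix (Fin N) (Fin N) R) (B : ℝ)
    (hM : ∀ i j, f (M i j) ≤ B) : f M.det ≤ N.factorial * B ^ N := by
  classical
  rw [Matrix.det_apply]
  refine (h.sum _ _).trans ?_
  have h1 : ∀ σ ∈ (univ : Finset (Equiv.Perm (Fin N))),
      f (Equiv.Perm.sign σ • ∏ i, M (σ i) i) ≤ B ^ N := by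
    intro σ _
    have h2 : f (∏ i, M (σ i) i) ≤ B ^ N := by
      refine (h.prod _ _).trans ?_
      calc ∏ i, f (M (σ i) i) ≤ ∏ _i : Fin N, B :=
            Finset.prod_le_prod (fun i _ => h.nonneg _) fun i _ => hM _ _
        _ = B ^ N := by simp
    rcases Int.units_eq_one_or (Equiv.Perm.sign σ) with h3 | h3
    · rw [h3, one_smul]; exact h2
    · rw [h3, Units.neg_smul, one_smul, h.neg]; exact h2
  refine (Finset.sum_le_sum h1).trans ?_
  rw [Finset.sum_const, Finset.card_univ, Fintype.card_perm, Fintype.card_fin, nsmul_eq_mul]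

lemma len_eq (h : IsLen f) (P : R[X]) (n : ℕ) (hn : P.natDegree < n) :
    len f P = ∑ i ∈ range n, f (P.coeff i) := by
  unfold len
  refine Finset.sum_subset (fun i hi => ?_) fun i _ hi => ?_
  · rw [Finset.mem_range]
    exact lt_of_le_of_lt (le_natDegree_of_mem_supp i hi) hn
  · rw [notMem_support_iff.1 hi, h.zero]

lemma le_len (h : IsLen f) (P : R[X]) (i : ℕ) : f (P.coeff i) ≤ len f P := by
  by_cases hi : i ∈ P.support
  · exact Finset.single_le_sum (f := fun i => f (P.coeff i)) (fun j _ => h.nonneg _) hi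
  · rw [notMem_support_iff.1 hi, h.zero]
    exact Finset.sum_nonneg fun j _ => h.nonneg _

lemma len_C (h : IsLen f) (a : R) : len f (C a) = f a := by
  rw [len_eq h (C a) 1 (by simp)]
  simp

lemma IsLen.poly (h : IsLen f) : IsLen (len f) where
  nonneg P := Finset.sum_nonneg fun j _ => h.nonneg _
  zero := by simp [len]
  one := by
    rw [← C_1, len_C h]
    exact h.one
  neg P := by
    unfold len
    rw [support_neg]
    exact Finset.sum_congr rfl fun i _ => by rw [coeff_neg, h.neg]
  add P Q := by
    obtain ⟨n, hn⟩ : ∃ n, n = P.natDegree + Q.natDegree + (P + Q).natDegree + 1 := ⟨_, rfl⟩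
    rw [len_eq h P n (by omega), len_eq h Q n (by omega), len_eq h (P + Q) n (by omega),
      ← Finset.sum_add_distrib]
    exact Finset.sum_le_sum fun i _ => by rw [coeff_add]; exact h.add _ _
  mul P Q := by
    -- auxiliary real polynomials
    have aux : ∀ P : R[X], ∃ S : ℝ[X], (∀ i, S.coeff i = f (P.coeff i)) ∧ S.eval 1 = len f P ∧
        S.natDegree ≤ P.natDegree := by
      intro P
      refine ⟨∑ i ∈ P.support, monomial i (f (P.coeff i)), ?_, ?_, ?_⟩
      · intro i
        rw [finsetSum_coeff]
        simp only [coeff_monomial]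
        rw [Finset.sum_ite_eq' P.support i]
        split_ifs with hi
        · rfl
        · rw [notMem_support_iff.1 hi, h.zero]
      · rw [eval_finsetSum]
        simp only [eval_monomial, one_pow, mul_one]
        rfl
      · refine natDegree_sum_le_of_forall_le _ _ fun i hi => ?_
        exact (natDegree_monomial_le _).trans (le_natDegree_of_mem_supp i hi)
    obtain ⟨S, hS1, hS2, hS3⟩ := aux P
    obtain ⟨T, hT1, hT2, hT3⟩ := aux Q
    rw [← hS2, ← hT2, ← eval_mul]
    obtain ⟨n, hn⟩ : ∃ n, n = (S * T).natDegree + (P * Q).natDegree + 1 := ⟨_, rfl⟩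
    rw [len_eq h (P * Q) n (by omega), eval_eq_sum_range' (show (S * T).natDegree < n by omega)]
    refine Finset.sum_le_sum fun i _ => ?_
    rw [coeff_mul, coeff_mul, one_pow, mul_one]
    refine (h.sum _ _).trans (Finset.sum_le_sum fun p _ => ?_)
    rw [hS1, hT1]
    exact h.mul _ _

lemma isLen_int : IsLen (fun z : ℤ => |(z : ℝ)|) where
  nonneg _ := abs_nonneg _
  zero := by simp
  one := by simp
  neg a := by simp
  add a b := by push_cast; exact abs_add_le _ _
  mul a b := by push_cast; rw [abs_mul]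

/-- the length of an integer polynomial in two variables -/
noncomputable abbrev len2 (P : ℤ[X][X]) : ℝ := len (len fun z : ℤ => |(z : ℝ)|) P

lemma isLen2 : IsLen len2 := isLen_int.poly.poly

lemma le_len2 (P : ℤ[X][X]) (j k : ℕ) : |(((P.coeff j).coeff k : ℤ) : ℝ)| ≤ len2 P :=
  (le_len isLen_int (P.coeff j) k).trans (le_len isLen_int.poly P j)

/-- filtrations and determinants -/
lemma det_filt {R : Type*} [CommRing R] (A : ℕ → AddSubgroup R) (h1 : (1 : R) ∈ A 0)
    (hm : ∀ m n a b, a ∈ A m → b ∈ A n → a * b ∈ A (m + n)) (N D : ℕ)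
    (M : Matrix (Fin N) (Fin N) R) (h : ∀ i j, M i j ∈ A D) : M.det ∈ A (N * D) := by
  classical
  rw [Matrix.det_apply]
  refine sum_mem fun σ _ => ?_
  have key : ∀ s : Finset (Fin N), ∏ i ∈ s, M (σ i) i ∈ A (s.card * D) := by
    intro s
    induction s using Finset.induction_on with
    | empty => simpa using h1
    | insert i s hi ih =>
      rw [Finset.prod_insert hi, Finset.card_insert_of_notMem hi, add_mul, one_mul, add_comm]
      exact hm _ _ _ _ (h _ _) ih
  have h2 := key univ
  rw [Finset.card_univ, Fintype.card_fin] at h2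
  rcases Int.units_eq_one_or (Equiv.Perm.sign σ) with h3 | h3
  · rw [h3, one_smul]; exact h2
  · rw [h3, Units.neg_smul, one_smul]; exact neg_mem h2

/-- polynomials of bounded degree -/
def degF (R : Type*) [CommRing R] (n : ℕ) : AddSubgroup R[X] where
  carrier := {P | P.natDegree ≤ n}
  add_mem' {a b} ha hb := (natDegree_add_le _ _).trans (max_le ha hb)
  zero_mem' := by simp
  neg_mem' {a} ha := by
    show (-a).natDegree ≤ n
    rw [natDegree_neg]; exact ha

/-- polynomials whose coefficients have bounded degree -/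
def degI (n : ℕ) : AddSubgroup ℤ[X][X] where
  carrier := {P | ∀ j, (P.coeff j).natDegree ≤ n}
  add_mem' {a b} ha hb := fun j => by
    rw [coeff_add]
    exact (natDegree_add_le _ _).trans (max_le (ha j) (hb j))
  zero_mem' := by intro j; simp
  neg_mem' {a} ha := fun j => by
    rw [coeff_neg, natDegree_neg]; exact ha j

lemma natDegree_det_le (N D : ℕ) (M : Matrix (Fin N) (Fin N) ℤ[X][X])
    (h : ∀ i j, (M i j).natDegree ≤ D) : M.det.natDegree ≤ N * D :=
  det_filt (degF ℤ[X]) (by show (1 : ℤ[X][X]).natDegree ≤ 0; simp)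
    (fun m n a b ha hb => natDegree_mul_le.trans (Nat.add_le_add ha hb)) N D M h

lemma natDegree_coeff_det_le (N D : ℕ) (M : Matrix (Fin N) (Fin N) ℤ[X][X])
    (h : ∀ i j k, ((M i j).coeff k).natDegree ≤ D) (k : ℕ) : (M.det.coeff k).natDegree ≤ N * D :=
  det_filt degI (by
      intro j
      rw [coeff_one]
      split_ifs <;> simp)
    (fun m n a b ha hb => fun j => by
      rw [coeff_mul]
      refine natDegree_sum_le_of_forall_le _ _ fun p _ => ?_
      exact natDegree_mul_le.trans (Nat.add_le_add (ha _) (hb _))) N D M h k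

end Pool.Agent.R356
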