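import Pool.Agent.R356.Val

/-!
# Exponentials of `y t ^ n`
-/

set_option autoImplicit false

namespace Pool.Agent.R356

open Module Finset Polynomial
open Pool.Agent.H301R2.SSE (QB mem_QB Lt Lt_log Lt_alg)
open Pool.Agent.W254.HP (aeval_ne_zero pow_indep PolyV mem_PolyV finrank_PolyV_le product_le)

/-- the dimension of a product -/
theorem finrank_mul_le' (Y P : Submodule QB ℂ) [FiniteDimensional QB Y] [FiniteDimensional QB P] :
    finrank QB (Y * P : Submodule QB ℂ) ≤ finrank QB Y * finrank QB P := by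
  rw [← Submodule.mulMap_range, ← Module.finrank_tensorProduct]
  exact LinearMap.finrank_range_le _

/-- the rank estimate -/
theorem rank_le {t : ℂ} (ht : Transcendental ℚ t) (Y : Submodule QB ℂ) [FiniteDimensional QB Y]
    (N : ℕ) (s : Finset ℕ) (hsN : ∀ n ∈ s, n < N) (y : ℕ → ℂ) (hy : ∀ n ∈ s, y n ∈ Y)
    (hL : ∀ n ∈ s, y n * t ^ n ∈ Lt) (h : ℕ) (hh : 0 < h) :
    h * finrank QB (Submodule.span QB ((fun n => y n * t ^ n) '' (s : Set ℕ))) ≤
      finrank QB Y * (N + h - 1) + h * (h - 1) := by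
  classical
  set W : Submodule QB ℂ := Submodule.span QB ((fun n => y n * t ^ n) '' (s : Set ℕ)) with hW
  have hWfin : FiniteDimensional QB W :=
    FiniteDimensional.span_of_finite QB ((Finset.finite_toSet s).image _)
  let X₀ : Submodule QB ℂ := Submodule.span QB (Set.range (fun i : Fin h => t ^ (i : ℕ)))
  have hXfin : FiniteDimensional QB X₀ := FiniteDimensional.span_of_finite QB (Set.finite_range _)
  have hX : finrank QB X₀ = h := by
    have := finrank_span_eq_card (pow_indep ht h)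
    rwa [Fintype.card_fin] at this
  have hWL : W ≤ Lt := by
    rw [hW, Submodule.span_le]
    rintro _ ⟨n, hn, rfl⟩
    exact hL n hn
  set Z : Submodule QB ℂ := Y * PolyV t (N + h - 1) with hZ
  have hZfin : FiniteDimensional QB Z := by
    rw [hZ]
    exact Module.Finite.iff_fg.2 ((Module.Finite.iff_fg.1 (inferInstance :
      Module.Finite QB Y)).mul (Module.Finite.iff_fg.1 (inferInstance :
      Module.Finite QB (PolyV t (N + h - 1)))))
  have hZle : finrank QB Z ≤ finrank QB Y * (N + h - 1) := by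
    rw [hZ]
    refine (finrank_mul_le' _ _).trans ?_
    exact Nat.mul_le_mul_left _ (finrank_PolyV_le _ _)
  have hXW : ∀ x ∈ X₀, ∀ w ∈ W, x * w ∈ Z := by
    intro x hx w hw
    have h1 : x * w ∈ X₀ * W := Submodule.mul_mem_mul hx hw
    have h2 : X₀ * W ≤ Z := by
      rw [hW]
      show Submodule.span QB _ * Submodule.span QB _ ≤ Z
      rw [Submodule.span_mul_span, Submodule.span_le]
      rintro _ ⟨_, ⟨i, rfl⟩, _, ⟨n, hn, rfl⟩, rfl⟩
      have h3 : t ^ (i : ℕ) * (y n * t ^ n) = y n * aeval t (Polynomial.X ^ (n + (i : ℕ)) : QB[X]) := by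
        rw [map_pow, aeval_X, pow_add]
        ring
      show t ^ (i : ℕ) * (y n * t ^ n) ∈ Z
      rw [h3, hZ]
      refine Submodule.mul_mem_mul (hy n hn) (mem_PolyV ?_)
      rw [degree_X_pow]
      have h4 := hsN n hn
      have h5 := i.2
      exact_mod_cast (by omega : n + (i : ℕ) < N + h - 1)
    exact h2 h1
  have key := product_le X₀ W Z hWL hXW
  rw [hX] at key
  exact key.trans (by omega)

/-- **Powers of a transcendental number.** -/
theorem card_exp {t : ℂ} (ht : Transcendental ℚ t) (Y : Submodule QB ℂ) [FiniteDimensional QB Y]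
    (N : ℕ) (s : Finset ℕ) (hsN : ∀ n ∈ s, n < N)
    (hs : ∀ n ∈ s, ∃ y ∈ Y, y ≠ 0 ∧ y * t ^ n ∈ Lt) :
    (s.card : ℝ) ≤ 2 * finrank QB Y * Real.sqrt (finrank QB Y * N) + (finrank QB Y : ℝ) ^ 2 := by
  classical
  obtain ⟨m, hm⟩ : ∃ m, m = finrank QB Y := ⟨_, rfl⟩
  rw [← hm]
  rcases Finset.eq_empty_or_nonempty s with rfl | hne
  · simp
    positivity
  have hs' := hs
  choose! y hyY hy0 hyL using hs
  set W : Submodule QB ℂ := Submodule.span QB ((fun n => y n * t ^ n) '' (s : Set ℕ)) with hW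
  have hWfin : FiniteDimensional QB W :=
    FiniteDimensional.span_of_finite QB ((Finset.finite_toSet s).image _)
  obtain ⟨r, hr⟩ : ∃ r, r = finrank QB W := ⟨_, rfl⟩
  have h1 : s.card ≤ m * r := by
    rw [hm, hr]
    exact card_powers ht Y W s fun n hn => ⟨y n, hyY n hn, hy0 n hn,
      Submodule.subset_span ⟨n, hn, rfl⟩⟩
  have hm1 : 1 ≤ m := by
    obtain ⟨n, hn⟩ := hne
    by_contra hcon
    have : m = 0 := by omega
    rw [this, zero_mul] at h1
    have := Finset.card_pos.2 ⟨n, hn⟩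
    omega
  have hN1 : 1 ≤ N := by
    obtain ⟨n, hn⟩ := hne
    have := hsN n hn
    omega
  obtain ⟨q, hq⟩ : ∃ q : ℝ, q = Real.sqrt (m * N) := ⟨_, rfl⟩
  have hmR : (1 : ℝ) ≤ m := by exact_mod_cast hm1
  have hNR : (1 : ℝ) ≤ N := by exact_mod_cast hN1
  have hq1 : 1 ≤ q := by
    rw [hq, Real.one_le_sqrt]
    nlinarith
  have hqq : q * q = m * N := by
    rw [hq]
    exact Real.mul_self_sqrt (by positivity)
  obtain ⟨h, hh⟩ : ∃ h : ℕ, h = ⌈q⌉₊ := ⟨_, rfl⟩
  have hhq : q ≤ h := by rw [hh]; exact Nat.le_ceil q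
  have hhq' : (h : ℝ) < q + 1 := by rw [hh]; exact Nat.ceil_lt_add_one (by linarith)
  have hh0 : 0 < h := by
    have : (0 : ℝ) < h := by linarith
    exact_mod_cast this
  have h2 := rank_le ht Y N s hsN y hyY hyL h hh0
  rw [← hW, ← hr, ← hm] at h2
  have h3 : (h : ℝ) * r ≤ m * (N + h) + h * (h - 1) := by
    have h4 : h * r ≤ m * (N + h) + h * (h - 1) := h2.trans (by gcongr; omega)
    have h5 : ((h - 1 : ℕ) : ℝ) = h - 1 := by push_cast [Nat.cast_sub hh0]; ring
    rw [← h5]
    exact_mod_cast h4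
  have hhR : (0 : ℝ) < h := by exact_mod_cast hh0
  have h6 : (r : ℝ) ≤ 2 * q + m := by
    have h7 : (h : ℝ) * r ≤ h * (2 * q + m) := by
      have h8 : (m : ℝ) * N ≤ h * q := by
        rw [← hqq]
        gcongr
      nlinarith
    exact le_of_mul_le_mul_left h7 hhR
  have h7 : (s.card : ℝ) ≤ m * r := by exact_mod_cast h1
  calc (s.card : ℝ) ≤ m * r := h7
    _ ≤ m * (2 * q + m) := by gcongr
    _ = _ := by rw [← hq]; ring

end Pool.Agent.R356
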