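import Mathlib

/-!
# Growth of a function and its high moments: from pointwise bounds to moments
-/

set_option autoImplicit false

namespace Pool.Agent.R356.RG

open Real MeasureTheory

lemma mono_div {s : ℝ} (hs : 1 ≤ s) {x y : ℝ} (hx : exp s ≤ x) (hxy : x ≤ y) :
    x / log x ^ (s - 1) ≤ y / log y ^ (s - 1) := by
  rcases hs.eq_or_lt with h | h
  · subst h
    simpa using hxy
  have ha : 0 < s - 1 := by linarith
  have hx0 : 0 < x := (exp_pos s).trans_le hx
  have hy0 : 0 < y := hx0.trans_le hxy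
  have hx1 : 1 < x := ((one_lt_exp_iff).2 (by linarith : (0:ℝ) < s)).trans_le hx
  have hlx : 0 < log x := log_pos hx1
  have hly : 0 < log y := log_pos (hx1.trans_le hxy)
  have hpos : 0 < 1 / (s - 1) := by positivity
  have hm : x ∈ Set.Ici (exp (1 / (s - 1))⁻¹) := by
    rw [one_div, inv_inv]
    exact (exp_le_exp.2 (by linarith)).trans hx
  have hm2 : y ∈ Set.Ici (exp (1 / (s - 1))⁻¹) := (Set.mem_Ici.1 hm).trans hxy
  have h1 := log_div_self_rpow_antitoneOn hpos hm hm2 hxy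
  simp only at h1
  have h2 : (log y / y ^ (1 / (s - 1))) ^ (s - 1) ≤ (log x / x ^ (1 / (s - 1))) ^ (s - 1) :=
    rpow_le_rpow (by positivity) h1 ha.le
  rw [div_rpow hly.le (by positivity), div_rpow hlx.le (by positivity), ← rpow_mul hy0.le,
    ← rpow_mul hx0.le, one_div_mul_cancel ha.ne', rpow_one, rpow_one,
    div_le_div_iff₀ hy0 hx0] at h2
  rw [div_le_div_iff₀ (rpow_pos_of_pos hlx _) (rpow_pos_of_pos hly _)]
  linarith

lemma exp_one_le_log {T : ℝ} (hT : 1000 < T) : exp 1 ≤ log T := by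
  have h1 : exp 1 < 3 := by linarith [exp_one_lt_d9]
  have h2 : (3:ℝ) ≤ log T := by
    rw [le_log_iff_exp_le (by linarith)]
    have : exp 3 = exp 1 ^ 3 := by rw [← exp_nat_mul]; norm_num
    rw [this]
    have h3 : exp 1 ^ 3 ≤ 3 ^ 3 := by gcongr
    linarith
  linarith

lemma one_le_loglog {L : ℝ} (hL : exp 1 ≤ L) : 1 ≤ log L := by
  rw [le_log_iff_exp_le ((exp_pos 1).trans_le hL)]
  exact hL

/-- the main inequality between the parameters -/
lemma key_ineq {s b θ : ℝ} (hs : 1 ≤ s) (hb : 0 < b) (hθ : 0 < θ) (h : 2 * b * θ < 1) :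
    ∃ c k₀ : ℝ, 0 < c ∧ c < 1 ∧ 1 ≤ k₀ ∧ ∀ k L : ℝ, k₀ ≤ k → exp 1 ≤ L →
      L ≤ θ * k * log k ^ s → 2 * b * L ≤ c * k * log L ^ s := by
  set c : ℝ := (1 + 2 * b * θ) / 2 with hc
  have hp : 0 < 2 * b * θ := by positivity
  have hc0 : 0 < c := by rw [hc]; linarith
  have hc1 : c < 1 := by rw [hc]; linarith
  have hcb : 2 * b * θ < c := by rw [hc]; linarith
  set q : ℝ := 2 * b * θ / c with hq
  have hq0 : 0 < q := by positivity
  have hq1 : q < 1 := by rw [hq, div_lt_one hc0]; exact hcb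
  set r : ℝ := q ^ (1 / s) with hr
  have hs0 : 0 < s := by linarith
  have hr0 : 0 < r := rpow_pos_of_pos hq0 _
  have hr1 : r < 1 := rpow_lt_one hq0.le hq1 (by positivity)
  have hrs : r ^ s = q := by
    rw [hr, ← rpow_mul hq0.le, one_div_mul_cancel hs0.ne', rpow_one]
  set η : ℝ := c / (2 * b) with hη
  have hη0 : 0 < η := by positivity
  refine ⟨c, max 1 (exp (-log η / (1 - r))), hc0, hc1, le_max_left _ _, ?_⟩
  intro k L hk hL hLk
  have hk1 : 1 ≤ k := (le_max_left _ _).trans hk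
  have hk0 : 0 < k := by linarith
  have hk2 : -log η / (1 - r) ≤ log k := by
    rw [le_log_iff_exp_le hk0]
    exact (le_max_right _ _).trans hk
  rw [div_le_iff₀ (by linarith)] at hk2
  have hlL : 1 ≤ log L := one_le_loglog hL
  have hL0 : 0 < L := (exp_pos 1).trans_le hL
  rcases le_total L (η * k) with h1 | h1
  · have h2 : 1 ≤ log L ^ s := one_le_rpow hlL hs0.le
    calc 2 * b * L ≤ 2 * b * (η * k) := by gcongr
      _ = c * k * 1 := by rw [hη]; field_simp
      _ ≤ c * k * log L ^ s := by gcongr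
  · have h2 : r * log k ≤ log L := by
      have h3 : log (η * k) ≤ log L := log_le_log (by positivity) h1
      rw [log_mul hη0.ne' hk0.ne'] at h3
      nlinarith
    have hlk : 0 ≤ log k := log_nonneg hk1
    have h3 : (r * log k) ^ s ≤ log L ^ s := rpow_le_rpow (by positivity) h2 hs0.le
    rw [mul_rpow hr0.le hlk, hrs] at h3
    calc 2 * b * L ≤ 2 * b * (θ * k * log k ^ s) := by gcongr
      _ = c * k * (q * log k ^ s) := by rw [hq]; field_simp
      _ ≤ c * k * log L ^ s := by gcongr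

/-- from growth bounds to moments -/
theorem dirA (Z : ℝ → ℝ) (hc : Continuous Z) (h0 : ∀ t, 0 ≤ Z t) {s a θ : ℝ} (hs : 1 ≤ s)
    (ha : 0 ≤ a) (hG : ∀ ε : ℝ, 0 < ε → ∃ t₀ : ℝ, ∀ t : ℝ, t₀ ≤ t →
      Z t ≤ exp ((a + ε) * (log t / log (log t) ^ (s - 1))))
    (hθ : 0 < θ) (hθa : 2 * a * θ < 1) :
    ∃ k₀ : ℝ, ∀ k : ℝ, k₀ ≤ k → ∀ T : ℝ, 1000 < T → log T ≤ θ * k * log k ^ s →
      ∫ t in (0:ℝ)..T, Z t ^ (2 * k) < T * log T ^ (k ^ 2) := by
  set b : ℝ := a + (1 / (2 * θ) - a) / 2 with hb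
  have h1 : a < 1 / (2 * θ) := by
    rw [lt_div_iff₀ (by positivity)]; linarith
  have hε : 0 < (1 / (2 * θ) - a) / 2 := by linarith
  have hb0 : 0 < b := by linarith
  have hbθ : 2 * b * θ < 1 := by
    have : 2 * b * θ = a * θ + 1 / 2 := by rw [hb]; field_simp; ring
    rw [this]; linarith
  obtain ⟨t₀, ht₀⟩ := hG _ hε
  rw [← hb] at ht₀
  obtain ⟨c, k₁, hc0, hc1, hk₁, hkey⟩ := key_ineq hs hb0 hθ hbθ
  set t₁ : ℝ := max t₀ (exp (exp s)) with ht₁
  obtain ⟨C₀, hC₀⟩ := (isCompact_Icc (a := (0:ℝ)) (b := t₁)).exists_bound_of_continuousOn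
    hc.continuousOn
  set C : ℝ := max C₀ 1 with hC
  have hC1 : 1 ≤ C := le_max_right _ _
  have hCp : 0 < C := by linarith
  have hlC : 0 ≤ log C := log_nonneg hC1
  refine ⟨max k₁ (max (2 * log C + 1) (1 / (1 - c))), ?_⟩
  intro k hk T hT hkT
  have hkk1 : k₁ ≤ k := (le_max_left _ _).trans hk
  have hkk2 : 2 * log C + 1 ≤ k := ((le_max_left _ _).trans (le_max_right _ _)).trans hk
  have hkk3 : 1 / (1 - c) ≤ k := ((le_max_right _ _).trans (le_max_right _ _)).trans hk
  have hk1 : 1 ≤ k := hk₁.trans hkk1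
  have hk0 : 0 < k := by linarith
  have hT0 : 0 < T := by linarith
  set L : ℝ := log T with hL
  have hLe : exp 1 ≤ L := exp_one_le_log hT
  have hℓ : 1 ≤ log L := one_le_loglog hLe
  have hL0 : 0 < L := (exp_pos 1).trans_le hLe
  have hl0 : 0 < log L := by linarith
  have hkey' := hkey k L hkk1 hLe hkT
  set B : ℝ := C ^ (2 * k) + exp (b * (L / log L ^ (s - 1)) * (2 * k)) with hB
  have hZ : ∀ t ∈ Set.uIoc 0 T, ‖Z t ^ (2 * k)‖ ≤ B := by
    intro t ht
    rw [Set.uIoc_of_le hT0.le] at ht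
    rw [norm_of_nonneg (rpow_nonneg (h0 t) _)]
    rcases le_total t t₁ with h | h
    · have h2 : Z t ≤ C := by
        have h3 := hC₀ t ⟨ht.1.le, h⟩
        rw [norm_of_nonneg (h0 t)] at h3
        exact h3.trans (le_max_left _ _)
      have h4 : Z t ^ (2 * k) ≤ C ^ (2 * k) := rpow_le_rpow (h0 t) h2 (by positivity)
      have := exp_pos (b * (L / log L ^ (s - 1)) * (2 * k))
      linarith
    · have h2 := ht₀ t ((le_max_left _ _).trans h)
      have htp : 0 < t := ht.1
      have h3 : exp s ≤ log t := by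
        rw [le_log_iff_exp_le htp]
        exact (le_max_right _ _).trans h
      have h5 := mono_div hs h3 (log_le_log htp ht.2)
      have h6 : Z t ≤ exp (b * (L / log L ^ (s - 1))) := by
        refine h2.trans (exp_le_exp.2 ?_)
        gcongr
      have h7 : Z t ^ (2 * k) ≤ exp (b * (L / log L ^ (s - 1))) ^ (2 * k) :=
        rpow_le_rpow (h0 t) h6 (by positivity)
      rw [← exp_mul] at h7
      have := rpow_pos_of_pos hCp (2 * k)
      linarith
  have hint := intervalIntegral.norm_integral_le_of_norm_le_const hZ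
  rw [sub_zero, abs_of_pos hT0] at hint
  have hBlt : B < L ^ (k ^ 2) := by
    have e1 : L ^ (k ^ 2) = exp (log L * k ^ 2) := by rw [rpow_def_of_pos hL0]
    have e2 : C ^ (2 * k) = exp (log C * (2 * k)) := by rw [rpow_def_of_pos hCp]
    have e3 : log C * (2 * k) ≤ log L * k ^ 2 - 1 := by
      have : k * (2 * log C + 1) ≤ k * k := by gcongr
      nlinarith [mul_le_mul_of_nonneg_right hℓ (sq_nonneg k)]
    have e4 : b * (L / log L ^ (s - 1)) * (2 * k) ≤ log L * k ^ 2 - 1 := by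
      have hpow : log L ^ s = log L ^ (s - 1) * log L := by
        rw [← rpow_add_one hl0.ne']; ring_nf
      have f1 : 2 * b * L / log L ^ (s - 1) ≤ c * k * log L := by
        rw [div_le_iff₀ (rpow_pos_of_pos hl0 _)]
        calc 2 * b * L ≤ c * k * log L ^ s := hkey'
          _ = c * k * log L * log L ^ (s - 1) := by rw [hpow]; ring
      have f2 : b * (L / log L ^ (s - 1)) * (2 * k) = (2 * b * L / log L ^ (s - 1)) * k := by ring
      rw [f2]
      have f3 : (2 * b * L / log L ^ (s - 1)) * k ≤ c * k * log L * k := by gcongr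
      have f4 : 1 ≤ (1 - c) * k := by
        rw [div_le_iff₀ (by linarith)] at hkk3
        linarith
      have f5 : 1 ≤ (1 - c) * k * (k * log L) := by
        have : 1 ≤ k * log L := by nlinarith
        nlinarith
      nlinarith
    have e5 : exp (log L * k ^ 2 - 1) * 2 < exp (log L * k ^ 2) := by
      rw [exp_sub, div_mul_eq_mul_div, div_lt_iff₀ (exp_pos 1)]
      have := exp_one_gt_d9
      have hp := exp_pos (log L * k ^ 2)
      nlinarith
    have e6 := exp_le_exp.2 e3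
    have e7 := exp_le_exp.2 e4
    rw [hB, e1, e2]
    linarith
  calc ∫ t in (0:ℝ)..T, Z t ^ (2 * k) ≤ ‖∫ t in (0:ℝ)..T, Z t ^ (2 * k)‖ := le_norm_self _
    _ ≤ B * T := hint
    _ < L ^ (k ^ 2) * T := by gcongr
    _ = T * L ^ (k ^ 2) := by ring

end Pool.Agent.R356.RG
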