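import Pool.Agent.R356.RG1

/-!
# Growth of a function and its high moments: from moments to pointwise bounds
-/

set_option autoImplicit false

namespace Pool.Agent.R356.RG

open Real MeasureTheory Filter

lemma ev_log (p c : ℝ) (hc : 0 < c) : ∀ᶠ L : ℝ in atTop, log L ^ p ≤ c * L := by
  have h := (isLittleO_log_rpow_rpow_atTop p (zero_lt_one)).bound hc
  filter_upwards [h, eventually_gt_atTop 1] with x hx h1
  rw [rpow_one, norm_of_nonneg (by linarith : (0:ℝ) ≤ x)] at hx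
  exact (le_norm_self _).trans hx

lemma ev_cond {s ε a κ r k₁ : ℝ} (hs : 1 ≤ s) (hε : 0 < ε) (ha : 0 ≤ a) (hκ : 0 < κ)
    (hr : r < 1) : ∃ t₁ : ℝ, ∀ t : ℝ, t₁ ≤ t → 1000 < t ∧ 6 ≤ log (2 * t) ∧
      k₁ ≤ κ * (log (2 * t) / log (log (2 * t)) ^ s) ∧
      r * log (log (2 * t)) ≤ log κ + log (log (2 * t)) - s * log (log (log (2 * t))) ∧
      (3 / (2 * κ) + 2) * log (log (2 * t)) ^ s ≤
        ε / 4 * (log (2 * t) / log (log (2 * t)) ^ (s - 1)) ∧
      log 2 ≤ ε / 4 / (a + ε) * log t := by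
  have hs0 : 0 < s := by linarith
  have hT : Tendsto (fun t : ℝ => 2 * t) atTop atTop :=
    tendsto_id.const_mul_atTop (by norm_num)
  have hL : Tendsto (fun t : ℝ => log (2 * t)) atTop atTop := tendsto_log_atTop.comp hT
  have hl : Tendsto (fun t : ℝ => log (log (2 * t))) atTop atTop := tendsto_log_atTop.comp hL
  have e1 : ∀ᶠ t : ℝ in atTop, (1000:ℝ) < t := eventually_gt_atTop _
  have e2 : ∀ᶠ t : ℝ in atTop, 6 ≤ log (2 * t) := hL.eventually_ge_atTop 6
  have e3 : ∀ᶠ t : ℝ in atTop, log (log (2 * t)) ^ s ≤ κ / (|k₁| + 1) * log (2 * t) :=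
    hL.eventually (ev_log s (κ / (|k₁| + 1)) (by positivity))
  have e4 : ∀ᶠ t : ℝ in atTop, log (log (log (2 * t))) ≤ (1 - r) / (2 * s) * log (log (2 * t)) := by
    have h := hl.eventually (ev_log 1 ((1 - r) / (2 * s)) (by
      have : 0 < 1 - r := by linarith
      positivity))
    filter_upwards [h] with t ht
    rw [rpow_one] at ht
    exact ht
  have e5 : ∀ᶠ t : ℝ in atTop, -log κ / ((1 - r) / 2) ≤ log (log (2 * t)) :=
    hl.eventually_ge_atTop _
  have e6 : ∀ᶠ t : ℝ in atTop, log (log (2 * t)) ^ (s + (s - 1)) ≤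
      (ε / 4 / (3 / (2 * κ) + 2)) * log (2 * t) :=
    hL.eventually (ev_log (s + (s - 1)) _ (by positivity))
  have e7 : ∀ᶠ t : ℝ in atTop, log 2 / (ε / 4 / (a + ε)) ≤ log t :=
    tendsto_log_atTop.eventually_ge_atTop _
  obtain ⟨t₁, h⟩ := eventually_atTop.1 (((((e1.and e2).and e3).and e4).and e5).and (e6.and e7))
  refine ⟨t₁, fun t ht => ?_⟩
  obtain ⟨⟨⟨⟨⟨f1, f2⟩, f3⟩, f4⟩, f5⟩, f6, f7⟩ := h t ht
  have hLe : exp 1 ≤ log (2 * t) := by linarith [exp_one_lt_d9]
  have hl1 : 1 ≤ log (log (2 * t)) := one_le_loglog hLe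
  have hl0 : 0 < log (log (2 * t)) := by linarith
  refine ⟨f1, f2, ?_, ?_, ?_, ?_⟩
  · rw [← mul_div_assoc, le_div_iff₀ (rpow_pos_of_pos hl0 _)]
    have g : (|k₁| + 1) * log (log (2 * t)) ^ s ≤ κ * log (2 * t) := by
      rw [div_mul_eq_mul_div, le_div_iff₀ (by positivity)] at f3
      linarith
    have g2 : k₁ * log (log (2 * t)) ^ s ≤ (|k₁| + 1) * log (log (2 * t)) ^ s := by
      gcongr
      linarith [le_abs_self k₁]
    linarith
  · have g1 : s * log (log (log (2 * t))) ≤ (1 - r) / 2 * log (log (2 * t)) := by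
      calc s * log (log (log (2 * t))) ≤ s * ((1 - r) / (2 * s) * log (log (2 * t))) := by gcongr
        _ = _ := by field_simp
    rw [div_le_iff₀ (by linarith)] at f5
    linarith
  · rw [← mul_div_assoc, le_div_iff₀ (rpow_pos_of_pos hl0 _), mul_assoc, ← rpow_add hl0]
    have hp : 0 < 3 / (2 * κ) + 2 := by positivity
    calc (3 / (2 * κ) + 2) * log (log (2 * t)) ^ (s + (s - 1))
        ≤ (3 / (2 * κ) + 2) * ((ε / 4 / (3 / (2 * κ) + 2)) * log (2 * t)) := by gcongr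
      _ = ε / 4 * log (2 * t) := by field_simp
  · rw [div_le_iff₀ (by positivity)] at f7
    linarith

/-- a lower bound for a moment -/
lemma moment_lower (Z : ℝ → ℝ) (hc : Continuous Z) (h0 : ∀ t, 0 ≤ Z t)
    (hlip : ∀ t t' T : ℝ, 1000 ≤ T → T / 2 ≤ t → t ≤ 2 * T → T / 2 ≤ t' → t' ≤ 2 * T →
      Z t ≤ Z t' + 100 * T * |t - t'|) {t : ℝ} (ht : 1000 < t) (hV : 1 ≤ Z t) {p : ℝ}
    (hp : 0 ≤ p) : 1 / (400 * t) * (Z t / 2) ^ p ≤ ∫ x in (0:ℝ)..(2 * t), Z x ^ p := by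
  have ht0 : 0 < t := by linarith
  set h : ℝ := 1 / (400 * t) with hh
  have hh0 : 0 < h := by positivity
  have hh1 : h ≤ 1 := by
    rw [hh, div_le_one (by positivity)]; linarith
  have hcont : Continuous fun x => Z x ^ p := hc.rpow_const fun x => Or.inr hp
  have h1 : ∫ x in t..(t + h), (Z t / 2) ^ p ≤ ∫ x in t..(t + h), Z x ^ p := by
    refine intervalIntegral.integral_mono_on (by linarith) (by simp)
      (hcont.intervalIntegrable _ _) fun x hx => ?_
    refine rpow_le_rpow (by positivity) ?_ hp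
    have h2 := hlip t x (2 * t) (by linarith) (by linarith) (by linarith)
      (by linarith [hx.1]) (by linarith [hx.2])
    have h3 : |t - x| ≤ h := by
      rw [abs_le]; constructor <;> linarith [hx.1, hx.2]
    have h4 : 100 * (2 * t) * |t - x| ≤ 1 / 2 := by
      calc 100 * (2 * t) * |t - x| ≤ 100 * (2 * t) * h := by gcongr
        _ = 1 / 2 := by rw [hh]; field_simp; norm_num
    linarith
  rw [intervalIntegral.integral_const, smul_eq_mul, add_sub_cancel_left] at h1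
  refine h1.trans ?_
  refine intervalIntegral.integral_mono_interval (by linarith) (by linarith) (by linarith) ?_
    (hcont.intervalIntegrable _ _)
  exact Eventually.of_forall fun x => rpow_nonneg (h0 x) _

/-- from moments of integral order to growth bounds -/
theorem dirB (Z : ℝ → ℝ) (hc : Continuous Z) (h0 : ∀ t, 0 ≤ Z t)
    (hlip : ∀ t t' T : ℝ, 1000 ≤ T → T / 2 ≤ t → t ≤ 2 * T → T / 2 ≤ t' → t' ≤ 2 * T →
      Z t ≤ Z t' + 100 * T * |t - t'|)
    {s a : ℝ} (hs : 1 ≤ s) (ha : 0 ≤ a)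
    (hR : ∀ θ : ℝ, 0 < θ → 2 * a * θ < 1 → ∃ k₀ : ℕ, ∀ k : ℕ, k₀ ≤ k → ∀ T : ℝ, 1000 < T →
      log T ≤ θ * k * log k ^ s →
      ∫ t in (0:ℝ)..T, Z t ^ (2 * (k:ℝ)) ≤ T * log T ^ ((k:ℝ) ^ 2)) :
    ∀ ε : ℝ, 0 < ε → ∃ t₀ : ℝ, ∀ t : ℝ, t₀ ≤ t →
      Z t ≤ exp ((a + ε) * (log t / log (log t) ^ (s - 1))) := by
  intro ε hε
  have hs0 : 0 < s := by linarith
  set θ : ℝ := 1 / (2 * (a + ε / 4)) with hθ
  have hθ0 : 0 < θ := by positivity
  have hθa : 2 * a * θ < 1 := by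
    rw [hθ, mul_one_div, div_lt_one (by positivity)]; linarith
  set q : ℝ := (a + ε / 4) / (a + ε / 2) with hq
  have hq0 : 0 < q := by positivity
  have hq1 : q < 1 := by rw [hq, div_lt_one (by positivity)]; linarith
  set r : ℝ := q ^ (1 / s) with hr
  have hr0 : 0 < r := rpow_pos_of_pos hq0 _
  have hr1 : r < 1 := rpow_lt_one hq0.le hq1 (by positivity)
  have hrs : r ^ s = q := by
    rw [hr, ← rpow_mul hq0.le, one_div_mul_cancel hs0.ne', rpow_one]
  set κ : ℝ := 2 * (a + ε / 2) with hκ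
  have hκ0 : 0 < κ := by positivity
  have hprod : θ * κ * q = 1 := by
    rw [hθ, hκ, hq]; field_simp
  obtain ⟨k₀, hk₀⟩ := hR θ hθ0 hθa
  obtain ⟨t₁, ht₁⟩ := ev_cond (k₁ := max (k₀ : ℝ) 1) hs hε ha hκ0 hr1
  refine ⟨t₁, fun t ht => ?_⟩
  obtain ⟨c1, c2, c3, c4, c5, c6⟩ := ht₁ t ht
  have ht0 : 0 < t := by linarith
  set L : ℝ := log (2 * t) with hL
  set l : ℝ := log L with hl
  have hxe : exp 1 ≤ log t := exp_one_le_log c1
  have hx0 : 0 < log t := (exp_pos 1).trans_le hxe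
  have hlx : 1 ≤ log (log t) := one_le_loglog hxe
  have hlx0 : 0 < log (log t) := by linarith
  have hLe : exp 1 ≤ L := by linarith [exp_one_lt_d9]
  have hL0 : 0 < L := by linarith
  have hl1 : 1 ≤ l := one_le_loglog hLe
  have hl0 : 0 < l := by linarith
  have hmain0 : 0 ≤ (a + ε) * (log t / log (log t) ^ (s - 1)) := by positivity
  rcases le_total (Z t) 1 with hV | hV
  · exact hV.trans (one_le_exp hmain0)
  have hVp : 0 < Z t := by linarith
  have hls0 : 0 < l ^ s := rpow_pos_of_pos hl0 _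
  have hls1 : 0 < l ^ (s - 1) := rpow_pos_of_pos hl0 _
  have hpow : l ^ s = l ^ (s - 1) * l := by
    rw [← rpow_add_one hl0.ne']; ring_nf
  have hy0 : 0 < κ * (L / l ^ s) := by positivity
  set k : ℕ := ⌈κ * (L / l ^ s)⌉₊ with hk
  have hk1 : κ * (L / l ^ s) ≤ k := Nat.le_ceil _
  have hk2 : (k : ℝ) < κ * (L / l ^ s) + 1 := Nat.ceil_lt_add_one hy0.le
  have hkk0 : k₀ ≤ k := by
    have : (k₀ : ℝ) ≤ k := ((le_max_left _ _).trans c3).trans hk1
    exact_mod_cast this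
  have hkr1 : (1 : ℝ) ≤ k := ((le_max_right _ _).trans c3).trans hk1
  have hkr0 : (0 : ℝ) < k := by linarith
  have hlogk : r * l ≤ log k := by
    have h1 : log (κ * (L / l ^ s)) ≤ log k := log_le_log hy0 hk1
    rw [log_mul hκ0.ne' (by positivity), log_div hL0.ne' hls0.ne', log_rpow hl0] at h1
    linarith
  have hrange : L ≤ θ * k * log k ^ s := by
    have h1 : (r * l) ^ s ≤ log k ^ s := rpow_le_rpow (by positivity) hlogk hs0.le
    rw [mul_rpow hr0.le hl0.le, hrs] at h1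
    calc L = (θ * κ * q) * L := by rw [hprod, one_mul]
      _ = θ * (κ * (L / l ^ s)) * (q * l ^ s) := by field_simp
      _ ≤ θ * k * log k ^ s := by gcongr
  have hM := hk₀ k hkk0 (2 * t) (by linarith) hrange
  have hlow := moment_lower Z hc h0 hlip c1 hV (p := 2 * (k:ℝ)) (by positivity)
  have hcomb := hlow.trans hM
  have hlog := log_le_log (by positivity) hcomb
  rw [log_mul (by positivity) (by positivity), log_mul (by positivity) (by positivity),
    log_rpow (by positivity), log_rpow hL0, ← hL, ← hl, one_div, log_inv] at hlog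
  have h400 : log (400 * t) ≤ 2 * L := by
    have : 2 * L = log ((2 * t) ^ 2) := by rw [log_pow, hL]; norm_num
    rw [this]
    exact log_le_log (by positivity) (by nlinarith)
  have hlog2 : 2 * (k:ℝ) * log (Z t / 2) ≤ 3 * L + (k:ℝ) ^ 2 * l := by linarith
  have hVlog : log (Z t / 2) = log (Z t) - log 2 := log_div hVp.ne' (by norm_num)
  have hA : 3 * L ≤ 2 * (k:ℝ) * (3 / (2 * κ) * l ^ s) := by
    have h1 : κ * L ≤ k * l ^ s := by
      rw [← mul_div_assoc, div_le_iff₀ hls0] at hk1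
      exact hk1
    calc 3 * L = 3 / κ * (κ * L) := by field_simp
      _ ≤ 3 / κ * (k * l ^ s) := by gcongr
      _ = _ := by field_simp
  have hB : (k:ℝ) * l ≤ κ * (L / l ^ (s - 1)) + l := by
    calc (k:ℝ) * l ≤ (κ * (L / l ^ s) + 1) * l := by gcongr
      _ = κ * (L / l ^ (s - 1)) + l := by rw [hpow]; field_simp
  have hC : log (Z t / 2) ≤ 3 / (2 * κ) * l ^ s + (κ * (L / l ^ (s - 1)) + l) / 2 := by
    have h1 : 2 * (k:ℝ) * log (Z t / 2) ≤
        2 * (k:ℝ) * (3 / (2 * κ) * l ^ s + (κ * (L / l ^ (s - 1)) + l) / 2) := by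
      have h2 : (k:ℝ) ^ 2 * l ≤ (k:ℝ) * (κ * (L / l ^ (s - 1)) + l) := by
        have := mul_le_mul_of_nonneg_left hB hkr0.le
        linarith [this, sq (k:ℝ), mul_assoc (k:ℝ) k l]
      linarith
    exact le_of_mul_le_mul_left h1 (by positivity)
  have hl_le : l ≤ l ^ s := by
    calc l = l ^ (1:ℝ) := (rpow_one l).symm
      _ ≤ l ^ s := rpow_le_rpow_of_exponent_le hl1 hs
  have hlog2' : log 2 ≤ 1 := by linarith [log_two_lt_d9]
  have hD : log (Z t) ≤ (a + ε / 2) * (L / l ^ (s - 1)) + (3 / (2 * κ) + 2) * l ^ s := by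
    have h1 : κ * (L / l ^ (s - 1)) / 2 = (a + ε / 2) * (L / l ^ (s - 1)) := by
      rw [hκ]; ring
    rw [hVlog] at hC
    linarith
  have hE : log (Z t) ≤ (a + 3 * ε / 4) * (L / l ^ (s - 1)) := by
    linarith
  have hF : L / l ^ (s - 1) ≤ (1 + ε / 4 / (a + ε)) * (log t / log (log t) ^ (s - 1)) := by
    have h1 : L ≤ (1 + ε / 4 / (a + ε)) * log t := by
      rw [hL, log_mul (by norm_num) ht0.ne']
      linarith
    have h2 : log (log t) ≤ l := log_le_log hx0 (log_le_log ht0 (by linarith))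
    have h3 : log (log t) ^ (s - 1) ≤ l ^ (s - 1) := rpow_le_rpow hlx0.le h2 (by linarith)
    calc L / l ^ (s - 1) ≤ ((1 + ε / 4 / (a + ε)) * log t) / log (log t) ^ (s - 1) := by
          gcongr
      _ = _ := by ring
  have hG : (a + 3 * ε / 4) * (1 + ε / 4 / (a + ε)) ≤ a + ε := by
    have h1 : (a + 3 * ε / 4) * (ε / 4 / (a + ε)) ≤ (a + ε) * (ε / 4 / (a + ε)) := by
      gcongr
      linarith
    have h2 : (a + ε) * (ε / 4 / (a + ε)) = ε / 4 := by field_simp
    linarith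
  have hH : log (Z t) ≤ (a + ε) * (log t / log (log t) ^ (s - 1)) := by
    calc log (Z t) ≤ (a + 3 * ε / 4) * (L / l ^ (s - 1)) := hE
      _ ≤ (a + 3 * ε / 4) * ((1 + ε / 4 / (a + ε)) * (log t / log (log t) ^ (s - 1))) := by
          gcongr
      _ = ((a + 3 * ε / 4) * (1 + ε / 4 / (a + ε))) * (log t / log (log t) ^ (s - 1)) := by ring
      _ ≤ _ := by gcongr
  rwa [← log_le_iff_le_exp hVp]

end Pool.Agent.R356.RG
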