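import Pool.Agent.R356.RG2

/-!
# Growth of a function and its high moments: the scale `√(log t log log t)`
-/

set_option autoImplicit false

namespace Pool.Agent.R356.RG

open Real MeasureTheory Filter

/-- a common form of the upper bound for a moment -/
lemma moment_upper (Z : ℝ → ℝ) (h0 : ∀ t, 0 ≤ Z t) {C k T E : ℝ} (hC1 : 1 ≤ C)
    (hk1 : 1 ≤ k) (hkC : 2 * log C + 1 ≤ k) (hT : 1000 < T)
    (hZ : ∀ t, 0 < t → t ≤ T → Z t ≤ C ∨ Z t ≤ exp E)
    (hE : 2 * k * E + 1 ≤ k ^ 2 * log (log T)) :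
    ∫ t in (0:ℝ)..T, Z t ^ (2 * k) < T * log T ^ (k ^ 2) := by
  have hT0 : 0 < T := by linarith
  have hCp : 0 < C := by linarith
  have hLe := exp_one_le_log hT
  have hℓ := one_le_loglog hLe
  have hL0 : 0 < log T := (exp_pos 1).trans_le hLe
  have hZ' : ∀ t ∈ Set.uIoc 0 T, ‖Z t ^ (2 * k)‖ ≤ C ^ (2 * k) + exp (2 * k * E) := by
    intro t ht
    rw [Set.uIoc_of_le hT0.le] at ht
    rw [norm_of_nonneg (rpow_nonneg (h0 t) _)]
    have p1 := rpow_pos_of_pos hCp (2 * k)
    have p2 := exp_pos (2 * k * E)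
    rcases hZ t ht.1 ht.2 with h | h
    · have := rpow_le_rpow (h0 t) h (by positivity : 0 ≤ 2 * k)
      linarith
    · have := rpow_le_rpow (h0 t) h (by positivity : 0 ≤ 2 * k)
      rw [← exp_mul, mul_comm E] at this
      linarith
  have hint := intervalIntegral.norm_integral_le_of_norm_le_const hZ'
  rw [sub_zero, abs_of_pos hT0] at hint
  have e1 : log T ^ (k ^ 2) = exp (log (log T) * k ^ 2) := by rw [rpow_def_of_pos hL0]
  have e2 : C ^ (2 * k) = exp (log C * (2 * k)) := by rw [rpow_def_of_pos hCp]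
  have e3 : log C * (2 * k) ≤ log (log T) * k ^ 2 - 1 := by
    have h1 : k * (2 * log C + 1) ≤ k * k := by gcongr
    have h2 : 1 * k ^ 2 ≤ log (log T) * k ^ 2 := by gcongr
    linarith [sq k]
  have e4 : 2 * k * E ≤ log (log T) * k ^ 2 - 1 := by linarith
  have e5 : exp (log (log T) * k ^ 2 - 1) * 2 < exp (log (log T) * k ^ 2) := by
    rw [exp_sub, div_mul_eq_mul_div, div_lt_iff₀ (exp_pos 1)]
    have h1 := exp_one_gt_d9
    have hp := exp_pos (log (log T) * k ^ 2)
    have : exp (log (log T) * k ^ 2) * 2 < exp (log (log T) * k ^ 2) * exp 1 := by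
      gcongr
      linarith
    exact this
  have e6 := exp_le_exp.2 e3
  have e7 := exp_le_exp.2 e4
  have hBlt : C ^ (2 * k) + exp (2 * k * E) < log T ^ (k ^ 2) := by
    rw [e1, e2]
    linarith
  calc ∫ t in (0:ℝ)..T, Z t ^ (2 * k) ≤ ‖∫ t in (0:ℝ)..T, Z t ^ (2 * k)‖ := le_norm_self _
    _ ≤ (C ^ (2 * k) + exp (2 * k * E)) * T := hint
    _ < log T ^ (k ^ 2) * T := by gcongr
    _ = T * log T ^ (k ^ 2) := by ring

/-- from growth bounds to moments, on the scale `√(log t log log t)` -/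
theorem dirA' (Z : ℝ → ℝ) (hc : Continuous Z) (h0 : ∀ t, 0 ≤ Z t)
    (hG : ∃ A t₀ : ℝ, ∀ t : ℝ, t₀ ≤ t → Z t ≤ exp (A * √(log t * log (log t)))) :
    ∃ c k₀ : ℝ, 0 < c ∧ ∀ k : ℝ, k₀ ≤ k → ∀ T : ℝ, 1000 < T → log T ≤ c * k ^ 2 * log k →
      ∫ t in (0:ℝ)..T, Z t ^ (2 * k) < T * log T ^ (k ^ 2) := by
  obtain ⟨A', t₀, hA'⟩ := hG
  set A : ℝ := max A' 1 with hA
  have hA1 : 1 ≤ A := le_max_right _ _
  have hA0 : 0 < A := by linarith
  set t₁ : ℝ := max t₀ (exp (exp 1)) with ht₁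
  obtain ⟨C₀, hC₀⟩ := (isCompact_Icc (a := (0:ℝ)) (b := t₁)).exists_bound_of_continuousOn
    hc.continuousOn
  set C : ℝ := max C₀ 1 with hC
  have hC1 : 1 ≤ C := le_max_right _ _
  refine ⟨1 / (16 * A ^ 2), max (16 * A ^ 2) (max (2 * log C + 1) 2), by positivity, ?_⟩
  intro k hk T hT hkT
  have hk16 : 16 * A ^ 2 ≤ k := (le_max_left _ _).trans hk
  have hkC : 2 * log C + 1 ≤ k := ((le_max_left _ _).trans (le_max_right _ _)).trans hk
  have hk2 : 2 ≤ k := ((le_max_right _ _).trans (le_max_right _ _)).trans hk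
  have hk0 : 0 < k := by linarith
  have hLe := exp_one_le_log hT
  have hℓ := one_le_loglog hLe
  have hL0 : 0 < log T := (exp_pos 1).trans_le hLe
  have hl0 : 0 < log (log T) := by linarith
  have hkey : 16 * A ^ 2 * log T ≤ k ^ 2 * log (log T) := by
    rcases le_total (log T) k with h1 | h1
    · calc 16 * A ^ 2 * log T ≤ k * k := by gcongr
        _ = k ^ 2 * 1 := by ring
        _ ≤ k ^ 2 * log (log T) := by gcongr
    · have h2 : log k ≤ log (log T) := log_le_log hk0 h1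
      calc 16 * A ^ 2 * log T ≤ 16 * A ^ 2 * (1 / (16 * A ^ 2) * k ^ 2 * log k) := by gcongr
        _ = k ^ 2 * log k := by field_simp
        _ ≤ k ^ 2 * log (log T) := by gcongr
  have hsqrt : 4 * A * √(log T * log (log T)) ≤ k * log (log T) := by
    rw [← sqrt_sq (by positivity : 0 ≤ 4 * A), ← sqrt_mul (by positivity),
      ← sqrt_sq (by positivity : 0 ≤ k * log (log T))]
    apply sqrt_le_sqrt
    calc (4 * A) ^ 2 * (log T * log (log T)) = 16 * A ^ 2 * log T * log (log T) := by ring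
      _ ≤ k ^ 2 * log (log T) * log (log T) := by gcongr
      _ = (k * log (log T)) ^ 2 := by ring
  refine moment_upper Z h0 hC1 (by linarith) hkC hT (E := A * √(log T * log (log T))) ?_ ?_
  · intro t ht htT
    rcases le_total t t₁ with h | h
    · left
      have h3 := hC₀ t ⟨ht.le, h⟩
      rw [norm_of_nonneg (h0 t)] at h3
      exact h3.trans (le_max_left _ _)
    · right
      have h1 : exp 1 ≤ log t := by
        rw [le_log_iff_exp_le ht]
        exact (le_max_right _ _).trans h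
      have h2 : 1 ≤ log (log t) := one_le_loglog h1
      have hlt : 0 < log t := (exp_pos 1).trans_le h1
      have h3 : log t ≤ log T := log_le_log ht htT
      have h4 : log (log t) ≤ log (log T) := log_le_log hlt h3
      refine (hA' t ((le_max_left _ _).trans h)).trans (exp_le_exp.2 ?_)
      have h5 : √(log t * log (log t)) ≤ √(log T * log (log T)) := by
        apply sqrt_le_sqrt
        gcongr
      calc A' * √(log t * log (log t)) ≤ A * √(log t * log (log t)) := by
            gcongr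
            exact le_max_left _ _
        _ ≤ _ := by gcongr
  · have h1 : 2 * k * (A * √(log T * log (log T))) ≤ k ^ 2 * log (log T) / 2 := by
      have := mul_le_mul_of_nonneg_left hsqrt hk0.le
      nlinarith
    have h2 : 2 * 1 ≤ k ^ 2 * log (log T) := by
      have : (2:ℝ) ≤ k ^ 2 := by nlinarith
      gcongr
    linarith

/-- the pointwise bound from one moment -/
lemma core (Z : ℝ → ℝ) (hc : Continuous Z) (h0 : ∀ t, 0 ≤ Z t)
    (hlip : ∀ t t' T : ℝ, 1000 ≤ T → T / 2 ≤ t → t ≤ 2 * T → T / 2 ≤ t' → t' ≤ 2 * T →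
      Z t ≤ Z t' + 100 * T * |t - t'|) {t k : ℝ} (ht : 1000 < t) (hV : 1 ≤ Z t) (hk : 1 ≤ k)
    (hM : ∫ x in (0:ℝ)..(2 * t), Z x ^ (2 * k) ≤ 2 * t * log (2 * t) ^ (k ^ 2)) :
    log (Z t) ≤ log 2 + 3 * log (2 * t) / (2 * k) + k * log (log (2 * t)) / 2 := by
  have ht0 : 0 < t := by linarith
  have hVp : 0 < Z t := by linarith
  have hk0 : 0 < k := by linarith
  have hLe : exp 1 ≤ log (2 * t) := exp_one_le_log (by linarith)
  have hL0 : 0 < log (2 * t) := (exp_pos 1).trans_le hLe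
  have hlow := moment_lower Z hc h0 hlip ht hV (p := 2 * k) (by positivity)
  have hlog := log_le_log (by positivity) (hlow.trans hM)
  rw [log_mul (by positivity) (by positivity), log_mul (by positivity) (by positivity),
    log_rpow (by positivity), log_rpow hL0, one_div, log_inv] at hlog
  have h400 : log (400 * t) ≤ 2 * log (2 * t) := by
    have : 2 * log (2 * t) = log ((2 * t) ^ 2) := by rw [log_pow]; norm_num
    rw [this]
    exact log_le_log (by positivity) (by nlinarith)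
  have hVlog : log (Z t / 2) = log (Z t) - log 2 := log_div hVp.ne' (by norm_num)
  have h1 : 2 * k * (log (Z t) - log 2) ≤
      2 * k * (3 * log (2 * t) / (2 * k) + k * log (log (2 * t)) / 2) := by
    have e : 2 * k * (3 * log (2 * t) / (2 * k) + k * log (log (2 * t)) / 2) =
        3 * log (2 * t) + k ^ 2 * log (log (2 * t)) := by
      field_simp
    rw [e, ← hVlog]
    linarith
  have := le_of_mul_le_mul_left h1 (by positivity)
  linarith

/-- from moments of integral order to growth bounds, on the scale `√(log t log log t)` -/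
theorem dirB' (Z : ℝ → ℝ) (hc : Continuous Z) (h0 : ∀ t, 0 ≤ Z t)
    (hlip : ∀ t t' T : ℝ, 1000 ≤ T → T / 2 ≤ t → t ≤ 2 * T → T / 2 ≤ t' → t' ≤ 2 * T →
      Z t ≤ Z t' + 100 * T * |t - t'|)
    (hR : ∃ (c : ℝ) (k₀ : ℕ), 0 < c ∧ ∀ k : ℕ, k₀ ≤ k → ∀ T : ℝ, 1000 < T →
      log T ≤ c * (k:ℝ) ^ 2 * log k →
      ∫ t in (0:ℝ)..T, Z t ^ (2 * (k:ℝ)) ≤ T * log T ^ ((k:ℝ) ^ 2)) :
    ∃ A t₀ : ℝ, ∀ t : ℝ, t₀ ≤ t → Z t ≤ exp (A * √(log t * log (log t))) := by
  obtain ⟨c, k₀, hc0, hk₀⟩ := hR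
  set κ : ℝ := 2 / √c with hκ
  have hsc : 0 < √c := sqrt_pos.2 hc0
  have hκ0 : 0 < κ := by positivity
  have hκc : c * κ ^ 2 = 4 := by
    rw [hκ, div_pow, sq_sqrt hc0.le]; field_simp; norm_num
  have hT : Tendsto (fun t : ℝ => 2 * t) atTop atTop :=
    tendsto_id.const_mul_atTop (by norm_num)
  have hL : Tendsto (fun t : ℝ => log (2 * t)) atTop atTop := tendsto_log_atTop.comp hT
  have hl : Tendsto (fun t : ℝ => log (log (2 * t))) atTop atTop := tendsto_log_atTop.comp hL
  have e1 : ∀ᶠ t : ℝ in atTop, (1000:ℝ) < t := eventually_gt_atTop _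
  have e3 : ∀ᶠ t : ℝ in atTop,
      log (log (2 * t)) ≤ κ ^ 2 / ((k₀:ℝ) + 1) ^ 2 * log (2 * t) := by
    have h := hL.eventually (ev_log 1 (κ ^ 2 / ((k₀:ℝ) + 1) ^ 2) (by positivity))
    filter_upwards [h] with t ht
    rw [rpow_one] at ht
    exact ht
  have e4 : ∀ᶠ t : ℝ in atTop, log (log (log (2 * t))) ≤ 1 / 4 * log (log (2 * t)) := by
    have h := hl.eventually (ev_log 1 (1 / 4) (by norm_num))
    filter_upwards [h] with t ht
    rw [rpow_one] at ht
    exact ht
  have e5 : ∀ᶠ t : ℝ in atTop, -log κ * 8 ≤ log (log (2 * t)) := hl.eventually_ge_atTop _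
  obtain ⟨t₁, h⟩ := eventually_atTop.1 ((e1.and e3).and (e4.and e5))
  refine ⟨2 * (2 + 3 / (2 * κ) + κ / 2), t₁, fun t ht => ?_⟩
  obtain ⟨⟨f1, f3⟩, f4, f5⟩ := h t ht
  have ht0 : 0 < t := by linarith
  have hxe : exp 1 ≤ log t := exp_one_le_log f1
  have hx0 : 0 < log t := (exp_pos 1).trans_le hxe
  have hlx : 1 ≤ log (log t) := one_le_loglog hxe
  have hlx0 : 0 < log (log t) := by linarith
  rcases le_total (Z t) 1 with hV | hV
  · exact hV.trans (one_le_exp (by positivity))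
  have hVp : 0 < Z t := by linarith
  set L : ℝ := log (2 * t) with hLd
  set l : ℝ := log L with hld
  have hLe : exp 1 ≤ L := exp_one_le_log (by linarith)
  have hL0 : 0 < L := (exp_pos 1).trans_le hLe
  have hl1 : 1 ≤ l := one_le_loglog hLe
  have hl0 : 0 < l := by linarith
  have hq0 : 0 < √(L / l) := sqrt_pos.2 (by positivity)
  set k : ℕ := ⌈κ * √(L / l)⌉₊ with hk
  have hk1 : κ * √(L / l) ≤ k := Nat.le_ceil _
  have hk2 : (k : ℝ) < κ * √(L / l) + 1 := Nat.ceil_lt_add_one (by positivity)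
  have hbig : (k₀:ℝ) + 1 ≤ κ * √(L / l) := by
    have h1 : ((k₀:ℝ) + 1) ^ 2 ≤ (κ * √(L / l)) ^ 2 := by
      rw [mul_pow, sq_sqrt (by positivity), ← mul_div_assoc, le_div_iff₀ hl0]
      rw [div_mul_eq_mul_div, le_div_iff₀ (by positivity)] at f3
      linarith
    exact le_of_sq_le_sq h1 (by positivity)
  have hkk0 : k₀ ≤ k := by
    have : (k₀ : ℝ) ≤ k := by linarith
    exact_mod_cast this
  have hkr1 : (1 : ℝ) ≤ k := by
    have : (0:ℝ) ≤ k₀ := Nat.cast_nonneg _
    linarith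
  have hkr0 : (0:ℝ) < k := by linarith
  have hlogk : l / 4 ≤ log k := by
    have h1 : log (κ * √(L / l)) ≤ log k := log_le_log (by positivity) hk1
    rw [log_mul hκ0.ne' hq0.ne', log_sqrt (by positivity), log_div hL0.ne' hl0.ne'] at h1
    linarith
  have hk2sq : κ ^ 2 * (L / l) ≤ (k:ℝ) ^ 2 := by
    have h1 : (κ * √(L / l)) ^ 2 ≤ (k:ℝ) ^ 2 := by gcongr
    rwa [mul_pow, sq_sqrt (by positivity)] at h1
  have hrange : L ≤ c * (k:ℝ) ^ 2 * log k := by
    calc L = c * κ ^ 2 / 4 * L := by rw [hκc]; ring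
      _ = c * (κ ^ 2 * (L / l)) * (l / 4) := by field_simp
      _ ≤ c * (k:ℝ) ^ 2 * log k := by gcongr
  have hM := hk₀ k hkk0 (2 * t) (by linarith) hrange
  have hcore := core Z hc h0 hlip f1 hV hkr1 hM
  rw [← hLd, ← hld] at hcore
  have hS : √(L * l) = √(L / l) * l := by
    rw [← sqrt_sq hl0.le, ← sqrt_mul (by positivity)]
    congr 1
    rw [sqrt_sq hl0.le]
    field_simp
  have hS0 : 0 < √(L * l) := sqrt_pos.2 (by positivity)
  have hA : 3 * L / (2 * k) ≤ 3 / (2 * κ) * √(L * l) := by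
    rw [div_le_iff₀ (by positivity)]
    have h1 : √(L / l) * √(L * l) = L := by
      rw [← sqrt_mul (by positivity)]
      have : L / l * (L * l) = L ^ 2 := by field_simp
      rw [this, sqrt_sq hL0.le]
    calc 3 * L = 3 / (2 * κ) * √(L * l) * (2 * (κ * √(L / l))) := by
          rw [show 3 / (2 * κ) * √(L * l) * (2 * (κ * √(L / l))) =
            3 * (√(L / l) * √(L * l)) by field_simp, h1]
      _ ≤ 3 / (2 * κ) * √(L * l) * (2 * k) := by gcongr
  have hB : (k:ℝ) * l / 2 ≤ κ / 2 * √(L * l) + l / 2 := by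
    have : (k:ℝ) * l ≤ (κ * √(L / l) + 1) * l := by gcongr
    rw [hS]
    linarith
  have hlL : l ≤ √(L * l) := by
    have h1 : l ≤ L := (log_le_sub_one_of_pos hL0).trans (by linarith)
    calc l = √(l * l) := (sqrt_mul_self hl0.le).symm
      _ ≤ √(L * l) := by
          apply sqrt_le_sqrt
          gcongr
  have hlog2' : log 2 ≤ 1 := by linarith [log_two_lt_d9]
  have hD : log (Z t) ≤ (2 + 3 / (2 * κ) + κ / 2) * √(L * l) := by
    linarith
  have hF : √(L * l) ≤ 2 * √(log t * log (log t)) := by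
    have h1 : L ≤ 2 * log t := by
      rw [hLd, log_mul (by norm_num) ht0.ne']
      linarith [exp_one_gt_d9]
    have h2 : l ≤ 2 * log (log t) := by
      calc l ≤ log (2 * log t) := log_le_log hL0 h1
        _ = log 2 + log (log t) := log_mul (by norm_num) hx0.ne'
        _ ≤ 2 * log (log t) := by linarith
    calc √(L * l) ≤ √((2 * log t) * (2 * log (log t))) := by
          apply sqrt_le_sqrt
          gcongr
      _ = √(2 ^ 2 * (log t * log (log t))) := by ring_nf
      _ = 2 * √(log t * log (log t)) := by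
          rw [sqrt_mul (by norm_num), sqrt_sq (by norm_num)]
  rw [← log_le_iff_le_exp hVp]
  calc log (Z t) ≤ (2 + 3 / (2 * κ) + κ / 2) * √(L * l) := hD
    _ ≤ (2 + 3 / (2 * κ) + κ / 2) * (2 * √(log t * log (log t))) := by gcongr
    _ = _ := by ring

end Pool.Agent.R356.RG
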