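import Mathlib

/-!
# Moments on an interval: truncation, large values, convexity
-/

set_option autoImplicit false

namespace Pool.Agent.R356.RG4

open Real MeasureTheory Set

/-- `t ∈ [0,T]` with `Z t ≤ V` -/
def Small (Z : ℝ → ℝ) (V T : ℝ) : Set ℝ := {t | t ∈ Icc (0:ℝ) T ∧ Z t ≤ V}

/-- `t ∈ [0,T]` with `Z t > V` -/
def Large (Z : ℝ → ℝ) (V T : ℝ) : Set ℝ := {t | t ∈ Icc (0:ℝ) T ∧ V < Z t}

variable {Z : ℝ → ℝ}

lemma meas_small (hc : Continuous Z) (V T : ℝ) : MeasurableSet (Small Z V T) :=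
  measurableSet_Icc.inter (measurableSet_le hc.measurable measurable_const)

lemma meas_large (hc : Continuous Z) (V T : ℝ) : MeasurableSet (Large Z V T) :=
  measurableSet_Icc.inter (measurableSet_lt measurable_const hc.measurable)

lemma large_sub (V T : ℝ) : Large Z V T ⊆ Icc 0 T := fun _ h => h.1

lemma small_sub (V T : ℝ) : Small Z V T ⊆ Icc 0 T := fun _ h => h.1

lemma union_eq (V T : ℝ) : Small Z V T ∪ Large Z V T = Icc 0 T := by
  ext t
  constructor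
  · rintro (h | h)
    · exact h.1
    · exact h.1
  · intro h
    rcases le_or_gt (Z t) V with h1 | h1
    · exact Or.inl ⟨h, h1⟩
    · exact Or.inr ⟨h, h1⟩

lemma disj (V T : ℝ) : Disjoint (Small Z V T) (Large Z V T) := by
  rw [Set.disjoint_left]
  intro t h1 h2
  exact absurd h1.2 (not_le.2 h2.2)

lemma cont_pow (hc : Continuous Z) {p : ℝ} (hp : 0 ≤ p) : Continuous (fun t => Z t ^ p) :=
  hc.rpow_const (fun _ => Or.inr hp)

lemma intOn (hc : Continuous Z) {p T : ℝ} (hp : 0 ≤ p) :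
    IntegrableOn (fun t => Z t ^ p) (Icc 0 T) :=
  (cont_pow hc hp).continuousOn.integrableOn_compact isCompact_Icc

lemma int_eq {T : ℝ} (p : ℝ) (hT : 0 ≤ T) :
    ∫ t in (0:ℝ)..T, Z t ^ p = ∫ t in Icc (0:ℝ) T, Z t ^ p := by
  rw [intervalIntegral.integral_of_le hT, integral_Icc_eq_integral_Ioc]

/-- splitting the moment -/
lemma split (hc : Continuous Z) (V : ℝ) {T p : ℝ} (hT : 0 ≤ T) (hp : 0 ≤ p) :
    ∫ t in (0:ℝ)..T, Z t ^ p = (∫ t in Small Z V T, Z t ^ p) + ∫ t in Large Z V T, Z t ^ p := by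
  rw [int_eq p hT, ← union_eq (Z := Z) V T]
  exact setIntegral_union (disj V T) (meas_large hc V T)
    ((intOn hc hp).mono_set (small_sub V T)) ((intOn hc hp).mono_set (large_sub V T))

lemma sub_le_int (hc : Continuous Z) (h0 : ∀ t, 0 ≤ Z t) {T p : ℝ} (hT : 0 ≤ T) (hp : 0 ≤ p)
    {S : Set ℝ} (hS : S ⊆ Icc 0 T) :
    ∫ t in S, Z t ^ p ≤ ∫ t in (0:ℝ)..T, Z t ^ p := by
  rw [int_eq p hT]
  apply setIntegral_mono_set (intOn hc hp)
  · exact Filter.Eventually.of_forall (fun t => rpow_nonneg (h0 t) _)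
  · exact Filter.Eventually.of_forall hS

/-- the truncated moment -/
lemma small_int (hc : Continuous Z) (h0 : ∀ t, 0 ≤ Z t) {V T p q : ℝ} (hV : 0 ≤ V)
    (hT : 0 ≤ T) (hq : 0 ≤ q) (hpq : q ≤ p) :
    ∫ t in Small Z V T, Z t ^ p ≤ V ^ (p - q) * ∫ t in (0:ℝ)..T, Z t ^ q := by
  have hp : 0 ≤ p := hq.trans hpq
  calc ∫ t in Small Z V T, Z t ^ p ≤ ∫ t in Small Z V T, V ^ (p - q) * Z t ^ q := by
        apply setIntegral_mono_on ((intOn hc hp).mono_set (small_sub V T))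
          (((intOn hc hq).mono_set (small_sub V T)).const_mul _) (meas_small hc V T)
        intro t ht
        have e : Z t ^ p = Z t ^ (p - q) * Z t ^ q := by
          rw [← rpow_add_of_nonneg (h0 t) (by linarith) hq]
          congr 1
          ring
        rw [e]
        apply mul_le_mul_of_nonneg_right _ (rpow_nonneg (h0 t) _)
        exact rpow_le_rpow (h0 t) ht.2 (by linarith)
    _ = V ^ (p - q) * ∫ t in Small Z V T, Z t ^ q := integral_const_mul _ _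
    _ ≤ _ := by
        apply mul_le_mul_of_nonneg_left _ (rpow_nonneg hV _)
        exact sub_le_int hc h0 hT hq (small_sub V T)

lemma vol_lt_top (V T : ℝ) : volume (Large Z V T) < ⊤ :=
  (measure_mono (large_sub V T)).trans_lt isCompact_Icc.measure_lt_top

/-- Chebyshev -/
lemma large_vol (hc : Continuous Z) (h0 : ∀ t, 0 ≤ Z t) {V T p : ℝ} (hV : 0 ≤ V)
    (hT : 0 ≤ T) (hp : 0 ≤ p) :
    V ^ p * volume.real (Large Z V T) ≤ ∫ t in (0:ℝ)..T, Z t ^ p := by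
  calc V ^ p * volume.real (Large Z V T) = ∫ t in Large Z V T, V ^ p := by
        rw [setIntegral_const, smul_eq_mul, mul_comm]
    _ ≤ ∫ t in Large Z V T, Z t ^ p := by
        apply setIntegral_mono_on (integrableOn_const (vol_lt_top V T).ne)
          ((intOn hc hp).mono_set (large_sub V T)) (meas_large hc V T)
        intro t ht
        exact rpow_le_rpow hV ht.2.le hp
    _ ≤ _ := sub_le_int hc h0 hT hp (large_sub V T)

/-- moments of higher order from a lower one and the maximum -/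
lemma up (hc : Continuous Z) (h0 : ∀ t, 0 ≤ Z t) {L T j k : ℝ} (hL : 1 ≤ L) (hT : 0 ≤ T)
    (hj : 0 ≤ j) (hjk : j ≤ k) (hW : ∀ t ∈ Icc (0:ℝ) T, Z t ≤ L ^ j)
    (hM : ∫ t in (0:ℝ)..T, Z t ^ (2 * j) ≤ T * L ^ (j ^ 2)) :
    ∫ t in (0:ℝ)..T, Z t ^ (2 * k) ≤ T * L ^ (k ^ 2) := by
  have hL0 : 0 < L := by linarith
  have hS : Small Z (L ^ j) T = Icc 0 T := by
    ext t
    exact ⟨fun h => h.1, fun h => ⟨h, hW t h⟩⟩
  have h1 := small_int hc h0 (V := L ^ j) (T := T) (p := 2 * k) (q := 2 * j)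
    (rpow_nonneg hL0.le _) hT (by linarith) (by linarith)
  rw [hS, ← int_eq _ hT] at h1
  refine h1.trans ?_
  calc (L ^ j) ^ (2 * k - 2 * j) * ∫ t in (0:ℝ)..T, Z t ^ (2 * j)
      ≤ (L ^ j) ^ (2 * k - 2 * j) * (T * L ^ (j ^ 2)) := by gcongr
    _ = T * L ^ (j * (2 * k - 2 * j) + j ^ 2) := by
        rw [← rpow_mul hL0.le, rpow_add hL0]
        ring
    _ ≤ T * L ^ (k ^ 2) := by
        apply mul_le_mul_of_nonneg_left _ hT
        apply rpow_le_rpow_of_exponent_le hL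
        nlinarith [sq_nonneg (k - j)]

/-- convexity between the orders `i < j` -/
lemma convex (hc : Continuous Z) (h0 : ∀ t, 0 ≤ Z t) {L T c i j θ : ℝ} (hL : 0 < L) (hT : 0 < T)
    (hcc : 0 < c) (hi : 0 ≤ i) (hj : 0 ≤ j) (hθ0 : 0 ≤ θ) (hθ1 : θ ≤ 1)
    (hMi : ∫ t in (0:ℝ)..T, Z t ^ (2 * i) ≤ c * (T * L ^ (i ^ 2)))
    (hMj : ∫ t in (0:ℝ)..T, Z t ^ (2 * j) ≤ T * L ^ (j ^ 2)) :
    ∫ t in (0:ℝ)..T, Z t ^ (2 * ((1 - θ) * i + θ * j)) ≤
      c ^ (1 - θ) * (T * L ^ ((1 - θ) * i ^ 2 + θ * j ^ 2)) := by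
  set A := c * (T * L ^ (i ^ 2)) with hA
  set B := T * L ^ (j ^ 2) with hB
  have hA0 : 0 < A := by positivity
  have hB0 : 0 < B := by positivity
  set D := A ^ (1 - θ) * B ^ θ with hD
  have hD0 : 0 < D := by positivity
  have hθ' : 0 ≤ 1 - θ := by linarith
  have hpt : ∀ t, Z t ^ (2 * ((1 - θ) * i + θ * j)) ≤
      D * (1 - θ) / A * Z t ^ (2 * i) + D * θ / B * Z t ^ (2 * j) := by
    intro t
    have h1 := geom_mean_le_arith_mean2_weighted hθ' hθ0
      (p₁ := Z t ^ (2 * i) / A) (p₂ := Z t ^ (2 * j) / B)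
      (div_nonneg (rpow_nonneg (h0 t) _) hA0.le) (div_nonneg (rpow_nonneg (h0 t) _) hB0.le)
      (by ring)
    rw [div_rpow (rpow_nonneg (h0 t) _) hA0.le, div_rpow (rpow_nonneg (h0 t) _) hB0.le,
      ← rpow_mul (h0 t), ← rpow_mul (h0 t)] at h1
    have e : Z t ^ (2 * ((1 - θ) * i + θ * j)) = Z t ^ (2 * i * (1 - θ)) * Z t ^ (2 * j * θ) := by
      rw [← rpow_add_of_nonneg (h0 t) (by positivity) (by positivity)]
      congr 1
      ring
    rw [e]
    have h2 : Z t ^ (2 * i * (1 - θ)) * Z t ^ (2 * j * θ) =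
        D * (Z t ^ (2 * i * (1 - θ)) / A ^ (1 - θ) * (Z t ^ (2 * j * θ) / B ^ θ)) := by
      rw [hD]
      field_simp
    rw [h2]
    calc D * (Z t ^ (2 * i * (1 - θ)) / A ^ (1 - θ) * (Z t ^ (2 * j * θ) / B ^ θ))
        ≤ D * ((1 - θ) * (Z t ^ (2 * i) / A) + θ * (Z t ^ (2 * j) / B)) := by gcongr
      _ = _ := by ring
  have hiI : IntervalIntegrable (fun t => Z t ^ (2 * i)) volume 0 T :=
    (cont_pow hc (by linarith)).intervalIntegrable _ _
  have hjI : IntervalIntegrable (fun t => Z t ^ (2 * j)) volume 0 T :=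
    (cont_pow hc (by linarith)).intervalIntegrable _ _
  have h3 : ∫ t in (0:ℝ)..T, Z t ^ (2 * ((1 - θ) * i + θ * j)) ≤
      ∫ t in (0:ℝ)..T, (D * (1 - θ) / A * Z t ^ (2 * i) + D * θ / B * Z t ^ (2 * j)) := by
    apply intervalIntegral.integral_mono_on hT.le
    · exact (cont_pow hc (by positivity)).intervalIntegrable _ _
    · exact (hiI.const_mul _).add (hjI.const_mul _)
    · intro t _
      exact hpt t
  refine h3.trans ?_
  rw [intervalIntegral.integral_add (hiI.const_mul _) (hjI.const_mul _),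
    intervalIntegral.integral_const_mul, intervalIntegral.integral_const_mul]
  have h4 : D * (1 - θ) / A * (∫ t in (0:ℝ)..T, Z t ^ (2 * i)) ≤ D * (1 - θ) / A * A := by
    gcongr
  have h5 : D * θ / B * (∫ t in (0:ℝ)..T, Z t ^ (2 * j)) ≤ D * θ / B * B := by
    gcongr
  have h6 : D * (1 - θ) / A * A = D * (1 - θ) := by field_simp
  have h7 : D * θ / B * B = D * θ := by field_simp
  have h8 : D = c ^ (1 - θ) * (T * L ^ ((1 - θ) * i ^ 2 + θ * j ^ 2)) := by
    rw [hD, hA, hB, mul_rpow hcc.le (by positivity), mul_rpow hT.le (by positivity),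
      mul_rpow hT.le (by positivity), ← rpow_mul hL.le, ← rpow_mul hL.le]
    have e1 : T = T ^ (1 - θ) * T ^ θ := by
      rw [← rpow_add hT]
      simp
    have e2 : L ^ ((1 - θ) * i ^ 2 + θ * j ^ 2) = L ^ (i ^ 2 * (1 - θ)) * L ^ (j ^ 2 * θ) := by
      rw [← rpow_add hL]
      congr 1
      ring
    rw [e2]
    nth_rewrite 3 [e1]
    ring
  rw [← h8]
  linarith

/-- orders near the lower one -/
lemma near (hc : Continuous Z) (h0 : ∀ t, 0 ≤ Z t) {L T c i j k : ℝ} (hL : 1 ≤ L) (hT : 0 < T)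
    (hcc : 0 < c) (hi : 0 ≤ i) (hij : i < j) (hik : i ≤ k) (hkj : k ≤ j)
    (hMi : ∫ t in (0:ℝ)..T, Z t ^ (2 * i) ≤ c * (T * L ^ (i ^ 2)))
    (hMj : ∫ t in (0:ℝ)..T, Z t ^ (2 * j) ≤ T * L ^ (j ^ 2))
    (h : (k - i) * (j - i) * log L ≤ -log c) :
    ∫ t in (0:ℝ)..T, Z t ^ (2 * k) ≤ T * L ^ (k ^ 2) := by
  have hL0 : 0 < L := by linarith
  have hji : 0 < j - i := by linarith
  set θ := (k - i) / (j - i) with hθ
  have hθ0 : 0 ≤ θ := div_nonneg (by linarith) hji.le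
  have hθ1 : θ ≤ 1 := by
    rw [hθ, div_le_one hji]
    linarith
  have hk : k = (1 - θ) * i + θ * j := by
    have : θ * (j - i) = k - i := by
      rw [hθ]
      field_simp
    linarith
  have h1 := convex hc h0 hL0 hT hcc hi (by linarith) hθ0 hθ1 hMi hMj
  rw [← hk] at h1
  refine h1.trans ?_
  have e : (1 - θ) * i ^ 2 + θ * j ^ 2 = k ^ 2 + θ * (1 - θ) * (j - i) ^ 2 := by
    rw [hk]
    ring
  rw [e, rpow_add hL0]
  have h2 : c ^ (1 - θ) * L ^ (θ * (1 - θ) * (j - i) ^ 2) ≤ 1 := by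
    rw [rpow_def_of_pos hcc, rpow_def_of_pos hL0, ← exp_add]
    rw [exp_le_one_iff]
    have h3 : θ * (j - i) ^ 2 * log L ≤ -log c := by
      refine le_trans (le_of_eq ?_) h
      rw [hθ]
      field_simp
    have h4 : 0 ≤ 1 - θ := by linarith
    nlinarith [mul_le_mul_of_nonneg_left h3 h4]
  have h5 : 0 ≤ T * L ^ (k ^ 2) := by positivity
  calc c ^ (1 - θ) * (T * (L ^ (k ^ 2) * L ^ (θ * (1 - θ) * (j - i) ^ 2)))
      = (c ^ (1 - θ) * L ^ (θ * (1 - θ) * (j - i) ^ 2)) * (T * L ^ (k ^ 2)) := by ring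
    _ ≤ 1 * (T * L ^ (k ^ 2)) := by gcongr
    _ = _ := one_mul _

end Pool.Agent.R356.RG4
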