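import Pool.Agent.R356.RG4

/-!
# Moments from the measure of the large value sets (layer cake)
-/

set_option autoImplicit false

namespace Pool.Agent.R356.RG4

open Real MeasureTheory Set

variable {Z : ℝ → ℝ}

lemma int_g {c : ℝ} (x : ℝ) :
    ∫ a in (0:ℝ)..x, c * exp (c * (a + 2)) = exp (c * (x + 2)) - exp (c * 2) := by
  have h : ∀ a ∈ uIcc (0:ℝ) x, HasDerivAt (fun a : ℝ => exp (c * (a + 2))) (c * exp (c * (a + 2))) a := by
    intro a _
    have h1 : HasDerivAt (fun a : ℝ => c * (a + 2)) (c * 1) a :=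
      ((hasDerivAt_id a).add_const 2).const_mul c
    have h2 := h1.exp
    convert h2 using 1
    ring
  have hi : IntervalIntegrable (fun a : ℝ => c * exp (c * (a + 2))) volume 0 x := by
    apply Continuous.intervalIntegrable
    fun_prop
  rw [intervalIntegral.integral_eq_sub_of_hasDerivAt h hi]
  simp

/-- the layer cake estimate -/
lemma cake (hc : Continuous Z) (h0 : ∀ t, 0 ≤ Z t) {L T k : ℝ} (hL : 1 < L) (hT : 0 ≤ T)
    (hk : 0 < k)
    (hE : ∀ α : ℝ, 2 ≤ α → volume.real (Large Z (L ^ α) T) ≤ T * L ^ (-α ^ 2)) :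
    ∫ t in Large Z (L ^ (2:ℝ)) T, (Z t ^ (2 * k) - L ^ (4 * k)) ≤
      2 * k * sqrt (π * log L) * (T * L ^ (k ^ 2)) := by
  have hL0 : 0 < L := by linarith
  set ℓ := log L with hℓ
  have hℓ0 : 0 < ℓ := log_pos hL
  set E := Large Z (L ^ (2:ℝ)) T with hEd
  have hmE : MeasurableSet E := meas_large hc _ _
  set f : ℝ → ℝ := fun t => log (Z t) / ℓ - 2 with hf
  set c := 2 * k * ℓ with hcd
  have hc0 : 0 < c := by positivity
  have hZ : ∀ t ∈ E, 0 < Z t ∧ 0 < f t := by
    intro t ht
    have h1 : L ^ (2:ℝ) < Z t := ht.2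
    have h2 : 0 < L ^ (2:ℝ) := rpow_pos_of_pos hL0 _
    refine ⟨h2.trans h1, ?_⟩
    have h3 := log_lt_log h2 h1
    rw [log_rpow hL0] at h3
    rw [hf]
    simp only
    rw [sub_pos, lt_div_iff₀ hℓ0]
    exact h3
  have hval : ∀ t ∈ E, ∫ a in (0:ℝ)..f t, c * exp (c * (a + 2)) = Z t ^ (2 * k) - L ^ (4 * k) := by
    intro t ht
    rw [int_g, rpow_def_of_pos (hZ t ht).1, rpow_def_of_pos hL0]
    congr 2
    · rw [hf, hcd]
      simp only
      field_simp
      ring
    · rw [hcd]
      ring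
  have hcake := lintegral_comp_eq_lintegral_meas_lt_mul (volume.restrict E) (f := f)
    (g := fun a => c * exp (c * (a + 2)))
    (by
      rw [Filter.EventuallyLE, ae_restrict_iff' hmE]
      exact Filter.Eventually.of_forall (fun t ht => (hZ t ht).2.le))
    (by
      apply Measurable.aemeasurable
      exact ((measurable_log.comp hc.measurable).div_const ℓ).sub_const 2)
    (by
      intro t _
      apply Continuous.intervalIntegrable
      fun_prop)
    (Filter.Eventually.of_forall (fun a => by positivity))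
  have hleft : ∫⁻ t in E, ENNReal.ofReal (∫ a in (0:ℝ)..f t, c * exp (c * (a + 2))) =
      ∫⁻ t in E, ENNReal.ofReal (Z t ^ (2 * k) - L ^ (4 * k)) := by
    apply setLIntegral_congr_fun hmE
    intro t ht
    simp only
    rw [hval t ht]
  have hright : ∫⁻ a in Ioi (0:ℝ), (volume.restrict E) {t : ℝ | a < f t} *
      ENNReal.ofReal (c * exp (c * (a + 2))) ≤
      ∫⁻ a : ℝ, ENNReal.ofReal (c * (T * L ^ (k ^ 2)) * exp (-ℓ * (a - (k - 2)) ^ 2)) := by
    refine le_trans ?_ (setLIntegral_le_lintegral (Ioi (0:ℝ)) _)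
    apply setLIntegral_mono' measurableSet_Ioi
    intro a ha
    have ha' : (0:ℝ) < a := ha
    have h1 : (volume.restrict E) {t : ℝ | a < f t} ≤ ENNReal.ofReal (T * L ^ (-(a + 2) ^ 2)) := by
      have h2 : MeasurableSet {t : ℝ | a < f t} :=
        measurableSet_lt measurable_const
          (((measurable_log.comp hc.measurable).div_const ℓ).sub_const 2)
      rw [Measure.restrict_apply h2]
      have h3 : {t : ℝ | a < f t} ∩ E ⊆ Large Z (L ^ (a + 2)) T := by
        rintro t ⟨ht1, ht2⟩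
        refine ⟨ht2.1, ?_⟩
        have h4 : a < log (Z t) / ℓ - 2 := ht1
        have h5 : (a + 2) * ℓ < log (Z t) := by
          rw [← lt_div_iff₀ hℓ0]
          linarith
        rw [rpow_def_of_pos hL0, ← exp_log (hZ t ht2).1]
        apply exp_lt_exp.2
        rw [mul_comm]
        exact h5
      refine (measure_mono h3).trans ?_
      rw [← ofReal_measureReal (vol_lt_top _ _).ne]
      exact ENNReal.ofReal_le_ofReal (hE (a + 2) (by linarith))
    calc (volume.restrict E) {t : ℝ | a < f t} * ENNReal.ofReal (c * exp (c * (a + 2)))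
        ≤ ENNReal.ofReal (T * L ^ (-(a + 2) ^ 2)) * ENNReal.ofReal (c * exp (c * (a + 2))) := by
          gcongr
      _ = ENNReal.ofReal (T * L ^ (-(a + 2) ^ 2) * (c * exp (c * (a + 2)))) :=
          (ENNReal.ofReal_mul (by positivity)).symm
      _ = ENNReal.ofReal (c * (T * L ^ (k ^ 2)) * exp (-ℓ * (a - (k - 2)) ^ 2)) := by
          congr 1
          have e : L ^ (-(a + 2) ^ 2) * exp (c * (a + 2)) =
              L ^ (k ^ 2) * exp (-ℓ * (a - (k - 2)) ^ 2) := by
            rw [rpow_def_of_pos hL0, rpow_def_of_pos hL0, ← exp_add, ← exp_add]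
            congr 1
            rw [hcd]
            ring
          calc T * L ^ (-(a + 2) ^ 2) * (c * exp (c * (a + 2)))
              = c * T * (L ^ (-(a + 2) ^ 2) * exp (c * (a + 2))) := by ring
            _ = c * T * (L ^ (k ^ 2) * exp (-ℓ * (a - (k - 2)) ^ 2)) := by rw [e]
            _ = _ := by ring
  have hgi : Integrable (fun a : ℝ => exp (-ℓ * (a - (k - 2)) ^ 2)) :=
    (integrable_exp_neg_mul_sq hℓ0).comp_sub_right (k - 2)
  have hgauss : ∫ a : ℝ, exp (-ℓ * (a - (k - 2)) ^ 2) = sqrt (π / ℓ) := by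
    rw [integral_sub_right_eq_self (fun a : ℝ => exp (-ℓ * a ^ 2)) (k - 2)]
    exact integral_gaussian ℓ
  have hfin : ∫⁻ a : ℝ, ENNReal.ofReal (c * (T * L ^ (k ^ 2)) * exp (-ℓ * (a - (k - 2)) ^ 2)) =
      ENNReal.ofReal (2 * k * sqrt (π * ℓ) * (T * L ^ (k ^ 2))) := by
    rw [← ofReal_integral_eq_lintegral_ofReal (hgi.const_mul _)
      (Filter.Eventually.of_forall (fun a => by positivity)), integral_const_mul, hgauss]
    congr 1
    have e : ℓ * sqrt (π / ℓ) = sqrt (π * ℓ) := by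
      have h1 : π * ℓ = ℓ ^ 2 * (π / ℓ) := by field_simp
      rw [h1, sqrt_mul (by positivity), sqrt_sq hℓ0.le]
    rw [← e, hcd]
    ring
  have hcon : Continuous (fun t => Z t ^ (2 * k) - L ^ (4 * k)) :=
    (cont_pow hc (by linarith)).sub continuous_const
  have hnn : 0 ≤ᵐ[volume.restrict E] (fun t => Z t ^ (2 * k) - L ^ (4 * k)) := by
    rw [Filter.EventuallyLE, ae_restrict_iff' hmE]
    refine Filter.Eventually.of_forall (fun t ht => ?_)
    have h1 : L ^ (2:ℝ) < Z t := ht.2
    have h2 : (L ^ (2:ℝ)) ^ (2 * k) ≤ Z t ^ (2 * k) :=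
      rpow_le_rpow (rpow_nonneg hL0.le _) h1.le (by linarith)
    rw [← rpow_mul hL0.le] at h2
    have e : (2:ℝ) * (2 * k) = 4 * k := by ring
    rw [e] at h2
    simp only [Pi.zero_apply, sub_nonneg]
    exact h2
  rw [integral_eq_lintegral_of_nonneg_ae hnn hcon.aestronglyMeasurable]
  apply ENNReal.toReal_le_of_le_ofReal (by positivity)
  rw [← hleft, hcake, ← hfin]
  exact hright

/-- the large part of the moment -/
lemma large_int (hc : Continuous Z) (h0 : ∀ t, 0 ≤ Z t) {L T k : ℝ} (hL : 1 < L) (hT : 0 ≤ T)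
    (hk : 0 < k)
    (hE : ∀ α : ℝ, 2 ≤ α → volume.real (Large Z (L ^ α) T) ≤ T * L ^ (-α ^ 2)) :
    ∫ t in Large Z (L ^ (2:ℝ)) T, Z t ^ (2 * k) ≤
      T * L ^ (4 * k - 4) + 2 * k * sqrt (π * log L) * (T * L ^ (k ^ 2)) := by
  have hL0 : 0 < L := by linarith
  have h1 := cake hc h0 hL hT hk hE
  rw [integral_sub ((intOn hc (by linarith)).mono_set (large_sub _ T))
    (integrableOn_const (vol_lt_top _ T).ne), setIntegral_const, smul_eq_mul] at h1
  have h2 := hE 2 le_rfl
  have h3 : volume.real (Large Z (L ^ (2:ℝ)) T) * L ^ (4 * k) ≤ T * L ^ (4 * k - 4) := by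
    calc volume.real (Large Z (L ^ (2:ℝ)) T) * L ^ (4 * k)
        ≤ (T * L ^ (-(2:ℝ) ^ 2)) * L ^ (4 * k) := by gcongr
      _ = T * L ^ (4 * k - 4) := by
        rw [mul_assoc, ← rpow_add hL0]
        congr 2
        ring
  linarith

end Pool.Agent.R356.RG4
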