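import Pool.Agent.R356.RG5

/-!
# Moments of all orders from finitely many orders
-/

set_option autoImplicit false

namespace Pool.Agent.R356.RG4

open Real MeasureTheory Set

variable {Z : ℝ → ℝ}

/-- convexity (Hölder) -/
lemma convexAB (hc : Continuous Z) (h0 : ∀ t, 0 ≤ Z t) {T A B i j θ : ℝ} (hT : 0 ≤ T)
    (hA0 : 0 < A) (hB0 : 0 < B) (hi : 0 ≤ i) (hj : 0 ≤ j) (hθ0 : 0 ≤ θ) (hθ1 : θ ≤ 1)
    (hMi : ∫ t in (0:ℝ)..T, Z t ^ (2 * i) ≤ A)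
    (hMj : ∫ t in (0:ℝ)..T, Z t ^ (2 * j) ≤ B) :
    ∫ t in (0:ℝ)..T, Z t ^ (2 * ((1 - θ) * i + θ * j)) ≤ A ^ (1 - θ) * B ^ θ := by
  set D := A ^ (1 - θ) * B ^ θ with hD
  have hD0 : 0 < D := by positivity
  have hθ' : 0 ≤ 1 - θ := by linarith
  have hpt : ∀ t, Z t ^ (2 * ((1 - θ) * i + θ * j)) ≤
      D * (1 - θ) / A * Z t ^ (2 * i) + D * θ / B * Z t ^ (2 * j) := by
    intro t
    have h1 := geom_mean_le_arith_mean2_weighted hθ' hθ0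
      (p₁ := Z t ^ (2 * i) / A) (p₂ := Z t ^ (2 * j) / B)
      (div_nonneg (rpow_nonneg (h0 t) _) hA0.le) (div_nonneg (rpow_nonneg (h0 t) _) hB0.le)
      (by ring)
    rw [div_rpow (rpow_nonneg (h0 t) _) hA0.le, div_rpow (rpow_nonneg (h0 t) _) hB0.le,
      ← rpow_mul (h0 t), ← rpow_mul (h0 t)] at h1
    have e : Z t ^ (2 * ((1 - θ) * i + θ * j)) = Z t ^ (2 * i * (1 - θ)) * Z t ^ (2 * j * θ) := by
      rw [← rpow_add_of_nonneg (h0 t) (by positivity) (by positivity)]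
      congr 1
      ring
    rw [e]
    have h2 : Z t ^ (2 * i * (1 - θ)) * Z t ^ (2 * j * θ) =
        D * (Z t ^ (2 * i * (1 - θ)) / A ^ (1 - θ) * (Z t ^ (2 * j * θ) / B ^ θ)) := by
      rw [hD]
      field_simp
    rw [h2]
    calc D * (Z t ^ (2 * i * (1 - θ)) / A ^ (1 - θ) * (Z t ^ (2 * j * θ) / B ^ θ))
        ≤ D * ((1 - θ) * (Z t ^ (2 * i) / A) + θ * (Z t ^ (2 * j) / B)) := by gcongr
      _ = _ := by ring
  have hiI : IntervalIntegrable (fun t => Z t ^ (2 * i)) volume 0 T :=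
    (cont_pow hc (by linarith)).intervalIntegrable _ _
  have hjI : IntervalIntegrable (fun t => Z t ^ (2 * j)) volume 0 T :=
    (cont_pow hc (by linarith)).intervalIntegrable _ _
  have h3 : ∫ t in (0:ℝ)..T, Z t ^ (2 * ((1 - θ) * i + θ * j)) ≤
      ∫ t in (0:ℝ)..T, (D * (1 - θ) / A * Z t ^ (2 * i) + D * θ / B * Z t ^ (2 * j)) := by
    apply intervalIntegral.integral_mono_on hT
    · exact (cont_pow hc (by positivity)).intervalIntegrable _ _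
    · exact (hiI.const_mul _).add (hjI.const_mul _)
    · intro t _
      exact hpt t
  refine h3.trans ?_
  rw [intervalIntegral.integral_add (hiI.const_mul _) (hjI.const_mul _),
    intervalIntegral.integral_const_mul, intervalIntegral.integral_const_mul]
  have h4 : D * (1 - θ) / A * (∫ t in (0:ℝ)..T, Z t ^ (2 * i)) ≤ D * (1 - θ) / A * A := by
    gcongr
  have h5 : D * θ / B * (∫ t in (0:ℝ)..T, Z t ^ (2 * j)) ≤ D * θ / B * B := by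
    gcongr
  have h6 : D * (1 - θ) / A * A = D * (1 - θ) := by field_simp
  have h7 : D * θ / B * B = D * θ := by field_simp
  linarith

/-- between two neighbouring grid points -/
lemma grid (hc : Continuous Z) (h0 : ∀ t, 0 ≤ Z t) {L T i k Δ : ℝ} (hL : 1 ≤ L) (hT : 0 < T)
    (hi : 0 ≤ i) (hΔ : 0 < Δ) (hΔL : Δ ^ 2 * log L ≤ 1) (hik : i ≤ k) (hkj : k ≤ i + Δ)
    (hMi : ∫ t in (0:ℝ)..T, Z t ^ (2 * i) ≤ 7 / 9 * (T * L ^ (i ^ 2)))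
    (hMj : ∫ t in (0:ℝ)..T, Z t ^ (2 * (i + Δ)) ≤ 7 / 9 * (T * L ^ ((i + Δ) ^ 2))) :
    ∫ t in (0:ℝ)..T, Z t ^ (2 * k) ≤ T * L ^ (k ^ 2) := by
  have hL0 : 0 < L := by linarith
  have hl0 : 0 ≤ log L := log_nonneg hL
  set θ := (k - i) / Δ with hθ
  have hθΔ : θ * Δ = k - i := by
    rw [hθ]
    field_simp
  have hθ0 : 0 ≤ θ := div_nonneg (by linarith) hΔ.le
  have hθ1 : θ ≤ 1 := by
    rw [hθ, div_le_one hΔ]
    linarith
  have hk : k = (1 - θ) * i + θ * (i + Δ) := by linarith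
  have h1 := convexAB hc h0 hT.le (by positivity) (by positivity) hi (by linarith) hθ0 hθ1 hMi hMj
  rw [← hk] at h1
  refine h1.trans ?_
  have r1 : (7 / 9 * (T * L ^ (i ^ 2))) ^ (1 - θ) =
      (7 / 9 : ℝ) ^ (1 - θ) * (T ^ (1 - θ) * L ^ (i ^ 2 * (1 - θ))) := by
    rw [mul_rpow (by norm_num) (by positivity), mul_rpow hT.le (by positivity), ← rpow_mul hL0.le]
  have r2 : (7 / 9 * (T * L ^ ((i + Δ) ^ 2))) ^ θ =
      (7 / 9 : ℝ) ^ θ * (T ^ θ * L ^ ((i + Δ) ^ 2 * θ)) := by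
    rw [mul_rpow (by norm_num) (by positivity), mul_rpow hT.le (by positivity), ← rpow_mul hL0.le]
  rw [r1, r2]
  have e1 : T ^ (1 - θ) * T ^ θ = T := by
    rw [← rpow_add hT]
    simp
  have e2 : ((7:ℝ) / 9) ^ (1 - θ) * (7 / 9) ^ θ = 7 / 9 := by
    rw [← rpow_add (by norm_num)]
    simp
  have e3 : L ^ (i ^ 2 * (1 - θ)) * L ^ ((i + Δ) ^ 2 * θ) =
      L ^ (θ * (1 - θ) * Δ ^ 2) * L ^ (k ^ 2) := by
    rw [← rpow_add hL0, ← rpow_add hL0]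
    congr 1
    rw [hk]
    ring
  have e4 : L ^ (θ * (1 - θ) * Δ ^ 2) ≤ 9 / 7 := by
    have h2 : L ^ (θ * (1 - θ) * Δ ^ 2) ≤ exp (1 / 4) := by
      rw [rpow_def_of_pos hL0]
      apply exp_le_exp.2
      have h3 : θ * (1 - θ) ≤ 1 / 4 := by nlinarith [sq_nonneg (θ - 1 / 2)]
      calc log L * (θ * (1 - θ) * Δ ^ 2) = θ * (1 - θ) * (Δ ^ 2 * log L) := by ring
        _ ≤ 1 / 4 * 1 := by
          apply mul_le_mul h3 hΔL (by positivity) (by norm_num)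
        _ = 1 / 4 := by ring
    refine h2.trans ?_
    have h4 : exp (1 / 4) ^ 4 ≤ (9 / 7 : ℝ) ^ 4 := by
      rw [← exp_nat_mul]
      norm_num
      linarith [exp_one_lt_d9]
    exact le_of_pow_le_pow_left₀ (by norm_num) (by norm_num) h4
  calc (7 / 9 : ℝ) ^ (1 - θ) * (T ^ (1 - θ) * L ^ (i ^ 2 * (1 - θ))) *
        ((7 / 9) ^ θ * (T ^ θ * L ^ ((i + Δ) ^ 2 * θ)))
      = ((7 / 9 : ℝ) ^ (1 - θ) * (7 / 9) ^ θ) * (T ^ (1 - θ) * T ^ θ) *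
        (L ^ (i ^ 2 * (1 - θ)) * L ^ ((i + Δ) ^ 2 * θ)) := by ring
    _ = 7 / 9 * L ^ (θ * (1 - θ) * Δ ^ 2) * (T * L ^ (k ^ 2)) := by
        rw [e1, e2, e3]
        ring
    _ ≤ 7 / 9 * (9 / 7) * (T * L ^ (k ^ 2)) := by gcongr
    _ = T * L ^ (k ^ 2) := by ring

/-- the small orders suffice -/
lemma small_orders (hc : Continuous Z) (h0 : ∀ t, 0 ≤ Z t) {L T W : ℝ} (hL : 1 < L) (hT : 0 ≤ T)
    (hW : ∀ t ∈ Icc (0:ℝ) T, Z t ≤ W)
    (h2 : ∫ t in (0:ℝ)..T, Z t ^ (2 * (2:ℝ)) ≤ T * L ^ ((2:ℝ) ^ 2))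
    (h : ∀ k : ℝ, 2 ≤ k → L ^ k ≤ W → ∫ t in (0:ℝ)..T, Z t ^ (2 * k) ≤ T * L ^ (k ^ 2)) :
    ∀ k : ℝ, 2 ≤ k → ∫ t in (0:ℝ)..T, Z t ^ (2 * k) ≤ T * L ^ (k ^ 2) := by
  intro k hk
  have hL0 : 0 < L := by linarith
  have hl0 : 0 < log L := log_pos hL
  rcases le_or_gt (L ^ k) W with h3 | h3
  · exact h k hk h3
  rcases le_or_gt W (L ^ (2:ℝ)) with h4 | h4
  · exact up hc h0 hL.le hT (by norm_num) hk (fun t ht => (hW t ht).trans h4) h2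
  · have hW0 : 0 < W := (rpow_pos_of_pos hL0 _).trans h4
    set j := log W / log L with hj
    have hLj : L ^ j = W := by
      rw [rpow_def_of_pos hL0, hj, mul_div_cancel₀ _ hl0.ne', exp_log hW0]
    have hj2 : 2 ≤ j := by
      rw [hj, le_div_iff₀ hl0, ← log_rpow hL0]
      exact log_le_log (rpow_pos_of_pos hL0 _) h4.le
    have hjk : j ≤ k := by
      rw [hj, div_le_iff₀ hl0, ← log_rpow hL0]
      exact log_le_log hW0 h3.le
    exact up hc h0 hL.le hT (by linarith) hjk (fun t ht => (hW t ht).trans hLj.ge)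
      (h j hj2 hLj.le)

/-- finitely many orders suffice -/
lemma finite_orders (hc : Continuous Z) (h0 : ∀ t, 0 ≤ Z t) {L T W Δ : ℝ} (hL : 1 < L)
    (hT : 0 < T) (hW : ∀ t ∈ Icc (0:ℝ) T, Z t ≤ W) (hΔ : 0 < Δ) (hΔL : Δ ^ 2 * log L ≤ 1)
    (h2 : ∫ t in (0:ℝ)..T, Z t ^ (2 * (2:ℝ)) ≤ 7 / 9 * (T * L ^ ((2:ℝ) ^ 2)))
    (h : ∀ n : ℕ, 1 ≤ n → L ^ (2 + n * Δ) ≤ W * L ^ Δ →
      ∫ t in (0:ℝ)..T, Z t ^ (2 * (2 + n * Δ)) ≤ 7 / 9 * (T * L ^ ((2 + n * Δ) ^ 2))) :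
    ∀ k : ℝ, 2 ≤ k → ∫ t in (0:ℝ)..T, Z t ^ (2 * k) ≤ T * L ^ (k ^ 2) := by
  have hL0 : 0 < L := by linarith
  have h22 : 7 / 9 * (T * L ^ ((2:ℝ) ^ 2)) ≤ T * L ^ ((2:ℝ) ^ 2) := by
    have hX : 0 ≤ T * L ^ ((2:ℝ) ^ 2) := by positivity
    generalize T * L ^ ((2:ℝ) ^ 2) = X at hX ⊢
    linarith
  refine small_orders hc h0 hL hT.le hW (h2.trans h22) ?_
  intro k hk hkW
  have hW0 : 0 < W := (rpow_pos_of_pos hL0 _).trans_le hkW
  set n := ⌊(k - 2) / Δ⌋₊ with hn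
  have hn1 : (n : ℝ) ≤ (k - 2) / Δ := Nat.floor_le (div_nonneg (by linarith) hΔ.le)
  have hn2 : (k - 2) / Δ < n + 1 := Nat.lt_floor_add_one _
  rw [le_div_iff₀ hΔ] at hn1
  rw [div_lt_iff₀ hΔ] at hn2
  have h5 : ∀ m : ℕ, (m : ℝ) ≤ n + 1 →
      ∫ t in (0:ℝ)..T, Z t ^ (2 * (2 + m * Δ)) ≤ 7 / 9 * (T * L ^ ((2 + m * Δ) ^ 2)) := by
    intro m hm
    rcases Nat.eq_zero_or_pos m with h6 | h6
    · subst h6
      simpa using h2
    · apply h m h6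
      calc L ^ (2 + m * Δ) ≤ L ^ (k + Δ) := by
            apply rpow_le_rpow_of_exponent_le hL.le
            nlinarith
        _ = L ^ k * L ^ Δ := rpow_add hL0 _ _
        _ ≤ W * L ^ Δ := by gcongr
  have h7 := h5 n (by linarith)
  have h8 := h5 (n + 1) (by push_cast; linarith)
  have e : (2:ℝ) + ((n + 1 : ℕ) : ℝ) * Δ = 2 + n * Δ + Δ := by
    push_cast
    ring
  rw [e] at h8
  exact grid hc h0 hL.le hT (by positivity) hΔ hΔL (by linarith) (by linarith) h7 h8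

end Pool.Agent.R356.RG4
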