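import Pool.Agent.R356.Four

/-!
# Simultaneous rational approximations with an explicit exponent
-/

set_option autoImplicit false

namespace Pool.Agent.R356

open Polynomial Finset

/-- the exponent of simultaneous rational approximations of `u`, `v` is at most `τ` -/
def Simul (u v τ : ℝ) : Prop :=
  ∀ ε : ℝ, 0 < ε → ∃ C : ℝ, 0 < C ∧ ∀ (p r : ℤ) (n : ℕ), 0 < n →
    C * (n : ℝ) ^ (-(τ + ε)) ≤ max |u - p / n| |v - r / n|

theorem simul_of_lin (u v : ℝ) (m : ℕ) (k : Fin (m + 1) → ℤ) (hinj : Function.Injective k)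
    (hk0 : k 0 = 0) (hk : ∀ i, 0 ≤ k i) (α β γ : Fin (m + 1) → ℤ)
    (h0 : ∑ i, ((γ i : ℝ) + u * α i + v * β i) * Real.exp (k i) = 0)
    (hne : ∃ i, (γ i : ℝ) + u * α i + v * β i ≠ 0) : Simul u v (m + 1) := by
  intro ε hε
  obtain ⟨t, hne⟩ := hne
  obtain ⟨c, hc, hm⟩ := Pool.Agent.W472.AC.e_meas m k hinj hk0 hk ε hε
  obtain ⟨A, hA⟩ : ∃ A : ℝ, A = ∑ i, (|(α i : ℝ)| + |(β i : ℝ)| + |(γ i : ℝ)|) + 1 := ⟨_, rfl⟩
  have hAi : ∀ i, |(α i : ℝ)| + |(β i : ℝ)| + |(γ i : ℝ)| + 1 ≤ A := by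
    intro i
    rw [hA]
    have h1 := Finset.single_le_sum (f := fun i => (|(α i : ℝ)| + |(β i : ℝ)| + |(γ i : ℝ)|))
      (fun j _ => by positivity) (Finset.mem_univ i)
    linarith
  have hA1 : 1 ≤ A := by
    have h1 := hAi 0
    have h2 := abs_nonneg (α 0 : ℝ)
    have h3 := abs_nonneg (β 0 : ℝ)
    have h4 := abs_nonneg (γ 0 : ℝ)
    linarith
  obtain ⟨L, hL⟩ : ∃ L : ℝ, L = A + ∑ i, (|(α i : ℝ)| + |(β i : ℝ)|) * Real.exp (k i) := ⟨_, rfl⟩
  have hLA : A ≤ L := by
    rw [hL]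
    have : 0 ≤ ∑ i, (|(α i : ℝ)| + |(β i : ℝ)|) * Real.exp (k i) :=
      Finset.sum_nonneg fun i _ => by positivity
    linarith
  have hL1 : 1 ≤ L := hA1.trans hLA
  obtain ⟨ρ₀, hρ₀⟩ : ∃ ρ₀ : ℝ, ρ₀ = (γ t : ℝ) + u * α t + v * β t := ⟨_, rfl⟩
  rw [← hρ₀] at hne
  have hρpos : 0 < |ρ₀| := abs_pos.2 hne
  obtain ⟨M, hM⟩ : ∃ M : ℝ, M = A * (3 + |u| + |v|) := ⟨_, rfl⟩
  have hu0 := abs_nonneg u
  have hv0 := abs_nonneg v
  have hM1 : 1 ≤ M := by rw [hM]; nlinarith
  have hMpos : 0 < M := by linarith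
  refine ⟨min 1 (min (|ρ₀| / L) (c / ((M * 2) ^ ((m : ℝ) + ε) * L))), by positivity, ?_⟩
  intro p r n hn
  obtain ⟨N, hN⟩ : ∃ N : ℝ, N = (n : ℝ) := ⟨_, rfl⟩
  have hN1 : 1 ≤ N := by rw [hN]; exact_mod_cast hn
  have hN0 : 0 < N := by linarith
  rw [← hN]
  obtain ⟨a, ha⟩ : ∃ a : ℝ, a = p / N := ⟨_, rfl⟩
  obtain ⟨b, hb⟩ : ∃ b : ℝ, b = r / N := ⟨_, rfl⟩
  rw [← ha, ← hb]
  have hp : (p : ℝ) = N * a := by rw [ha]; field_simp
  have hr : (r : ℝ) = N * b := by rw [hb]; field_simp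
  obtain ⟨δ, hδ⟩ : ∃ δ : ℝ, δ = max |u - a| |v - b| := ⟨_, rfl⟩
  rw [← hδ]
  have hδu : |u - a| ≤ δ := by rw [hδ]; exact le_max_left _ _
  have hδv : |v - b| ≤ δ := by rw [hδ]; exact le_max_right _ _
  have hδ0 : 0 ≤ δ := (abs_nonneg _).trans hδu
  have hm0 : (0 : ℝ) ≤ m := by positivity
  have hNe : N ^ (-((m : ℝ) + 1 + ε)) ≤ 1 :=
    Real.rpow_le_one_of_one_le_of_nonpos hN1 (by linarith)
  have hNe0 : 0 < N ^ (-((m : ℝ) + 1 + ε)) := by positivity
  by_cases hδ1 : 1 ≤ δ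
  · calc min 1 (min (|ρ₀| / L) (c / ((M * 2) ^ ((m : ℝ) + ε) * L))) * N ^ (-((m : ℝ) + 1 + ε))
        ≤ 1 * 1 := by
          gcongr
          exact min_le_left _ _
      _ ≤ δ := by linarith
  push Not at hδ1
  -- the coefficients
  obtain ⟨w, hw⟩ : ∃ w : Fin (m + 1) → ℤ, w = fun i => n * γ i + p * α i + r * β i := ⟨_, rfl⟩
  have hwi : ∀ i, (w i : ℝ) = N * ((γ i : ℝ) + a * α i + b * β i) := by
    intro i
    rw [hw]
    push_cast
    rw [← hN, hp, hr]
    ring
  by_cases hw0 : w = 0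
  · have h1 := hwi t
    rw [hw0, Pi.zero_apply, Int.cast_zero] at h1
    have h2 : (γ t : ℝ) + a * α t + b * β t = 0 := (mul_eq_zero.1 h1.symm).resolve_left hN0.ne'
    have h3 : ρ₀ = (u - a) * α t + (v - b) * β t := by rw [hρ₀]; linear_combination h2
    have n1 := abs_nonneg (α t : ℝ)
    have n2 := abs_nonneg (β t : ℝ)
    have n3 := abs_nonneg (γ t : ℝ)
    have h4 : |ρ₀| ≤ L * δ := by
      have h6 : |(α t : ℝ)| + |(β t : ℝ)| ≤ L := by linarith [hAi t]
      rw [h3]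
      refine (abs_add_le _ _).trans ?_
      rw [abs_mul, abs_mul]
      calc |u - a| * |(α t : ℝ)| + |v - b| * |(β t : ℝ)| ≤ δ * |(α t : ℝ)| + δ * |(β t : ℝ)| := by
            gcongr
        _ = (|(α t : ℝ)| + |(β t : ℝ)|) * δ := by ring
        _ ≤ L * δ := by gcongr
    have h5 : |ρ₀| / L ≤ δ := by
      rw [div_le_iff₀ (by linarith)]
      linarith
    calc min 1 (min (|ρ₀| / L) (c / ((M * 2) ^ ((m : ℝ) + ε) * L))) * N ^ (-((m : ℝ) + 1 + ε))
        ≤ (|ρ₀| / L) * 1 := by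
          gcongr
          exact (min_le_right _ _).trans (min_le_left _ _)
      _ ≤ δ := by linarith
  · have hw0' : ∃ i, w i ≠ 0 := by
      by_contra hcon
      push Not at hcon
      exact hw0 (funext hcon)
    have ha1 : |a| ≤ |u| + δ := by
      have h1 := abs_sub_abs_le_abs_sub a u
      rw [abs_sub_comm a u] at h1
      linarith
    have hb1 : |b| ≤ |v| + δ := by
      have h1 := abs_sub_abs_le_abs_sub b v
      rw [abs_sub_comm b v] at h1
      linarith
    have hcoef : ∀ i, |(w i : ℝ)| ≤ (M * 2) * N := by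
      intro i
      rw [hwi, abs_mul, abs_of_pos hN0, mul_comm (M * 2) N]
      gcongr
      have n1 := abs_nonneg (α i : ℝ)
      have n2 := abs_nonneg (β i : ℝ)
      have n3 := abs_nonneg (γ i : ℝ)
      have g := hAi i
      calc |(γ i : ℝ) + a * α i + b * β i| ≤ |(γ i : ℝ)| + |a * α i| + |b * β i| := abs_add_three _ _ _
        _ ≤ |(γ i : ℝ)| + (|u| + 1) * |(α i : ℝ)| + (|v| + 1) * |(β i : ℝ)| := by
            rw [abs_mul, abs_mul]
            gcongr <;> linarith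
        _ ≤ A + (|u| + 1) * A + (|v| + 1) * A := by
            have g1 : |(γ i : ℝ)| ≤ A := by linarith
            have g2 : |(α i : ℝ)| ≤ A := by linarith
            have g3 : |(β i : ℝ)| ≤ A := by linarith
            gcongr
        _ ≤ M * 2 := by rw [hM]; nlinarith
    have hMN : 1 ≤ (M * 2) * N := by nlinarith
    have h1 := hm w hw0 ((M * 2) * N) hMN hcoef
    have h2 : |∑ i, (w i : ℝ) * Real.exp (k i)| ≤ N * (L * δ) := by
      have e1 : ∑ i, (w i : ℝ) * Real.exp (k i) =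
          -(N * ∑ i, ((u - a) * α i + (v - b) * β i) * Real.exp (k i)) := by
        have e2 : ∑ i, (w i : ℝ) * Real.exp (k i) =
            N * ∑ i, ((γ i : ℝ) + u * α i + v * β i) * Real.exp (k i) -
            N * ∑ i, ((u - a) * α i + (v - b) * β i) * Real.exp (k i) := by
          rw [← mul_sub, ← Finset.sum_sub_distrib, Finset.mul_sum]
          refine Finset.sum_congr rfl fun i _ => ?_
          rw [hwi]
          ring
        rw [e2, h0]
        ring
      rw [e1, abs_neg, abs_mul, abs_of_pos hN0]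
      gcongr
      refine (Finset.abs_sum_le_sum_abs _ _).trans ?_
      calc ∑ i, |((u - a) * α i + (v - b) * β i) * Real.exp (k i)|
          ≤ ∑ i, ((|(α i : ℝ)| + |(β i : ℝ)|) * Real.exp (k i)) * δ := by
            refine Finset.sum_le_sum fun i _ => ?_
            rw [abs_mul, abs_of_pos (Real.exp_pos _)]
            have h5 : |(u - a) * α i + (v - b) * β i| ≤ (|(α i : ℝ)| + |(β i : ℝ)|) * δ := by
              refine (abs_add_le _ _).trans ?_
              rw [abs_mul, abs_mul]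
              have n1 := abs_nonneg (α i : ℝ)
              have n2 := abs_nonneg (β i : ℝ)
              nlinarith
            have h6 := Real.exp_pos (k i)
            nlinarith
        _ = (∑ i, (|(α i : ℝ)| + |(β i : ℝ)|) * Real.exp (k i)) * δ := by
            rw [Finset.sum_mul]
        _ ≤ L * δ := by
            gcongr
            rw [hL]
            linarith
    have h3 : c ≤ ((M * 2) ^ ((m : ℝ) + ε) * L) * (N ^ ((m : ℝ) + 1 + ε) * δ) := by
      calc c ≤ ((M * 2) * N) ^ ((m : ℝ) + ε) * |∑ i, (w i : ℝ) * Real.exp (k i)| := h1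
        _ ≤ ((M * 2) * N) ^ ((m : ℝ) + ε) * (N * (L * δ)) := by gcongr
        _ = ((M * 2) ^ ((m : ℝ) + ε) * L) * ((N ^ ((m : ℝ) + ε) * N) * δ) := by
            rw [Real.mul_rpow (by linarith) hN0.le]
            ring
        _ = _ := by
            congr 2
            rw [← Real.rpow_add_one hN0.ne']
            congr 1
            ring
    have h4 : c / ((M * 2) ^ ((m : ℝ) + ε) * L) ≤ N ^ ((m : ℝ) + 1 + ε) * δ := by
      rw [div_le_iff₀ (by positivity)]
      linarith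
    have h5 : N ^ ((m : ℝ) + 1 + ε) * N ^ (-((m : ℝ) + 1 + ε)) = 1 := by
      rw [← Real.rpow_add hN0]; simp
    calc min 1 (min (|ρ₀| / L) (c / ((M * 2) ^ ((m : ℝ) + ε) * L))) * N ^ (-((m : ℝ) + 1 + ε))
        ≤ (c / ((M * 2) ^ ((m : ℝ) + ε) * L)) * N ^ (-((m : ℝ) + 1 + ε)) := by
          gcongr
          exact (min_le_right _ _).trans (min_le_right _ _)
      _ ≤ (N ^ ((m : ℝ) + 1 + ε) * δ) * N ^ (-((m : ℝ) + 1 + ε)) := by gcongr
      _ = (N ^ ((m : ℝ) + 1 + ε) * N ^ (-((m : ℝ) + 1 + ε))) * δ := by ring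
      _ = δ := by rw [h5, one_mul]

theorem Simul.symm {u v τ : ℝ} (h : Simul u v τ) : Simul v u τ := by
  intro ε hε
  obtain ⟨C, hC, h⟩ := h ε hε
  refine ⟨C, hC, fun p r n hn => ?_⟩
  rw [max_comm]
  exact h r p n hn

theorem Simul.mono {u v τ τ' : ℝ} (h : Simul u v τ) (hτ : τ ≤ τ') : Simul u v τ' := by
  intro ε hε
  obtain ⟨C, hC, h⟩ := h ε hε
  refine ⟨C, hC, fun p r n hn => ?_⟩
  have hn1 : (1 : ℝ) ≤ n := by exact_mod_cast hn
  refine le_trans ?_ (h p r n hn)
  have h1 : (n : ℝ) ^ (-(τ' + ε)) ≤ (n : ℝ) ^ (-(τ + ε)) :=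
    Real.rpow_le_rpow_of_exponent_le hn1 (by linarith)
  gcongr

theorem s_add_sub : Simul (Real.pi + Real.exp 1) (Real.pi - Real.exp 1) 2 := by
  have h := simul_of_lin (Real.pi + Real.exp 1) (Real.pi - Real.exp 1) 1 ![0, 1]
    (by decide) rfl (by decide) ![-1, 0] ![1, 0] ![0, 2] (by
      simp [Fin.sum_univ_two]
      ring) ⟨1, by simp⟩
  norm_num at h
  exact h

theorem s_add_mul : Simul (Real.pi + Real.exp 1) (Real.pi * Real.exp 1) 3 := by
  have h := simul_of_lin (Real.pi + Real.exp 1) (Real.pi * Real.exp 1) 2 ![0, 1, 2]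
    (by decide) rfl (by decide) ![0, -1, 0] ![1, 0, 0] ![0, 0, 1] (by
      have e2 : Real.exp 2 = Real.exp 1 * Real.exp 1 := by
        rw [← Real.exp_add]; norm_num
      simp [Fin.sum_univ_three, e2]
      ring) ⟨2, by simp⟩
  norm_num at h
  exact h

theorem s_add_div : Simul (Real.pi + Real.exp 1) (Real.pi / Real.exp 1) 2 := by
  have h := simul_of_lin (Real.pi + Real.exp 1) (Real.pi / Real.exp 1) 1 ![0, 1]
    (by decide) rfl (by decide) ![-1, 0] ![0, 1] ![0, 1] (by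
      have := Real.exp_pos 1
      simp [Fin.sum_univ_two]
      field_simp
      ring) ⟨0, by
        have := Real.exp_pos 1
        have := Real.pi_pos
        simp
        intro h
        linarith⟩
  norm_num at h
  exact h

theorem s_sub_mul : Simul (Real.pi - Real.exp 1) (Real.pi * Real.exp 1) 3 := by
  have h := simul_of_lin (Real.pi - Real.exp 1) (Real.pi * Real.exp 1) 2 ![0, 1, 2]
    (by decide) rfl (by decide) ![0, 1, 0] ![-1, 0, 0] ![0, 0, 1] (by
      have e2 : Real.exp 2 = Real.exp 1 * Real.exp 1 := by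
        rw [← Real.exp_add]; norm_num
      simp [Fin.sum_univ_three, e2]
      ring) ⟨2, by simp⟩
  norm_num at h
  exact h

theorem s_sub_div : Simul (Real.pi - Real.exp 1) (Real.pi / Real.exp 1) 2 := by
  have h := simul_of_lin (Real.pi - Real.exp 1) (Real.pi / Real.exp 1) 1 ![0, 1]
    (by decide) rfl (by decide) ![-1, 0] ![0, 1] ![0, -1] (by
      have := Real.exp_pos 1
      simp [Fin.sum_univ_two]
      field_simp
      ring) ⟨0, by
        have := Real.exp_one_lt_d9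
        have := Real.pi_gt_three
        simp
        intro h
        linarith⟩
  norm_num at h
  exact h

theorem s_mul_div : Simul (Real.pi * Real.exp 1) (Real.pi / Real.exp 1) 2 := by
  have h := simul_of_lin (Real.pi * Real.exp 1) (Real.pi / Real.exp 1) 1 ![0, 2]
    (by decide) rfl (by decide) ![-1, 0] ![0, 1] ![0, 0] (by
      have := Real.exp_pos 1
      have e2 : Real.exp 2 = Real.exp 1 * Real.exp 1 := by
        rw [← Real.exp_add]; norm_num
      simp [Fin.sum_univ_two, e2]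
      field_simp
      ring) ⟨0, by
        have := Real.pi_ne_zero
        simp⟩
  norm_num at h
  exact h

end Pool.Agent.R356
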