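import Pool.Agent.R356.Simul

/-!
# Good rational approximations of a family of numbers
-/

set_option autoImplicit false

namespace Pool.Agent.R356

open Finset

/-- the good rational approximations -/
def goodQ {ι : Type*} (v : ι → ℝ) (w : ℝ) : Set (ι × ℚ) :=
  {p | |v p.1 - p.2| ≤ (p.2.den : ℝ) ^ (-w)}

lemma fin_rat (B X : ℝ) : {x : ℚ | |(x : ℝ)| ≤ B ∧ (x.den : ℝ) ≤ X}.Finite := by
  have hfin : ((Set.Icc (-(⌊|B| * |X|⌋₊ : ℤ)) (⌊|B| * |X|⌋₊ : ℤ)) ×ˢ (Set.Iic ⌊|X|⌋₊)).Finite :=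
    (Set.finite_Icc _ _).prod (Set.finite_Iic _)
  refine Set.Finite.of_injOn (f := fun x : ℚ => (x.num, x.den)) ?_ ?_ hfin
  · rintro x ⟨h1, h2⟩
    have hd : (0 : ℝ) < x.den := by exact_mod_cast x.den_pos
    have h3 : (x.num : ℝ) = x * x.den := by exact_mod_cast (Rat.mul_den_eq_num x).symm
    have h4 : ((x.num.natAbs : ℕ) : ℝ) ≤ |B| * |X| := by
      have h5 : ((x.num.natAbs : ℕ) : ℝ) = |(x.num : ℝ)| := by
        rw [← Int.cast_abs, Int.abs_eq_natAbs, Int.cast_natCast]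
      rw [h5, h3, abs_mul, abs_of_pos hd]
      have h6 : |(x : ℝ)| ≤ |B| := h1.trans (le_abs_self _)
      have h7 : (x.den : ℝ) ≤ |X| := h2.trans (le_abs_self _)
      gcongr
    have h5 : x.num.natAbs ≤ ⌊|B| * |X|⌋₊ := Nat.le_floor h4
    refine ⟨⟨?_, ?_⟩, ?_⟩
    · show -(⌊|B| * |X|⌋₊ : ℤ) ≤ x.num
      omega
    · show x.num ≤ (⌊|B| * |X|⌋₊ : ℤ)
      omega
    · exact Nat.le_floor (h2.trans (le_abs_self _))
  · intro x _ y _ hxy
    simp only [Prod.mk.injEq] at hxy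
    exact Rat.ext hxy.1 hxy.2

/-- **Sparse rational approximations.** -/
theorem sparse_simul {ι : Type*} [Fintype ι] (v : ι → ℝ) (τ : ℝ) (hτ : 1 ≤ τ)
    (h : ∀ i j, i ≠ j → Simul (v i) (v j) τ) (w ρ : ℝ) (hρ : 1 < ρ) (hρw : τ * ρ + τ < w) :
    ∃ C : ℝ, ∀ X : ℝ, 3 ≤ X → {p ∈ goodQ v w | (p.2.den : ℝ) ≤ X}.Finite ∧
      ({p ∈ goodQ v w | (p.2.den : ℝ) ≤ X}.ncard : ℝ) ≤
        Real.log (Real.log X) / Real.log ρ + C := by
  classical
  obtain ⟨ε, hε⟩ : ∃ ε : ℝ, ε = (w - τ - τ * ρ) / (2 * (1 + ρ)) := ⟨_, rfl⟩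
  have hε0 : 0 < ε := by
    rw [hε]
    apply div_pos (by linarith) (by linarith)
  have hε1 : ε * (1 + ρ) < w - τ - τ * ρ := by
    have : ε * (1 + ρ) = (w - τ - τ * ρ) / 2 := by
      rw [hε]
      have : (1 + ρ) ≠ 0 := by linarith
      field_simp
    linarith
  obtain ⟨κ, hκ⟩ : ∃ κ : ℝ, κ = τ + ε := ⟨_, rfl⟩
  have hκ0 : 0 < κ := by linarith
  have hκ1 : 1 < κ := by linarith
  obtain ⟨γ, hγ⟩ : ∃ γ : ℝ, γ = (w - κ) / κ := ⟨_, rfl⟩
  have hργ : ρ < γ := by
    rw [hγ, lt_div_iff₀ hκ0, hκ]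
    nlinarith
  have hγκ : γ * κ = w - κ := by rw [hγ]; field_simp
  have hw1 : γ ≤ w - 1 := by
    have h1 : γ ≤ w - κ := by
      rw [← hγκ]
      nlinarith
    linarith
  have h1 : ∀ p : ι × ι, ∃ C : ℝ, 0 < C ∧ (p.1 ≠ p.2 → ∀ (a r : ℤ) (n : ℕ), 0 < n →
      C * (n : ℝ) ^ (-κ) ≤ max |v p.1 - a / n| |v p.2 - r / n|) := by
    intro p
    by_cases hp : p.1 ≠ p.2
    · obtain ⟨C, hC, h2⟩ := h p.1 p.2 hp ε hε0
      exact ⟨C, hC, fun _ => by rw [hκ]; exact h2⟩
    · exact ⟨1, one_pos, fun h => absurd h hp⟩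
  choose C' hC' h1 using h1
  obtain ⟨C₀, hC₀, hCle⟩ := Pool.Agent.TH456.TM.exists_pos_le (univ : Finset (ι × ι)) C'
    (fun b _ => hC' b)
  obtain ⟨B, hB, hBle⟩ := Pool.Agent.TH456.TM.exists_le_ge (univ : Finset ι) fun i => |v i|
  obtain ⟨c, hc⟩ : ∃ c : ℝ, c = min (1 / 2) (C₀ ^ (1 / κ)) := ⟨_, rfl⟩
  have hc0 : 0 < c := by rw [hc]; positivity
  refine Pool.Agent.TH647.NR.count_of_gap (goodQ v w) (fun p => (p.2.den : ℝ)) (fun X => ?_)
    c γ ρ hc0 hρ hργ ?_
  · refine ((Set.finite_univ (α := ι)).prod (fin_rat (B + 1) X)).subset ?_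
    rintro ⟨i, x⟩ ⟨h2, h3⟩
    refine ⟨Set.mem_univ _, ?_, h3⟩
    have h4 : |v i - x| ≤ (x.den : ℝ) ^ (-w) := h2
    have hd : (1 : ℝ) ≤ x.den := by exact_mod_cast x.den_pos
    have hw0 : 0 < w := by nlinarith
    have h5 : (x.den : ℝ) ^ (-w) ≤ 1 := Real.rpow_le_one_of_one_le_of_nonpos hd (by linarith)
    have h6 := hBle i (Finset.mem_univ i)
    have h7 : |(x : ℝ)| ≤ |v i| + |v i - x| := by
      have := abs_sub_abs_le_abs_sub (x : ℝ) (v i)
      rw [abs_sub_comm (x : ℝ)] at this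
      linarith
    show |(x : ℝ)| ≤ B + 1
    linarith
  · rintro ⟨i, x⟩ hx ⟨j, y⟩ hy hne hle _
    have hx' : |v i - x| ≤ (x.den : ℝ) ^ (-w) := hx
    have hy' : |v j - y| ≤ (y.den : ℝ) ^ (-w) := hy
    have hle' : (x.den : ℝ) ≤ y.den := hle
    show c * (x.den : ℝ) ^ γ ≤ y.den
    obtain ⟨q, hq⟩ : ∃ q : ℝ, q = (x.den : ℝ) := ⟨_, rfl⟩
    obtain ⟨s, hs⟩ : ∃ s : ℝ, s = (y.den : ℝ) := ⟨_, rfl⟩
    have hq1 : 1 ≤ q := by rw [hq]; exact_mod_cast x.den_pos
    have hs1 : 1 ≤ s := by rw [hs]; exact_mod_cast y.den_pos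
    have hw0 : 0 < w := by nlinarith
    have hxq : (x : ℝ) = x.num / q := by rw [hq]; exact_mod_cast (Rat.num_div_den x).symm
    have hys : (y : ℝ) = y.num / s := by rw [hs]; exact_mod_cast (Rat.num_div_den y).symm
    rw [← hq] at hx' hle' ⊢
    rw [← hs] at hy' hle' ⊢
    have hq0 : 0 < q := by linarith
    have hs0 : 0 < s := by linarith
    have hsw : s ^ (-w) ≤ q ^ (-w) := Real.rpow_le_rpow_of_nonpos hq0 hle' (by linarith)
    by_cases hij : i = j
    · subst hij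
      have hxy : x ≠ y := fun h => hne (by rw [h])
      have h2 : 1 / (q * s) ≤ |(x : ℝ) - y| := by
        have h3 : (x : ℝ) - y ≠ 0 := by
          rw [sub_ne_zero]
          exact_mod_cast hxy
        have h4 : (x : ℝ) - y = ((x.num * y.den - y.num * x.den : ℤ) : ℝ) / (q * s) := by
          rw [hxq, hys]
          push_cast
          rw [← hq, ← hs]
          field_simp
        have h5 : (x.num * y.den - y.num * x.den : ℤ) ≠ 0 := by
          intro h6
          rw [h6] at h4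
          simp at h4
          exact h3 (by rw [h4])
        rw [h4, abs_div, abs_of_pos (show 0 < q * s by positivity)]
        gcongr
        rw [← Int.cast_abs]
        exact_mod_cast Int.one_le_abs h5
      have h3 : |(x : ℝ) - y| ≤ 2 * q ^ (-w) := by
        have h4 : (x : ℝ) - y = -(v i - x) + (v i - y) := by ring
        rw [h4]
        refine (abs_add_le _ _).trans ?_
        rw [abs_neg]
        linarith
      have h4 : 1 ≤ 2 * q ^ (-w) * (q * s) := by
        have h5 := h2.trans h3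
        rwa [div_le_iff₀ (by positivity)] at h5
      have h5 : q ^ (-w) * q ^ (w - 1) * q = 1 := by
        rw [← Real.rpow_add hq0, ← Real.rpow_add_one hq0.ne']
        ring_nf
        simp
      have h6 : q ^ γ ≤ q ^ (w - 1) := Real.rpow_le_rpow_of_exponent_le hq1 hw1
      have h7 : 0 < q ^ (w - 1) := by positivity
      have h8 : q ^ (w - 1) ≤ 2 * s := by
        calc q ^ (w - 1) = q ^ (w - 1) * 1 := by ring
          _ ≤ q ^ (w - 1) * (2 * q ^ (-w) * (q * s)) := by gcongr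
          _ = (q ^ (-w) * q ^ (w - 1) * q) * (2 * s) := by ring
          _ = 2 * s := by rw [h5, one_mul]
      calc c * q ^ γ ≤ (1 / 2) * q ^ (w - 1) := by
            gcongr
            rw [hc]; exact min_le_left _ _
        _ ≤ (1 / 2) * (2 * s) := by gcongr
        _ = s := by ring
    · have h2 := h1 (i, j) hij (x.num * y.den) (y.num * x.den) (x.den * y.den)
        (Nat.mul_pos x.den_pos y.den_pos)
      have h3 := hCle (i, j) (Finset.mem_univ _)
      have e1 : ((x.num * y.den : ℤ) : ℝ) / ((x.den * y.den : ℕ) : ℝ) = x := by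
        push_cast
        rw [hxq, ← hq, ← hs]
        field_simp
      have e2 : ((y.num * x.den : ℤ) : ℝ) / ((x.den * y.den : ℕ) : ℝ) = y := by
        push_cast
        rw [hys, ← hq, ← hs]
        field_simp
      rw [e1, e2] at h2
      have h4 : max |v i - x| |v j - y| ≤ q ^ (-w) := max_le hx' (hy'.trans hsw)
      have h5 : C₀ * (q * s) ^ (-κ) ≤ q ^ (-w) := by
        have h6 : ((x.den * y.den : ℕ) : ℝ) = q * s := by
          push_cast
          rw [← hq, ← hs]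
        rw [h6] at h2
        calc C₀ * (q * s) ^ (-κ) ≤ C' (i, j) * (q * s) ^ (-κ) := by gcongr
          _ ≤ _ := h2.trans h4
      have h6 : C₀ * q ^ (w - κ) ≤ s ^ κ := by
        rw [Real.mul_rpow hq0.le hs0.le] at h5
        have g1 : s ^ (-κ) * s ^ κ = 1 := by rw [← Real.rpow_add hs0]; simp
        have g2 : q ^ (-κ) * q ^ w = q ^ (w - κ) := by
          rw [← Real.rpow_add hq0]; congr 1; ring
        have g3 : q ^ (-w) * q ^ w = 1 := by rw [← Real.rpow_add hq0]; simp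
        calc C₀ * q ^ (w - κ) = (C₀ * (q ^ (-κ) * s ^ (-κ))) * (q ^ w * s ^ κ) := by
              rw [← g2]
              calc C₀ * (q ^ (-κ) * q ^ w) = C₀ * (q ^ (-κ) * q ^ w) * 1 := by ring
                _ = C₀ * (q ^ (-κ) * q ^ w) * (s ^ (-κ) * s ^ κ) := by rw [g1]
                _ = _ := by ring
          _ ≤ q ^ (-w) * (q ^ w * s ^ κ) := by gcongr
          _ = (q ^ (-w) * q ^ w) * s ^ κ := by ring
          _ = s ^ κ := by rw [g3, one_mul]
      have h7 := Real.rpow_le_rpow (by positivity) h6 (show 0 ≤ 1 / κ by positivity)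
      rw [Real.mul_rpow hC₀.le (by positivity), ← Real.rpow_mul hq0.le, ← Real.rpow_mul hs0.le,
        mul_one_div, mul_one_div, div_self hκ0.ne', Real.rpow_one, ← hγ] at h7
      calc c * q ^ γ ≤ C₀ ^ (1 / κ) * q ^ γ := by
            gcongr
            rw [hc]; exact min_le_right _ _
        _ ≤ s := h7

/-- simultaneous approximations of the four numbers -/
theorem simul_four (i j : Fin 4) (hij : i ≠ j) : Simul (num i) (num j) 3 := by
  have h : ∀ i j : Fin 4, i < j → Simul (num i) (num j) 3 := by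
    intro i j hij
    fin_cases i <;> fin_cases j <;> first | (exact absurd hij (by decide)) | skip
    · exact s_add_sub.mono (by norm_num)
    · exact s_add_mul
    · exact s_add_div.mono (by norm_num)
    · exact s_sub_mul
    · exact s_sub_div.mono (by norm_num)
    · exact s_mul_div.mono (by norm_num)
  rcases lt_or_gt_of_ne hij with h1 | h1
  · exact h i j h1
  · exact (h j i h1).symm

end Pool.Agent.R356
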