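import Pool.Agent.W254.HP.Scha

/-!
# Powers of a transcendental number in products of finite dimensional spaces
-/

set_option autoImplicit false

namespace Pool.Agent.R356

open Module Finset Polynomial
open Pool.Agent.H301R2.SSE (QB mem_QB Lt Lt_log Lt_alg)
open Pool.Agent.W254.HP (aeval_ne_zero pow_indep PolyV mem_PolyV finrank_PolyV_le product_le)

/-- a valuation which is trivial on the algebraic numbers and positive at `t` -/
theorem exists_val {t : ℂ} (ht : Transcendental ℚ t) :
    ∃ B : ValuationSubring ℂ, (∀ a : QB, (a : ℂ) ∈ B) ∧ B.valuation t < 1 := by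
  set A : Subring ℂ := (aeval t : QB[X] →ₐ[QB] ℂ).toRingHom.range with hA
  have htA : t ∈ A := ⟨X, by simp⟩
  set I : Ideal A := Ideal.span {(⟨t, htA⟩ : A)} with hI
  have hI1 : I ≠ ⊤ := by
    rw [hI, Ne, Ideal.span_singleton_eq_top]
    intro hu
    obtain ⟨⟨b, P, hP⟩, hb⟩ := isUnit_iff_exists_inv.1 hu
    have h1 : t * b = 1 := congrArg (fun z : A => (z : ℂ)) hb
    have h2 : aeval t P = b := hP
    have h3 : aeval t (X * P - 1) = 0 := by
      rw [map_sub, map_mul, aeval_X, h2, h1, map_one, sub_self]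
    have h4 : (X * P - 1 : QB[X]) = 0 := by
      by_contra h5
      exact aeval_ne_zero ht h5 h3
    have h5 := congrArg (fun Q : QB[X] => Q.coeff 0) h4
    simp at h5
  obtain ⟨B, hAB, hIB⟩ := Ideal.image_subset_nonunits_valuationSubring I hI1
  refine ⟨B, fun a => hAB ⟨C a, by simp⟩, ?_⟩
  rw [← ValuationSubring.mem_nonunits_iff]
  exact hIB ⟨⟨t, htA⟩, Ideal.subset_span rfl, rfl⟩

theorem val_QB (B : ValuationSubring ℂ) (hB : ∀ a : QB, (a : ℂ) ∈ B) (a : QB) (ha : a ≠ 0) :
    B.valuation (a : ℂ) = 1 := by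
  have h1 : B.valuation (a : ℂ) ≤ 1 := (B.valuation_le_one_iff _).2 (hB a)
  have h2 : B.valuation ((a⁻¹ : QB) : ℂ) ≤ 1 := (B.valuation_le_one_iff _).2 (hB _)
  have h3 : B.valuation (a : ℂ) * B.valuation ((a⁻¹ : QB) : ℂ) = 1 := by
    rw [← map_mul]
    have h4 : (a : ℂ) * ((a⁻¹ : QB) : ℂ) = 1 := by
      have h5 : a * a⁻¹ = 1 := mul_inv_cancel₀ ha
      exact_mod_cast congrArg (fun z : QB => (z : ℂ)) h5
    rw [h4, map_one]
  refine le_antisymm h1 ?_
  calc (1 : B.ValueGroup) = B.valuation (a : ℂ) * B.valuation ((a⁻¹ : QB) : ℂ) := h3.symm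
    _ ≤ B.valuation (a : ℂ) * 1 := by gcongr
    _ = _ := mul_one _

/-- elements with different valuations are independent -/
theorem indep_of_val (B : ValuationSubring ℂ) (hB : ∀ a : QB, (a : ℂ) ∈ B) {ι : Type*} (w : ι → ℂ)
    (hw : ∀ i, w i ≠ 0) (hinj : Function.Injective fun i => B.valuation (w i)) :
    LinearIndependent QB w := by
  classical
  rw [linearIndependent_iff']
  intro s g hg
  by_contra hcon
  push Not at hcon
  obtain ⟨i₀, hi₀, hgi₀⟩ := hcon
  set s' := s.filter fun i => g i ≠ 0 with hs'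
  have hne : s'.Nonempty := ⟨i₀, Finset.mem_filter.2 ⟨hi₀, hgi₀⟩⟩
  obtain ⟨j, hj, hmax⟩ := Finset.exists_max_image s' (fun i => B.valuation (w i)) hne
  have hsum : ∑ i ∈ s', g i • w i = 0 := by
    rw [← hg, hs', Finset.sum_filter]
    refine Finset.sum_congr rfl fun i _ => ?_
    split_ifs with h
    · rfl
    · push Not at h
      rw [h, zero_smul]
  have hval : ∀ i ∈ s', B.valuation (g i • w i) = B.valuation (w i) := by
    intro i hi
    have h1 : g i ≠ 0 := (Finset.mem_filter.1 hi).2
    have h2 : g i • w i = (g i : ℂ) * w i := rfl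
    rw [h2, map_mul, val_QB B hB _ h1, one_mul]
  have hj0 : B.valuation (w j) ≠ 0 := by
    rw [Ne, map_eq_zero]
    exact hw j
  have h1 := B.valuation.map_sum_eq_of_lt (s := s') (f := fun i => g i • w i) (j := j) hj
    (fun i hi => by
      rw [Finset.mem_sdiff, Finset.mem_singleton] at hi
      rw [hval i hi.1, hval j hj]
      refine lt_of_le_of_ne (hmax i hi.1) fun h => hi.2 (hinj h))
  rw [hsum, map_zero, hval j hj] at h1
  exact hj0 h1.symm

/-- the number of values on a finite dimensional space -/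
theorem card_val (B : ValuationSubring ℂ) (hB : ∀ a : QB, (a : ℂ) ∈ B) (W : Submodule QB ℂ)
    [FiniteDimensional QB W] {ι : Type*} (s : Finset ι) (w : ι → ℂ) (hw : ∀ i ∈ s, w i ∈ W)
    (hw0 : ∀ i ∈ s, w i ≠ 0) [DecidableEq B.ValueGroup] :
    (s.image fun i => B.valuation (w i)).card ≤ finrank QB W := by
  classical
  -- choose representatives
  have h1 : ∀ a : (s.image fun i => B.valuation (w i)), ∃ i ∈ s, B.valuation (w i) = a := by
    rintro ⟨a, ha⟩
    obtain ⟨i, hi, rfl⟩ := Finset.mem_image.1 ha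
    exact ⟨i, hi, rfl⟩
  choose f hf hfa using h1
  have h2 : LinearIndependent QB (fun a => w (f a)) :=
    indep_of_val B hB _ (fun a => hw0 _ (hf a)) fun a b hab => by
      apply Subtype.ext
      rw [← hfa a, ← hfa b]
      exact hab
  have h3 : LinearIndependent QB (fun a => (⟨w (f a), hw _ (hf a)⟩ : W)) :=
    LinearIndependent.of_comp W.subtype h2
  have h4 := h3.fintype_card_le_finrank
  rwa [Fintype.card_coe] at h4

/-- **Powers in quotients of spaces.** For finite dimensional spaces `Y`, `W` over the algebraic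
numbers there are at most `dim Y * dim W` integers `n` with `t ^ n Y ∩ W ≠ 0`. -/
theorem card_powers {t : ℂ} (ht : Transcendental ℚ t) (Y W : Submodule QB ℂ)
    [FiniteDimensional QB Y] [FiniteDimensional QB W] (s : Finset ℕ)
    (hs : ∀ n ∈ s, ∃ y ∈ Y, y ≠ 0 ∧ y * t ^ n ∈ W) :
    s.card ≤ finrank QB Y * finrank QB W := by
  classical
  obtain ⟨B, hB, htB⟩ := exists_val ht
  have ht0 : t ≠ 0 := by
    rintro rfl
    exact ht isAlgebraic_zero
  have hvt0 : B.valuation t ≠ 0 := by rwa [Ne, map_eq_zero]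
  choose! y hyY hy0 hyW using hs
  have h1 := card_val B hB Y s y hyY hy0
  have h2 := card_val B hB W s (fun n => y n * t ^ n) hyW
    (fun n hn => mul_ne_zero (hy0 n hn) (pow_ne_zero _ ht0))
  have h3 : s.card ≤ ((s.image fun n => B.valuation (y n)) ×ˢ
      (s.image fun n => B.valuation (y n * t ^ n))).card := by
    refine Finset.card_le_card_of_injOn
      (fun n => (B.valuation (y n), B.valuation (y n * t ^ n))) ?_ ?_
    · intro n hn
      exact Finset.mem_product.2 ⟨Finset.mem_image_of_mem _ hn, Finset.mem_image_of_mem _ hn⟩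
    · intro n hn k hk hnk
      simp only [Prod.mk.injEq] at hnk
      obtain ⟨e1, e2⟩ := hnk
      rw [map_mul, map_mul, e1, map_pow, map_pow] at e2
      have hyk : B.valuation (y k) ≠ 0 := by
        rw [Ne, map_eq_zero]
        exact hy0 k hk
      have e3 := mul_left_cancel₀ hyk e2
      by_contra hne
      rcases lt_or_gt_of_ne hne with h | h
      · have := pow_lt_pow_right_of_lt_one₀ (zero_lt_iff.2 hvt0) htB h
        exact absurd e3 (ne_of_gt this)
      · have := pow_lt_pow_right_of_lt_one₀ (zero_lt_iff.2 hvt0) htB h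
        exact absurd e3 (ne_of_lt this)
  rw [Finset.card_product] at h3
  exact h3.trans (Nat.mul_le_mul h1 h2)

end Pool.Agent.R356
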